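import Pool.Agent.P.MP_e72dc0_lc.TF.Defs

namespace Pool.Agent.P.MP_e72dc0_lc.TF

open Pool.Agent.P.MP_db4732_co.Ent Filter Topology

variable {F : Fam} {S S' : Sys F}

theorem base_det {X Y : RV S} (h : X ≤ Y) (k : ℕ) :
    Det (S.p k) (fun ω => Quotient.mk (X k) ω) (fun ω => Quotient.mk (Y k) ω) :=
  fun _ _ _ _ e => Quotient.sound (h k (Quotient.exact e))

theorem H_tendsto (X : RV S) :
    Tendsto (fun k => ent (S.p k) (fun ω => Quotient.mk (X k) ω) / F.L k)
      (hyperfilter ℕ : Filter ℕ) (𝓝 (H X)) := by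
  obtain ⟨C, hC⟩ := S.bd
  have hm : ∀ k, ent (S.p k) (fun ω => Quotient.mk (X k) ω) / F.L k ∈ Set.Icc 0 C := by
    intro k
    have h0 : ent (S.p k) (fun _ => ()) ≤ ent (S.p k) (fun ω => Quotient.mk (X k) ω) :=
      ent_mono (S.hp k) fun _ _ _ _ _ => rfl
    rw [ent_const (S.hp k)] at h0
    have h1 : ent (S.p k) (fun ω => Quotient.mk (X k) ω) ≤ ent (S.p k) id :=
      ent_mono (S.hp k) fun _ _ _ _ h => congrArg _ h
    exact ⟨div_nonneg h0 (F.L_pos k).le, (div_le_iff₀ (F.L_pos k)).2 (h1.trans (hC k))⟩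
  obtain ⟨x, -, hx⟩ := (isCompact_Icc (a := (0 : ℝ)) (b := C)).ultrafilter_le_nhds
    ((hyperfilter ℕ).map fun k => ent (S.p k) (fun ω => Quotient.mk (X k) ω) / F.L k)
    (by
      rw [le_principal_iff, Ultrafilter.coe_map, mem_map]
      exact univ_mem' hm)
  exact tendsto_nhds_limUnder ⟨x, hx⟩

theorem H_top : H (⊤ : RV S) = 0 := by
  refine tendsto_nhds_unique (H_tendsto ⊤) ?_
  have h : ∀ k, ent (S.p k) (fun ω => Quotient.mk ((⊤ : RV S) k) ω) / F.L k = 0 := by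
    intro k
    have h0 : ent (S.p k) (fun ω => Quotient.mk ((⊤ : RV S) k) ω) = ent (S.p k) (fun _ => ()) :=
      le_antisymm (ent_mono (S.hp k) fun _ _ _ _ _ => Quotient.sound trivial)
        (ent_mono (S.hp k) fun _ _ _ _ _ => rfl)
    rw [h0, ent_const (S.hp k), zero_div]
  simp only [h]
  exact tendsto_const_nhds

theorem H_mono {X Y : RV S} (h : X ≤ Y) : H Y ≤ H X := by
  refine le_of_tendsto_of_tendsto' (H_tendsto Y) (H_tendsto X) fun k => ?_
  exact div_le_div_of_nonneg_right (ent_mono (S.hp k) (base_det h k)) (F.L_pos k).le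

/-- submodularity -/
theorem H_sub (X Y Z R : RV S) (hX : X ≤ Z) (hY : Y ≤ Z) (hR : X ⊓ Y ≤ R) :
    H R + H Z ≤ H X + H Y := by
  refine le_of_tendsto_of_tendsto' ((H_tendsto R).add (H_tendsto Z))
    ((H_tendsto X).add (H_tendsto Y)) fun k => ?_
  rw [← add_div, ← add_div]
  refine div_le_div_of_nonneg_right (submod (S.hp k) (base_det hX k) (base_det hY k) ?_)
    (F.L_pos k).le
  intro ω ω' _ _ h
  have h1 := Prod.ext_iff.1 h
  exact Quotient.sound (hR k ⟨Quotient.exact h1.1, Quotient.exact h1.2⟩)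

theorem H_nonneg (X : RV S) : 0 ≤ H X := by
  have := H_mono (le_top : X ≤ ⊤)
  rwa [H_top] at this

theorem H_congr {X Y : RV S} (h : X ≤ Y) (h' : Y ≤ X) : H X = H Y := by
  rw [le_antisymm h h']

/-- a variable with few values on each class of `V` -/
theorem H_card {α : ℕ → Type} (V : RV S) (x : ∀ k, S.Ω k → α k) (τ : ℕ → ℕ) (c B : ℝ)
    (hτ : ∀ k, 0 < τ k) (hc : ∀ k, Real.log (τ k) ≤ (c + F.η k) * F.L k + B)
    (h : ∀ k ω1, ∃ T : Finset (α k), T.card ≤ τ k ∧ ∀ ω, V k ω ω1 → x k ω ∈ T) :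
    H (V ⊓ rv x) ≤ H V + c := by
  classical
  have hf : (hyperfilter ℕ : Filter ℕ) ≤ atTop := by
    rw [← Nat.cofinite_eq_atTop]; exact hyperfilter_le_cofinite
  have t1 : Tendsto F.η (hyperfilter ℕ : Filter ℕ) (𝓝 0) := F.η_zero.mono_left hf
  have t2 : Tendsto (fun k => B / F.L k) (hyperfilter ℕ : Filter ℕ) (𝓝 0) :=
    (tendsto_const_nhds.div_atTop F.L_top).mono_left hf
  have t3 := (H_tendsto V).add (((tendsto_const_nhds (x := c)).add t1).add t2)
  simp only [add_zero] at t3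
  refine le_of_tendsto_of_tendsto' (H_tendsto (V ⊓ rv x)) t3 fun k => ?_
  have h1 : ent (S.p k) (fun ω => Quotient.mk ((V ⊓ rv x) k) ω) ≤
      ent (S.p k) (fun ω => (Quotient.mk (V k) ω, x k ω)) := by
    refine ent_mono (S.hp k) fun ω ω' _ _ h => ?_
    have h1 := Prod.ext_iff.1 h
    exact Quotient.sound ⟨Quotient.exact h1.1, h1.2⟩
  have h2 : ent (S.p k) (fun ω => (Quotient.mk (V k) ω, x k ω)) ≤
      ent (S.p k) (fun ω => Quotient.mk (V k) ω) + Real.log (τ k) := by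
    refine ent_le_add_log (S.hp k) (τ k) (hτ k) fun ω1 _ => ?_
    obtain ⟨T, hT, hx⟩ := h k ω1
    refine ⟨T.image fun a => (Quotient.mk (V k) ω1, a), Finset.card_image_le.trans hT,
      fun ω _ he => Finset.mem_image.2 ⟨x k ω, hx ω (Quotient.exact he), ?_⟩⟩
    exact Prod.ext he.symm rfl
  have hL := F.L_pos k
  rw [div_le_iff₀ hL]
  have e : (ent (S.p k) (fun ω => Quotient.mk (V k) ω) / F.L k + (c + F.η k + B / F.L k)) * F.L k =
      ent (S.p k) (fun ω => Quotient.mk (V k) ω) + ((c + F.η k) * F.L k + B) := by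
    field_simp
  rw [e]
  linarith [hc k]

end Pool.Agent.P.MP_e72dc0_lc.TF
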