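import Pool.Agent.P.MP_e72dc0_lc.TF.Base

namespace Pool.Agent.P.MP_e72dc0_lc.TF

open Pool.Agent.P.MP_db4732_co.Ent Filter Topology

section CopyFin

variable {Ω α β : Type*} [Fintype Ω] {p : Ω → ℝ}

lemma copy_sum_sub {A : Ω → Prop} [Fintype {ω // A ω}] (g : Ω → ℝ) (hg : ∀ ω, ¬ A ω → g ω = 0) :
    ∑ w : {ω // A ω}, g w.1 = ∑ ω, g ω :=
  Fintype.sum_of_injective Subtype.val Subtype.val_injective _ _
    (fun ω hω => hg ω fun h => hω ⟨⟨ω, h⟩, rfl⟩) fun _ => rfl

lemma copy_isP_sub (hp : IsP p) {A : Ω → Prop} [Fintype {ω // A ω}]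
    (hA : ∀ ω, ¬ A ω → p ω = 0) : IsP fun w : {ω // A ω} => p w.1 :=
  ⟨fun w => hp.1 w.1, (copy_sum_sub p hA).trans hp.2⟩

lemma copy_ent_sub {A : Ω → Prop} [Fintype {ω // A ω}]
    (hA : ∀ ω, ¬ A ω → p ω = 0) (X : Ω → α) :
    ent (fun w : {ω // A ω} => p w.1) (fun w => X w.1) = ent p X := by
  classical
  have h1 : ∀ v, law (fun w : {ω // A ω} => p w.1) (fun w => X w.1) v = law p X v := fun v => by
    unfold law
    exact copy_sum_sub (fun ω => if X ω = v then p ω else 0) fun ω h => by simp [hA ω h]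
  unfold ent
  simp only [h1]
  rw [copy_sum_sub (fun ω => p ω * Real.log (law p X (X ω))) fun ω h => by simp [hA ω h]]

lemma copy_ent_congr (hp : IsP p) {X : Ω → α} {Y : Ω → β}
    (h : ∀ ω ω', X ω = X ω' ↔ Y ω = Y ω') : ent p X = ent p Y :=
  le_antisymm (ent_mono hp fun ω ω' _ _ e => (h ω ω').2 e)
    (ent_mono hp fun ω ω' _ _ e => (h ω ω').1 e)

lemma copy_unif [Nonempty Ω] : IsP fun _ : Ω => (1 : ℝ) / Fintype.card Ω := by
  have : (0 : ℝ) < Fintype.card Ω := by exact_mod_cast Fintype.card_pos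
  refine ⟨fun _ => by positivity, ?_⟩
  rw [Finset.sum_const, Finset.card_univ, nsmul_eq_mul]
  field_simp

lemma copy_ent_unif [Nonempty Ω] :
    ent (fun _ : Ω => (1 : ℝ) / Fintype.card Ω) id = Real.log (Fintype.card Ω) := by
  have : (0 : ℝ) < Fintype.card Ω := by exact_mod_cast Fintype.card_pos
  unfold ent
  simp only [law_id]
  rw [Finset.sum_const, Finset.card_univ, nsmul_eq_mul, one_div, Real.log_inv]
  field_simp

end CopyFin

variable {F : Fam} {S S' : Sys F}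

lemma copy_off (S : Sys F) (Z : RV S) (k : ℕ) (w : S.Ω k × S.Ω k) (h : ¬ Z k w.1 w.2) :
    glue (S.p k) (fun ω => Quotient.mk (Z k) ω) w = 0 := by
  by_contra h0
  exact h (Quotient.exact (glue_ne h0).1)

lemma copy_ent_nonneg {Ω α : Type*} [Fintype Ω] {p : Ω → ℝ} (hp : IsP p) (X : Ω → α) :
    0 ≤ ent p X := by
  rw [← ent_const hp]
  exact ent_mono hp fun _ _ _ _ _ => rfl

open Classical in
/-- the glued system -/
noncomputable def copySys (S : Sys F) (Z : RV S) : Sys F where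
  Ω k := {w : S.Ω k × S.Ω k // Z k w.1 w.2}
  fin _ := inferInstance
  p k w := glue (S.p k) (fun ω => Quotient.mk (Z k) ω) w.1
  hp k := copy_isP_sub (glue_isP (S.hp k) _) (copy_off S Z k)
  bd := by
    obtain ⟨C, hC⟩ := S.bd
    refine ⟨2 * C, fun k => ?_⟩
    have h1 := copy_ent_congr (copy_isP_sub (glue_isP (S.hp k) _) (copy_off S Z k))
      (X := id) (Y := fun w => id w.1) fun _ _ => Subtype.ext_iff
    rw [h1, copy_ent_sub (copy_off S Z k), ent_glue_id (S.hp k)]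
    linarith [hC k, copy_ent_nonneg (S.hp k) fun ω => Quotient.mk (Z k) ω]

lemma copy_ent_pull (S : Sys F) (Z : RV S) (k : ℕ) {α β : Type}
    (X : (copySys S Z).Ω k → α) (Y : S.Ω k × S.Ω k → β)
    (h : ∀ ω ω', X ω = X ω' ↔ Y ω.1 = Y ω'.1) :
    ent ((copySys S Z).p k) X = ent (glue (S.p k) fun ω => Quotient.mk (Z k) ω) Y := by
  classical
  rw [copy_ent_congr ((copySys S Z).hp k) (Y := fun w => Y w.1) h]
  exact copy_ent_sub (copy_off S Z k) Y

/-- first projection -/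
noncomputable def copyFst (S : Sys F) (Z : RV S) : Ext (copySys S Z) S where
  f _ w := w.1.1
  H_eq X := by
    unfold H
    congr 1
    funext k
    congr 1
    rw [copy_ent_pull S Z k _ (fun w => Quotient.mk (X k) w.1) fun ω ω' => by
      rw [Quotient.eq, Quotient.eq]; rfl]
    exact ent_glue_fst (S.hp k) _ fun ω => Quotient.mk (X k) ω

/-- second projection -/
noncomputable def copySnd (S : Sys F) (Z : RV S) : Ext (copySys S Z) S where
  f _ w := w.1.2
  H_eq X := by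
    unfold H
    congr 1
    funext k
    congr 1
    rw [copy_ent_pull S Z k _ (fun w => Quotient.mk (X k) w.2) fun ω ω' => by
      rw [Quotient.eq, Quotient.eq]; rfl]
    exact ent_glue_snd (S.hp k) _ fun ω => Quotient.mk (X k) ω

lemma copy_bot (S : Sys F) (Z : RV S) :
    H ((copyFst S Z).rv ⊥ ⊓ (copySnd S Z).rv ⊥) = 2 * H (⊥ : RV S) - H Z := by
  refine tendsto_nhds_unique (H_tendsto _) ?_
  refine (((H_tendsto (⊥ : RV S)).const_mul 2).sub (H_tendsto Z)).congr fun k => ?_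
  rw [copy_ent_pull S Z k _ id fun ω ω' => by
    rw [Quotient.eq]
    exact Prod.ext_iff.symm, ent_glue_id (S.hp k),
    copy_ent_congr (S.hp k) (X := fun ω => Quotient.mk ((⊥ : RV S) k) ω) (Y := id) fun ω ω' => by
      rw [Quotient.eq]; rfl]
  ring

/-- conditionally independent copy over `Z` -/
theorem copy (S : Sys F) (Z : RV S) : ∃ (S' : Sys F) (π₁ π₂ : Ext S' S),
    (∀ X : RV S, Z ≤ X → π₂.rv X = π₁.rv X) ∧
    (∀ (α : ℕ → Type) (g : ∀ k, S.Ω k → α k), Z ≤ rv g → π₂.fn g = π₁.fn g) ∧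
    ∀ X Y : RV S, X ≤ Z → Y ≤ Z → H (π₁.rv X ⊓ π₂.rv Y) = H X + H Y - H Z := by
  have e1 : ∀ X : RV S, Z ≤ X → (copySnd S Z).rv X = (copyFst S Z).rv X := by
    intro X hX
    funext k
    ext w w'
    have h1 : X k w.1.1 w.1.2 := hX k w.2
    have h2 : X k w'.1.1 w'.1.2 := hX k w'.2
    exact ⟨fun h => (X k).trans' h1 ((X k).trans' h ((X k).symm' h2)),
      fun h => (X k).trans' ((X k).symm' h1) ((X k).trans' h h2)⟩
  refine ⟨copySys S Z, copyFst S Z, copySnd S Z, e1, fun α g hg => ?_, fun X Y hX hY => ?_⟩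
  · funext k w
    exact (hg k w.2).symm
  · have hb := copy_bot S Z
    have a1 := (copyFst S Z).mono hX
    have a2 := (copySnd S Z).mono hY
    have a3 := (copyFst S Z).mono (bot_le : ⊥ ≤ X)
    have a4 := (copySnd S Z).mono (bot_le : ⊥ ≤ Y)
    rw [e1 Z le_rfl] at a2
    have u := H_sub ((copyFst S Z).rv X) ((copySnd S Z).rv Y) ((copyFst S Z).rv Z) _ a1 a2 le_rfl
    have l1 := H_sub ((copyFst S Z).rv ⊥) ((copyFst S Z).rv X ⊓ (copySnd S Z).rv ⊥)
      ((copyFst S Z).rv X) ((copyFst S Z).rv ⊥ ⊓ (copySnd S Z).rv ⊥) a3 inf_le_left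
      (inf_le_inf_left _ inf_le_right)
    have l2 := H_sub ((copySnd S Z).rv ⊥) ((copyFst S Z).rv X ⊓ (copySnd S Z).rv Y)
      ((copySnd S Z).rv Y) ((copyFst S Z).rv X ⊓ (copySnd S Z).rv ⊥) a4 inf_le_right
      (le_inf (inf_le_right.trans inf_le_left) inf_le_left)
    simp only [Ext.H_rv] at u l1 l2
    linarith

/-- incidences -/
abbrev copyInc (F : Fam) (k : ℕ) : Type := Σ s : F.Lab k, F.P k s × F.P k (F.fl k s)

lemma copy_card (F : Fam) (k : ℕ) :
    Fintype.card (copyInc F k) = ∑ s, (F.P k s).card * (F.P k (F.fl k s)).card := by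
  simp [copyInc]

lemma copy_ne (F : Fam) (k : ℕ) : Nonempty (copyInc F k) :=
  Fintype.card_pos_iff.1 (by rw [copy_card]; exact F.ne k)

lemma copy_inj (F : Fam) (k : ℕ) (w w' : copyInc F k) (h1 : w.1 = w'.1)
    (h2 : w.2.1.1 + w.2.2.1 = w'.2.1.1 + w'.2.2.1) : w = w' := by
  obtain ⟨s, x, y⟩ := w
  obtain ⟨s', x', y'⟩ := w'
  obtain rfl : s = s' := h1
  have e : x.1 = x'.1 := F.direct k s _ x.2 _ x'.2 _ y.2 _ y'.2 h2
  obtain rfl : x = x' := Subtype.ext e
  obtain rfl : y = y' := Subtype.ext (add_left_cancel h2)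
  rfl

/-- the uniform system on incidences -/
noncomputable def copyUnif (F : Fam) : Sys F where
  Ω := copyInc F
  fin _ := inferInstance
  p k _ := (1 : ℝ) / Fintype.card (copyInc F k)
  hp k := by
    have := copy_ne F k
    exact copy_unif
  bd := by
    obtain ⟨B, hB⟩ := F.η_zero.bddAbove_range
    refine ⟨3 + 2 * B, fun k => ?_⟩
    have := copy_ne F k
    have hp := copy_unif (Ω := copyInc F k)
    have h1 := subadd hp (P := fun w => w.1) (Q := fun w => w.2.1.1 + w.2.2.1) (R := id)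
      fun w w' _ _ e => copy_inj F k w w' (congrArg Prod.fst e) (congrArg Prod.snd e)
    have h2 := ent_le_log_card hp (X := fun w => w.1) (R := fun w => w.1) fun _ _ _ _ e => e
    have h3 := ent_le_log_card hp (X := fun w => w.2.1.1 + w.2.2.1)
      (R := fun w => w.2.1.1 + w.2.2.1) fun _ _ _ _ e => e
    have h4 : F.η k * F.L k ≤ B * F.L k :=
      mul_le_mul_of_nonneg_right (hB ⟨k, rfl⟩) (F.L_pos k).le
    linarith [F.cardG k, F.cardLab k]

/-- a uniformly distributed incidence -/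
theorem exist0 (F : Fam) : ∃ (S : Sys F) (d : Pt S) (s : Lb S), In s d ∧ 3 ≤ H (rv s ⊓ rv d) := by
  refine ⟨copyUnif F, fun _ w => w.2.1.1 + w.2.2.1, fun _ w => w.1,
    fun k w => ⟨w.2.1.1, w.2.1.2, by simp⟩, ?_⟩
  have h0 : Tendsto (fun k => 3 - F.η k) (hyperfilter ℕ : Filter ℕ) (𝓝 (3 - 0)) :=
    (F.η_zero.mono_left Nat.hyperfilter_le_atTop).const_sub 3
  rw [sub_zero] at h0
  refine le_of_tendsto_of_tendsto' h0 (H_tendsto _) fun k => ?_
  rw [le_div_iff₀ (F.L_pos k)]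
  have := copy_ne F k
  refine (F.many k).trans ?_
  rw [← copy_card, ← copy_ent_unif]
  refine ent_mono ((copyUnif F).hp k) fun w w' _ _ e => ?_
  have e' := Quotient.exact e
  exact copy_inj F k w w' e'.1 e'.2

end Pool.Agent.P.MP_e72dc0_lc.TF
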