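import Pool.Agent.P.MP_e72dc0_lc.TF.Tadd

namespace Pool.Agent.P.MP_e72dc0_lc.TF

open Pool.Agent.P.MP_db4732_co.Ent Filter Topology

variable {F : Fam} {S S' : Sys F}

section Abstract

variable {X : Type} (f : X → X) (sz : List X → ℝ)

/-- first moment of the signs along `l` in the context `m` -/
def cornerA : List X → List X → ℝ
  | [], _ => 0
  | u :: l, m => sz (u :: m) - sz (f u :: m) + cornerA l m

/-- mixed second moment of the signs along `l` in the context `m` -/
def cornerB : List X → List X → ℝ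
  | [], _ => 0
  | u :: l, m => cornerA f sz l (u :: m) - cornerA f sz l (f u :: m) + cornerB l m

/-- second moment of `k` plus the sum of the signs along `l` in the context `m` -/
def cornerQ : List X → List X → ℝ → ℝ
  | [], m, k => k ^ 2 * sz m
  | u :: l, m, k => cornerQ l (u :: m) (k + 1) + cornerQ l (f u :: m) (k - 1)

/-- an additive size function on a class of lists -/
structure CornerSys (G : List X → Prop) : Prop where
  perm : ∀ l l', G l → l.Perm l' → G l'
  tail : ∀ u l, G (u :: l) → G l
  flip : ∀ u l, G (u :: l) → G (f u :: l)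
  szp : ∀ l l', l.Perm l' → sz l = sz l'
  nn : ∀ l, G l → 0 ≤ sz l
  add : ∀ u l, G (u :: l) → sz l = sz (u :: l) + sz (f u :: l)
  s0 : sz [] = 2
  s1 : ∀ u, G [u] → sz [u] = 1
  s2 : ∀ u v, G [u, v] → sz [u, v] = 1 / 2

variable {f sz} {G : List X → Prop}

theorem CornerSys.drop (h : CornerSys f sz G) : ∀ (l m : List X), G (l ++ m) → G m
  | [], _, hg => hg
  | u :: l, m, hg => h.drop l m (h.tail u _ hg)

theorem CornerSys.mid (h : CornerSys f sz G) {u : X} {l m : List X} (hg : G (u :: (l ++ m))) :
    G (l ++ u :: m) := h.perm _ _ hg List.perm_middle.symm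

theorem CornerSys.unmid (h : CornerSys f sz G) {u : X} {l m : List X} (hg : G (l ++ u :: m)) :
    G (u :: (l ++ m)) := h.perm _ _ hg List.perm_middle

theorem CornerSys.addA (h : CornerSys f sz G) (u : X) : ∀ (l m : List X), G (u :: (l ++ m)) →
    cornerA f sz l m = cornerA f sz l (u :: m) + cornerA f sz l (f u :: m)
  | [], _, _ => by simp [cornerA]
  | v :: l, m, hg => by
    have hg' : G (v :: u :: (l ++ m)) := h.perm _ _ hg (List.Perm.swap _ _ _)
    have ih := h.addA u l m (h.tail v _ hg')
    have g1 : G (v :: u :: m) :=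
      h.drop l _ (h.mid (h.perm _ _ hg' (List.perm_middle.symm.cons v)))
    have g2 : G (f v :: u :: m) := h.flip _ _ g1
    have a1 := h.add u (v :: m) (h.perm _ _ g1 (List.Perm.swap _ _ _))
    have a2 := h.add u (f v :: m) (h.perm _ _ g2 (List.Perm.swap _ _ _))
    have p1 := h.szp (u :: v :: m) (v :: u :: m) (List.Perm.swap _ _ _)
    have p2 := h.szp (f u :: v :: m) (v :: f u :: m) (List.Perm.swap _ _ _)
    have p3 := h.szp (u :: f v :: m) (f v :: u :: m) (List.Perm.swap _ _ _)
    have p4 := h.szp (f u :: f v :: m) (f v :: f u :: m) (List.Perm.swap _ _ _)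
    simp only [cornerA]
    linarith

theorem CornerSys.permA (h : CornerSys f sz G) : ∀ (l m m' : List X), m.Perm m' →
    cornerA f sz l m = cornerA f sz l m'
  | [], _, _, _ => by simp [cornerA]
  | v :: l, m, m', hp => by
    simp only [cornerA]
    rw [h.permA l m m' hp, h.szp _ _ (hp.cons v), h.szp _ _ (hp.cons (f v))]

theorem CornerSys.addB (h : CornerSys f sz G) (u : X) : ∀ (l m : List X), G (u :: (l ++ m)) →
    cornerB f sz l m = cornerB f sz l (u :: m) + cornerB f sz l (f u :: m)
  | [], _, _ => by simp [cornerB]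
  | v :: l, m, hg => by
    have hg' : G (v :: u :: (l ++ m)) := h.perm _ _ hg (List.Perm.swap _ _ _)
    have ih := h.addB u l m (h.tail v _ hg')
    have hf : G (f v :: u :: (l ++ m)) := h.flip _ _ hg'
    have g1 : G (u :: (l ++ v :: m)) :=
      h.perm _ _ hg' ((List.Perm.swap _ _ _).trans (List.perm_middle.symm.cons u))
    have g2 : G (u :: (l ++ f v :: m)) :=
      h.perm _ _ hf ((List.Perm.swap _ _ _).trans (List.perm_middle.symm.cons u))
    have a1 := h.addA u l (v :: m) g1
    have a2 := h.addA u l (f v :: m) g2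
    have p1 := h.permA l (u :: v :: m) (v :: u :: m) (List.Perm.swap _ _ _)
    have p2 := h.permA l (f u :: v :: m) (v :: f u :: m) (List.Perm.swap _ _ _)
    have p3 := h.permA l (u :: f v :: m) (f v :: u :: m) (List.Perm.swap _ _ _)
    have p4 := h.permA l (f u :: f v :: m) (f v :: f u :: m) (List.Perm.swap _ _ _)
    simp only [cornerB]
    linarith

theorem CornerSys.closed (h : CornerSys f sz G) : ∀ (l m : List X) (k : ℝ), G (l ++ m) →
    cornerQ f sz l m k =
      (k ^ 2 + l.length) * sz m + 2 * k * cornerA f sz l m + 2 * cornerB f sz l m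
  | [], m, k, _ => by simp [cornerQ, cornerA, cornerB]
  | u :: l, m, k, hg => by
    have hg : G (u :: (l ++ m)) := hg
    have i1 := h.closed l (u :: m) (k + 1) (h.mid hg)
    have i2 := h.closed l (f u :: m) (k - 1) (h.mid (h.flip _ _ hg))
    have a0 := h.add u m (h.drop l _ (h.mid hg))
    have a1 := h.addA u l m hg
    have a2 := h.addB u l m hg
    simp only [cornerQ, cornerA, cornerB, List.length_cons, Nat.cast_add, Nat.cast_one]
    rw [i1, i2, a0, a1, a2]
    ring

theorem CornerSys.Q_nonneg (h : CornerSys f sz G) : ∀ (l m : List X) (k : ℝ), G (l ++ m) →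
    0 ≤ cornerQ f sz l m k
  | [], m, k, hg => by
    simp only [cornerQ]
    exact mul_nonneg (sq_nonneg k) (h.nn m hg)
  | u :: l, m, k, hg => by
    have hg : G (u :: (l ++ m)) := hg
    simp only [cornerQ]
    exact add_nonneg (h.Q_nonneg l _ _ (h.mid hg)) (h.Q_nonneg l _ _ (h.mid (h.flip _ _ hg)))

theorem CornerSys.lower (h : CornerSys f sz G) : ∀ (l m : List X) (k : ℝ), G (l ++ m) →
    (k + l.length) ^ 2 * sz (l ++ m) ≤ cornerQ f sz l m k
  | [], m, k, _ => by simp [cornerQ]
  | u :: l, m, k, hg => by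
    have hg : G (u :: (l ++ m)) := hg
    have i1 := h.lower l (u :: m) (k + 1) (h.mid hg)
    have i2 := h.Q_nonneg l (f u :: m) (k - 1) (h.mid (h.flip _ _ hg))
    have p := h.szp (l ++ u :: m) (u :: (l ++ m)) List.perm_middle
    simp only [cornerQ, List.length_cons, Nat.cast_add, Nat.cast_one, List.cons_append]
    rw [p] at i1
    have e : k + ((l.length : ℝ) + 1) = k + 1 + l.length := by ring
    rw [e]
    linarith

theorem CornerSys.A_one (h : CornerSys f sz G) (u : X) : ∀ l : List X, G (u :: l) →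
    cornerA f sz l [u] = 0
  | [], _ => by simp [cornerA]
  | v :: l, hg => by
    have hg' : G (v :: u :: l) := h.perm _ _ hg (List.Perm.swap _ _ _)
    have ih := h.A_one u l (h.tail v _ hg')
    have g1 : G [v, u] :=
      h.drop l _ (h.perm _ _ hg' (List.perm_append_comm (l₁ := [v, u]) (l₂ := l)))
    have s1 := h.s2 v u g1
    have s2 := h.s2 (f v) u (h.flip _ _ g1)
    simp only [cornerA]
    linarith

theorem CornerSys.B_zero (h : CornerSys f sz G) : ∀ l : List X, G l → cornerB f sz l [] = 0
  | [], _ => by simp [cornerB]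
  | u :: l, hg => by
    have ih := h.B_zero l (h.tail u _ hg)
    have a1 := h.A_one u l hg
    have a2 := h.A_one (f u) l (h.flip _ _ hg)
    simp only [cornerB]
    linarith

theorem CornerSys.bound (h : CornerSys f sz G) (l : List X) (hg : G l) :
    (l.length : ℝ) * sz l ≤ 2 := by
  have hg' : G (l ++ []) := by simpa using hg
  have c := h.closed l [] 0 hg'
  have w := h.lower l [] 0 hg'
  rw [c, h.B_zero l hg, h.s0] at w
  simp only [List.append_nil, zero_add] at w
  rcases Nat.eq_zero_or_pos l.length with h0 | h0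
  · rw [h0]; norm_num
  · have hp : (0 : ℝ) < l.length := by exact_mod_cast h0
    have : (l.length : ℝ) * ((l.length : ℝ) * sz l) ≤ (l.length : ℝ) * 2 := by nlinarith
    exact le_of_mul_le_mul_left this hp

end Abstract

theorem corner_cq_perm (d : Pt S) {l l' : List (Lb S)} (hp : l.Perm l') : cq d l = cq d l' := by
  induction hp with
  | nil => rfl
  | cons x _ ih => rw [cq_cons, cq_cons, ih]
  | swap x y l => rw [cq_cons, cq_cons, cq_cons, cq_cons, inf_left_comm]
  | trans _ _ ih1 ih2 => exact ih1.trans ih2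

theorem corner {Λ : RV S} {d : Pt S} {l : List (Lb S)} (h : Free Λ d l) :
    (l.length : ℝ) * (H (Λ ⊓ rv d) - H (Λ ⊓ cq d l)) ≤ 2 := by
  have key : CornerSys (X := Lb S) fl (fun m => H (Λ ⊓ rv d) - H (Λ ⊓ cq d m))
      (fun m => Free Λ d m) := by
    refine ⟨fun _ _ hf hp => hf.perm hp, fun u m hf => hf.sublist (List.sublist_cons_self u m),
      fun _ _ hf => hf.flip, fun _ _ hp => by simp only [corner_cq_perm d hp], ?_, ?_, ?_, ?_, ?_⟩
    · intro m hf
      have := H_mono (le_inf inf_le_left hf.le_cq : Λ ⊓ rv d ≤ Λ ⊓ cq d m)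
      linarith
    · intro u m hf
      have a1 : H (Λ ⊓ cq d m ⊓ rv (pP u d)) + H (Λ ⊓ cq d m ⊓ rv (qP u d)) ≤
          H (Λ ⊓ rv d) + H (Λ ⊓ cq d m) := addT hf
      have a2 := superadd (Λ := Λ) (Θ := Λ ⊓ cq d m) (hf.inc u (by simp)) inf_le_left
      have e1 : Λ ⊓ cq d (u :: m) = Λ ⊓ cq d m ⊓ rv (qP u d) := by
        rw [cq_cons, inf_assoc, inf_comm (cq d m)]
      have e2 : Λ ⊓ cq d (fl u :: m) = Λ ⊓ cq d m ⊓ rv (pP u d) := by
        rw [cq_cons, qP_fl, inf_assoc, inf_comm (cq d m)]
      simp only [e1, e2]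
      linarith
    · have := h.pt_eq
      simp only [cq_nil, inf_top_eq]
      linarith
    · intro u hf
      have := single hf
      simp only [cq_cons, cq_nil, inf_top_eq]
      linarith
    · intro u v hf
      have := pair hf
      simp only [cq_cons, cq_nil, inf_top_eq, ← inf_assoc]
      linarith
  exact key.bound l h

end Pool.Agent.P.MP_e72dc0_lc.TF
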