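import Pool.Agent.P.MP_db4732_co.Ent

/-! Limit entropy for sequences of finite probability spaces carrying signed labels. -/

namespace Pool.Agent.P.MP_e72dc0_lc.TF

open Pool.Agent.P.MP_db4732_co.Ent Filter Topology

/-- A sequence of families of signed labels that is asymptotically lossless. -/
structure Fam where
  G : ℕ → Type
  grp : ∀ k, AddCommGroup (G k)
  fin : ∀ k, Fintype (G k)
  Lab : ℕ → Type
  finL : ∀ k, Fintype (Lab k)
  fl : ∀ k, Lab k → Lab k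
  sg : ∀ k, Lab k → Bool
  P : ∀ k, Lab k → Finset (G k)
  L : ℕ → ℝ
  η : ℕ → ℝ
  L_pos : ∀ k, 0 < L k
  L_top : Tendsto L atTop atTop
  η_zero : Tendsto η atTop (𝓝 0)
  η_nonneg : ∀ k, 0 ≤ η k
  fl_fl : ∀ k s, fl k (fl k s) = s
  direct : ∀ k s, ∀ p ∈ P k s, ∀ p' ∈ P k s, ∀ q ∈ P k (fl k s), ∀ q' ∈ P k (fl k s),
    p + q = p' + q' → p = p'
  det : ∀ k s r r', sg k r = sg k r' →
    ∀ p ∈ P k s, ∀ q ∈ P k (fl k s), ∀ p' ∈ P k s, ∀ q' ∈ P k (fl k s),
    ∀ x ∈ P k r, ∀ y ∈ P k (fl k r), ∀ x' ∈ P k r', ∀ y' ∈ P k (fl k r'),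
    p + q = x + y → p' + q' = x' + y' → p - x = p' - x' → r = r'
  cardG : ∀ k, Real.log (Fintype.card (G k)) ≤ (2 + η k) * L k
  cardLab : ∀ k, Real.log (Fintype.card (Lab k)) ≤ (1 + η k) * L k
  cardP : ∀ k s, Real.log (P k s).card ≤ (1 + η k) * L k
  ne : ∀ k, 0 < ∑ s, (P k s).card * (P k (fl k s)).card
  many : ∀ k, (3 - η k) * L k ≤ Real.log ((∑ s, (P k s).card * (P k (fl k s)).card : ℕ) : ℝ)

instance instGrp (F : Fam) (k : ℕ) : AddCommGroup (F.G k) := F.grp k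
instance instFinG (F : Fam) (k : ℕ) : Fintype (F.G k) := F.fin k
instance instFinL (F : Fam) (k : ℕ) : Fintype (F.Lab k) := F.finL k

/-- A sequence of finite probability spaces of bounded normalised entropy. -/
structure Sys (F : Fam) where
  Ω : ℕ → Type
  fin : ∀ k, Fintype (Ω k)
  p : ∀ k, Ω k → ℝ
  hp : ∀ k, IsP (p k)
  bd : ∃ C : ℝ, ∀ k, ent (p k) id ≤ C * F.L k

instance instFinS {F : Fam} (S : Sys F) (k : ℕ) : Fintype (S.Ω k) := S.fin k

variable {F : Fam} {S S' S'' : Sys F}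

/-- Random variables are partitions; the joint variable is the infimum; `X ≤ Y` means that `X`
determines `Y`. -/
abbrev RV (S : Sys F) := ∀ k, Setoid (S.Ω k)

/-- group valued variables -/
abbrev Pt (S : Sys F) := ∀ k, S.Ω k → F.G k

/-- label valued variables -/
abbrev Lb (S : Sys F) := ∀ k, S.Ω k → F.Lab k

/-- normalised limit entropy -/
noncomputable def H (X : RV S) : ℝ :=
  limUnder (hyperfilter ℕ : Filter ℕ)
    fun k => ent (S.p k) (fun ω => Quotient.mk (X k) ω) / F.L k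

/-- the partition of a function -/
def rv {α : ℕ → Type} (f : ∀ k, S.Ω k → α k) : RV S := fun k => Setoid.ker (f k)

/-- flipped label -/
def fl (s : Lb S) : Lb S := fun k ω => F.fl k (s k ω)

open Classical in
/-- first component of the decomposition of `d` along the label `s` -/
noncomputable def Fam.pp (F : Fam) (k : ℕ) (s : F.Lab k) (d : F.G k) : F.G k :=
  if h : ∃ x ∈ F.P k s, d - x ∈ F.P k (F.fl k s) then h.choose else 0

/-- first component -/
noncomputable def pP (s : Lb S) (d : Pt S) : Pt S := fun k ω => F.pp k (s k ω) (d k ω)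

/-- second component -/
noncomputable def qP (s : Lb S) (d : Pt S) : Pt S := pP (fl s) d

/-- `d` decomposes along `s` -/
def In (s : Lb S) (d : Pt S) : Prop :=
  ∀ k ω, ∃ x ∈ F.P k (s k ω), d k ω - x ∈ F.P k (F.fl k (s k ω))

/-- `x` lies in the first set of `s` -/
def Mem (x : Pt S) (s : Lb S) : Prop := ∀ k ω, x k ω ∈ F.P k (s k ω)

/-- entropy preserving maps of systems -/
structure Ext (S' S : Sys F) where
  f : ∀ k, S'.Ω k → S.Ω k
  H_eq : ∀ X : RV S, H (S := S') (fun k => (X k).comap (f k)) = H X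

/-- pull back of a partition -/
def Ext.rv (π : Ext S' S) (X : RV S) : RV S' := fun k => (X k).comap (π.f k)

/-- pull back of a function -/
def Ext.fn (π : Ext S' S) {α : ℕ → Type} (g : ∀ k, S.Ω k → α k) : ∀ k, S'.Ω k → α k :=
  fun k ω => g k (π.f k ω)

/-- identity -/
def Ext.refl (S : Sys F) : Ext S S := ⟨fun _ ω => ω, fun _ => rfl⟩

/-- composition -/
def Ext.comp (ρ : Ext S'' S') (π : Ext S' S) : Ext S'' S :=
  ⟨fun k ω => π.f k (ρ.f k ω), fun X => (ρ.H_eq (π.rv X)).trans (π.H_eq X)⟩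

@[simp] theorem Ext.H_rv (π : Ext S' S) (X : RV S) : H (π.rv X) = H X := π.H_eq X
@[simp] theorem Ext.rv_inf (π : Ext S' S) (X Y : RV S) : π.rv (X ⊓ Y) = π.rv X ⊓ π.rv Y := rfl
@[simp] theorem Ext.rv_top (π : Ext S' S) : π.rv ⊤ = ⊤ := rfl
@[simp] theorem Ext.rv_rv (π : Ext S' S) {α : ℕ → Type} (g : ∀ k, S.Ω k → α k) :
    π.rv (TF.rv g) = TF.rv (π.fn g) := rfl
@[simp] theorem Ext.fn_fl (π : Ext S' S) (s : Lb S) : π.fn (fl s) = fl (π.fn s) := rfl
@[simp] theorem Ext.fn_pP (π : Ext S' S) (s : Lb S) (d : Pt S) :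
    π.fn (pP s d) = pP (π.fn s) (π.fn d) := rfl
@[simp] theorem Ext.fn_qP (π : Ext S' S) (s : Lb S) (d : Pt S) :
    π.fn (qP s d) = qP (π.fn s) (π.fn d) := rfl
@[simp] theorem Ext.fn_add (π : Ext S' S) (x y : Pt S) : π.fn (x + y) = π.fn x + π.fn y := rfl
@[simp] theorem Ext.fn_sub (π : Ext S' S) (x y : Pt S) : π.fn (x - y) = π.fn x - π.fn y := rfl
@[simp] theorem Ext.comp_rv (ρ : Ext S'' S') (π : Ext S' S) (X : RV S) :
    (ρ.comp π).rv X = ρ.rv (π.rv X) := rfl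
@[simp] theorem Ext.comp_fn (ρ : Ext S'' S') (π : Ext S' S) {α : ℕ → Type}
    (g : ∀ k, S.Ω k → α k) : (ρ.comp π).fn g = ρ.fn (π.fn g) := rfl
@[simp] theorem Ext.refl_rv (X : RV S) : (Ext.refl S).rv X = X := rfl
@[simp] theorem Ext.refl_fn {α : ℕ → Type} (g : ∀ k, S.Ω k → α k) : (Ext.refl S).fn g = g := rfl
theorem Ext.mono (π : Ext S' S) {X Y : RV S} (h : X ≤ Y) : π.rv X ≤ π.rv Y :=
  fun k _ _ hxy => h k hxy
theorem In.pull {s : Lb S} {d : Pt S} (h : In s d) (π : Ext S' S) : In (π.fn s) (π.fn d) :=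
  fun k ω => h k (π.f k ω)
theorem Mem.pull {s : Lb S} {x : Pt S} (h : Mem x s) (π : Ext S' S) : Mem (π.fn x) (π.fn s) :=
  fun k ω => h k (π.f k ω)

/-- joint variable of the second components along a list of labels -/
noncomputable def cq (d : Pt S) (l : List (Lb S)) : RV S :=
  l.foldr (fun s c => rv (qP s d) ⊓ c) ⊤

/-- joint variable of a list of labels -/
def lab (l : List (Lb S)) : RV S := l.foldr (fun s c => rv s ⊓ c) ⊤

@[simp] theorem cq_nil (d : Pt S) : cq d [] = ⊤ := rfl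
@[simp] theorem cq_cons (d : Pt S) (s : Lb S) (l : List (Lb S)) :
    cq d (s :: l) = rv (qP s d) ⊓ cq d l := rfl
@[simp] theorem lab_nil : lab ([] : List (Lb S)) = ⊤ := rfl
@[simp] theorem lab_cons (s : Lb S) (l : List (Lb S)) : lab (s :: l) = rv s ⊓ lab l := rfl

/-- the two components along `u` are independent given `Θ` -/
def Addi (Λ : RV S) (d : Pt S) (Θ : RV S) (u : Lb S) : Prop :=
  H (Θ ⊓ rv (pP u d)) + H (Θ ⊓ rv (qP u d)) ≤ H (Λ ⊓ rv d) + H Θ

/-- free system in the context `Λ` -/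
structure Free (Λ : RV S) (d : Pt S) (l : List (Lb S)) : Prop where
  inc : ∀ s ∈ l, In s d
  le : ∀ s ∈ l, Λ ≤ rv s
  pt : H Λ + 2 ≤ H (Λ ⊓ rv d)
  one : ∀ s ∈ l, 1 ≤ H (rv s)
  two : l.Pairwise fun s u => 2 ≤ H (rv s ⊓ rv u)

/-- `W` and `d` are independent given `U, c, t` and the second component along `t` -/
def Meas (U c W : RV S) (d : Pt S) (t : Lb S) : Prop :=
  H (U ⊓ c ⊓ rv t ⊓ rv (qP t d) ⊓ W) + H (U ⊓ rv t ⊓ rv d) ≤
    H (U ⊓ rv t ⊓ rv d ⊓ W) + H (U ⊓ c ⊓ rv t ⊓ rv (qP t d))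

/-- three free labels -/
structure Fr3 (t a b : Lb S) (d : Pt S) : Prop where
  lab : 3 ≤ H (rv t ⊓ rv a ⊓ rv b)
  it : In t d
  ia : In a d
  ib : In b d
  pt : 5 ≤ H (rv t ⊓ rv a ⊓ rv b ⊓ rv d)

/-- entropy of the labels and of the three second components; the atom has size `5 - co` -/
noncomputable def co (t a b : Lb S) (d : Pt S) : ℝ :=
  H (rv t ⊓ rv a ⊓ rv b ⊓ rv (qP t d) ⊓ rv (qP a d) ⊓ rv (qP b d))

/-- three independent points of one atom -/
structure Valid (t a b : Lb S) (d0 d1 d2 : Pt S) : Prop where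
  f0 : Fr3 t a b d0
  f1 : Fr3 t a b d1
  f2 : Fr3 t a b d2
  t1 : qP t d1 = qP t d0
  t2 : qP t d2 = qP t d0
  a1 : qP a d1 = qP a d0
  a2 : qP a d2 = qP a d0
  b1 : qP b d1 = qP b d0
  b2 : qP b d2 = qP b d0
  full : 15 ≤ H (rv t ⊓ rv a ⊓ rv b ⊓ rv d0 ⊓ rv d1 ⊓ rv d2) + 2 * co t a b d0

end Pool.Agent.P.MP_e72dc0_lc.TF
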