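import Pool.Agent.P.MP_e72dc0_lc.TF.Base

namespace Pool.Agent.P.MP_e72dc0_lc.TF

open Pool.Agent.P.MP_db4732_co.Ent Filter Topology

variable {F : Fam} {S S' : Sys F}

theorem grp_pp {k : ℕ} {s : F.Lab k} {d : F.G k}
    (h : ∃ x ∈ F.P k s, d - x ∈ F.P k (F.fl k s)) :
    F.pp k s d ∈ F.P k s ∧ d - F.pp k s d ∈ F.P k (F.fl k s) := by
  unfold Fam.pp
  rw [dif_pos h]
  exact h.choose_spec

theorem grp_pp_eq {k : ℕ} {s : F.Lab k} {x y : F.G k} (hx : x ∈ F.P k s)
    (hy : y ∈ F.P k (F.fl k s)) : F.pp k s (x + y) = x := by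
  have h := grp_pp (d := x + y) ⟨x, hx, by rwa [add_sub_cancel_left]⟩
  exact F.direct k s _ h.1 _ hx _ h.2 _ hy (by abel)

theorem grp_H_log {α : ℕ → Type} (V : RV S) (x : ∀ k, S.Ω k → α k) (c : ℝ) (hc : 0 ≤ c)
    (h : ∀ k ω1, ∃ T : Finset (α k), Real.log T.card ≤ (c + F.η k) * F.L k ∧
      ∀ ω, V k ω ω1 → x k ω ∈ T) :
    H (V ⊓ rv x) ≤ H V + c := by
  have h0 : ∀ k, 0 < ⌊Real.exp ((c + F.η k) * F.L k)⌋₊ := fun k =>
    Nat.floor_pos.2 (Real.one_le_exp (mul_nonneg (add_nonneg hc (F.η_nonneg k)) (F.L_pos k).le))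
  refine H_card V x (fun k => ⌊Real.exp ((c + F.η k) * F.L k)⌋₊) c 0 h0 (fun k => ?_)
    fun k ω1 => ?_
  · rw [add_zero, Real.log_le_iff_le_exp (by exact_mod_cast h0 k)]
    exact Nat.floor_le (Real.exp_pos _).le
  · obtain ⟨T, h1, h2⟩ := h k ω1
    refine ⟨T, ?_, h2⟩
    rcases Nat.eq_zero_or_pos T.card with h3 | h3
    · rw [h3]; exact Nat.zero_le _
    · exact Nat.le_floor ((Real.log_le_iff_le_exp (by exact_mod_cast h3)).1 h1)

@[simp] theorem fl_fl (s : Lb S) : fl (fl s) = s := by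
  funext k ω
  exact F.fl_fl k _

@[simp] theorem pP_fl (s : Lb S) (d : Pt S) : pP (fl s) d = qP s d := rfl

@[simp] theorem qP_fl (s : Lb S) (d : Pt S) : qP (fl s) d = pP s d := by
  unfold qP; rw [fl_fl]

@[simp] theorem rv_fl (s : Lb S) : rv (fl s) = rv s := by
  funext k
  ext a b
  change F.fl k (s k a) = F.fl k (s k b) ↔ s k a = s k b
  refine ⟨fun h => ?_, fun h => by rw [h]⟩
  rw [← F.fl_fl k (s k a), h, F.fl_fl]

theorem In.flip {s : Lb S} {d : Pt S} (h : In s d) : In (fl s) d := by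
  intro k ω
  obtain ⟨x, h1, h2⟩ := h k ω
  refine ⟨_, h2, ?_⟩
  change _ ∈ F.P k (F.fl k (F.fl k (s k ω)))
  rwa [F.fl_fl, sub_sub_cancel]

theorem In.memP {s : Lb S} {d : Pt S} (h : In s d) : Mem (pP s d) s := by
  exact fun k ω => (grp_pp (h k ω)).1

theorem In.memQ {s : Lb S} {d : Pt S} (h : In s d) : Mem (qP s d) (fl s) := by
  exact h.flip.memP

theorem In.add {s : Lb S} {d : Pt S} (h : In s d) : pP s d + qP s d = d := by
  funext k ω
  have h1 := grp_pp (h k ω)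
  have h2 : F.pp k (F.fl k (s k ω)) (d k ω - F.pp k (s k ω) (d k ω) + F.pp k (s k ω) (d k ω)) =
      d k ω - F.pp k (s k ω) (d k ω) := grp_pp_eq h1.2 (by rw [F.fl_fl]; exact h1.1)
  rw [sub_add_cancel] at h2
  change F.pp k (s k ω) (d k ω) + F.pp k (F.fl k (s k ω)) (d k ω) = d k ω
  rw [h2]; abel

theorem of_mem {s : Lb S} {x y : Pt S} (hx : Mem x s) (hy : Mem y (fl s)) :
    In s (x + y) ∧ pP s (x + y) = x ∧ qP s (x + y) = y := by
  refine ⟨fun k ω => ⟨x k ω, hx k ω, ?_⟩, ?_, ?_⟩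
  · change x k ω + y k ω - x k ω ∈ _
    rw [add_sub_cancel_left]
    exact hy k ω
  · funext k ω
    exact grp_pp_eq (hx k ω) (hy k ω)
  · funext k ω
    change F.pp k (F.fl k (s k ω)) (x k ω + y k ω) = y k ω
    rw [add_comm]
    exact grp_pp_eq (hy k ω) (by rw [F.fl_fl]; exact hx k ω)

theorem le_pP (s : Lb S) (d : Pt S) : rv s ⊓ rv d ≤ rv (pP s d) := by
  intro k a b h
  have h1 : s k a = s k b := h.1
  have h2 : d k a = d k b := h.2
  change F.pp k (s k a) (d k a) = F.pp k (s k b) (d k b)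
  rw [h1, h2]

theorem le_qP (s : Lb S) (d : Pt S) : rv s ⊓ rv d ≤ rv (qP s d) := by
  have := le_pP (fl s) d
  rwa [rv_fl] at this

theorem le_add (x y : Pt S) : rv x ⊓ rv y ≤ rv (x + y) := by
  intro k a b h
  have h1 : x k a = x k b := h.1
  have h2 : y k a = y k b := h.2
  change x k a + y k a = x k b + y k b
  rw [h1, h2]

theorem le_sub (x y : Pt S) : rv x ⊓ rv y ≤ rv (x - y) := by
  intro k a b h
  have h1 : x k a = x k b := h.1
  have h2 : y k a = y k b := h.2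
  change x k a - y k a = x k b - y k b
  rw [h1, h2]

/-- `z` is a function of `x` and `y` when it is their sum -/
theorem le_of_add {x y z : Pt S} (h : z = x + y) : rv x ⊓ rv y ≤ rv z := h ▸ le_add x y

theorem le_of_sub {x y z : Pt S} (h : z = x - y) : rv x ⊓ rv y ≤ rv z := h ▸ le_sub x y

theorem In.le_pq {s : Lb S} {d : Pt S} (h : In s d) : rv (pP s d) ⊓ rv (qP s d) ≤ rv d :=
  le_of_add h.add.symm

/-- (I1) -/
theorem In.le_diff {s : Lb S} {d : Pt S} (h : In s d) :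
    rv s ⊓ rv (pP s d - qP s d) ≤ rv d := by
  intro k a b hab
  have h1 : s k a = s k b := hab.1
  have h2 : pP s d k a - qP s d k a = pP s d k b - qP s d k b := hab.2
  have pa := h.memP k a
  have pb := h.memP k b
  have qa : qP s d k a ∈ F.P k (F.fl k (s k a)) := h.memQ k a
  have qb : qP s d k b ∈ F.P k (F.fl k (s k b)) := h.memQ k b
  rw [h1] at pa qa
  have e1 : pP s d k a = pP s d k b :=
    F.direct k _ _ pa _ pb _ qb _ qa (sub_eq_sub_iff_add_eq_add.1 h2)
  have e2 : qP s d k a = qP s d k b := by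
    rw [e1] at h2
    exact sub_right_injective h2
  have ea : pP s d k a + qP s d k a = d k a := congrFun (congrFun h.add k) a
  have eb : pP s d k b + qP s d k b = d k b := congrFun (congrFun h.add k) b
  change d k a = d k b
  rw [← ea, ← eb, e1, e2]

theorem H_pt (V : RV S) (d : Pt S) : H (V ⊓ rv d) ≤ H V + 2 := by
  exact grp_H_log V d 2 (by norm_num) fun k _ =>
    ⟨Finset.univ, F.cardG k, fun _ _ => Finset.mem_univ _⟩

theorem H_lb (V : RV S) (s : Lb S) : H (V ⊓ rv s) ≤ H V + 1 := by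
  exact grp_H_log V s 1 (by norm_num) fun k _ =>
    ⟨Finset.univ, F.cardLab k, fun _ _ => Finset.mem_univ _⟩

theorem H_mem {V : RV S} {x : Pt S} {s : Lb S} (hx : Mem x s) (hV : V ≤ rv s) :
    H (V ⊓ rv x) ≤ H V + 1 := by
  refine grp_H_log V x 1 (by norm_num) fun k ω1 => ⟨F.P k (s k ω1), F.cardP k _, fun ω h => ?_⟩
  have h1 : s k ω = s k ω1 := hV k h
  rw [← h1]
  exact hx k ω

/-- (I2) -/
theorem H_det {V : RV S} {d : Pt S} {s r : Lb S} (hs : In s d) (hr : In r d) (h1 : V ≤ rv s)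
    (h2 : V ≤ rv (pP s d - pP r d)) : H (V ⊓ rv r) ≤ H V := by
  classical
  have key := H_card V r (fun _ => 2) 0 (Real.log 2) (fun _ => by norm_num) (fun k => by
    have := mul_nonneg (F.η_nonneg k) (F.L_pos k).le
    push_cast
    linarith) fun k ω1 => ⟨Finset.univ.filter fun l => ∃ ω, V k ω ω1 ∧ r k ω = l, ?_,
      fun ω h => Finset.mem_filter.2 ⟨Finset.mem_univ _, ω, h, rfl⟩⟩
  · rwa [add_zero] at key
  · refine (Finset.card_le_card_of_injOn (t := (Finset.univ : Finset Bool)) (F.sg k)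
      (fun _ _ => Finset.mem_coe.2 (Finset.mem_univ _)) ?_).trans (by simp)
    intro l hl l' hl' hsg
    obtain ⟨a, ha, rfl⟩ := (Finset.mem_filter.1 (Finset.mem_coe.1 hl)).2
    obtain ⟨b, hb, rfl⟩ := (Finset.mem_filter.1 (Finset.mem_coe.1 hl')).2
    have hab : V k a b := (V k).trans' ha ((V k).symm' hb)
    have e1 : s k a = s k b := h1 k hab
    have e2 : pP s d k a - pP r d k a = pP s d k b - pP r d k b := h2 k hab
    have pa := hs.memP k a
    have qa : qP s d k a ∈ F.P k (F.fl k (s k a)) := hs.memQ k a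
    rw [e1] at pa qa
    have sa : pP s d k a + qP s d k a = d k a := congrFun (congrFun hs.add k) a
    have sb : pP s d k b + qP s d k b = d k b := congrFun (congrFun hs.add k) b
    have ra : pP r d k a + qP r d k a = d k a := congrFun (congrFun hr.add k) a
    have rb : pP r d k b + qP r d k b = d k b := congrFun (congrFun hr.add k) b
    exact F.det k (s k b) _ _ hsg _ pa _ qa _ (hs.memP k b) _ (hs.memQ k b) _ (hr.memP k a) _
      (hr.memQ k a) _ (hr.memP k b) _ (hr.memQ k b) (sa.trans ra.symm) (sb.trans rb.symm) e2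

end Pool.Agent.P.MP_e72dc0_lc.TF
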