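import Pool.Agent.P.MP_e72dc0_lc.TF.Copy
import Pool.Agent.P.MP_e72dc0_lc.TF.Grp

namespace Pool.Agent.P.MP_e72dc0_lc.TF

open Pool.Agent.P.MP_db4732_co.Ent Filter Topology

variable {F : Fam} {S S' : Sys F}

theorem LemA_xi {s r : Lb S} {e : Pt S} (hs : In s e) (hr : In r e) :
    pP s e - qP r e = pP r e - qP s e := by
  rw [sub_eq_sub_iff_add_eq_add, hs.add, hr.add]

theorem LemA_sub (Λ : RV S) {s r : Lb S} {d e ξ : Pt S} (hs : In s e) (hr : In r e)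
    (qs : qP s d = qP s e) (qr : qP r d = qP r e) (h1 : Λ ≤ rv s) (h2 : Λ ≤ rv r)
    (hξ : ξ = pP s e - qP r e) :
    H (Λ ⊓ rv d ⊓ rv e) - H (Λ ⊓ rv d) + H (Λ ⊓ rv ξ ⊓ rv (pP s e)) - H (Λ ⊓ rv ξ) ≤ 1 := by
  obtain ⟨S', π₁, π₂, e1, e2, ind⟩ := copy S (Λ ⊓ rv ξ)
  have hi := ind (Λ ⊓ rv ξ ⊓ rv d ⊓ rv e) (Λ ⊓ rv ξ ⊓ rv (pP s e)) (by order) (by order)
  have es : π₂.fn s = π₁.fn s := e2 _ s (by order)
  have er : π₂.fn r = π₁.fn r := e2 _ r (by order)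
  have eξ : π₂.fn ξ = π₁.fn ξ := e2 _ ξ (by order)
  have eΛ : π₂.rv Λ = π₁.rv Λ := e1 Λ (by order)
  simp only [Ext.rv_inf, Ext.rv_rv, Ext.fn_pP, es, eξ, eΛ] at hi
  have hΛd := π₁.H_rv (Λ ⊓ rv d)
  simp only [Ext.rv_inf, Ext.rv_rv] at hΛd
  have a1 : π₁.rv Λ ≤ rv (π₁.fn s) := π₁.mono h1
  have a2 : π₁.rv Λ ≤ rv (π₁.fn r) := π₁.mono h2
  have hs1 := hs.pull π₁
  have hr1 := hr.pull π₁
  have hs2 := hs.pull π₂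
  have hr2 := hr.pull π₂
  rw [es] at hs2
  rw [er] at hr2
  have qs1 : qP (π₁.fn s) (π₁.fn d) = qP (π₁.fn s) (π₁.fn e) := congrArg π₁.fn qs
  have qr1 : qP (π₁.fn r) (π₁.fn d) = qP (π₁.fn r) (π₁.fn e) := congrArg π₁.fn qr
  have x1 : π₁.fn ξ = pP (π₁.fn s) (π₁.fn e) - qP (π₁.fn r) (π₁.fn e) := congrArg π₁.fn hξ
  have x2 : π₁.fn ξ = pP (π₁.fn s) (π₂.fn e) - qP (π₁.fn r) (π₂.fn e) := by
    have : π₂.fn ξ = pP (π₂.fn s) (π₂.fn e) - qP (π₂.fn r) (π₂.fn e) := congrArg π₂.fn hξ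
    rwa [eξ, es, er] at this
  have x3 := x1.trans (LemA_xi hs1 hr1)
  generalize π₁.fn s = s1 at *
  generalize π₁.fn r = r1 at *
  generalize π₁.fn d = d1 at *
  generalize π₁.fn e = e1' at *
  generalize π₂.fn e = e2' at *
  generalize π₁.fn ξ = ξ1 at *
  generalize π₁.rv Λ = Λ1 at *
  have hf : pP r1 e1' + qP r1 e2' = pP s1 e2' + qP s1 d1 := by
    rw [qs1]
    have := x2.symm.trans x3
    rw [sub_eq_sub_iff_add_eq_add] at this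
    exact this.symm
  have b1 := (of_mem hr1.memP hr2.memQ).2.1
  have b2 := le_pP r1 (pP r1 e1' + qP r1 e2')
  rw [b1] at b2
  have b3 := le_of_add hf
  have b4 := le_qP s1 d1
  have b5 := le_qP r1 d1
  have b5' : rv (qP r1 d1) = rv (qP r1 e1') := by rw [qr1]
  have b6 := hr1.le_pq
  have b7 := le_of_sub x1
  have b8 := le_pP s1 e1'
  have c1 := H_mem (V := Λ1 ⊓ rv d1) hs2.memP (by order)
  have c2 : H (Λ1 ⊓ rv ξ1 ⊓ rv d1 ⊓ rv e1' ⊓ (Λ1 ⊓ rv ξ1 ⊓ rv (pP s1 e2'))) ≤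
      H (Λ1 ⊓ rv d1 ⊓ rv (pP s1 e2')) := H_mono (by order)
  have c3 : H (Λ ⊓ rv d ⊓ rv e) ≤ H (Λ ⊓ rv ξ ⊓ rv d ⊓ rv e) := H_mono (by order)
  linarith

theorem lemA (V : RV S) {s r : Lb S} {d e : Pt S} (hs : In s e) (hr : In r e)
    (qs : qP s d = qP s e) (qr : qP r d = qP r e) :
    H (V ⊓ rv s ⊓ rv r ⊓ rv e) +
      2 * (H (V ⊓ rv s ⊓ rv r ⊓ rv d ⊓ rv e) - H (V ⊓ rv s ⊓ rv r ⊓ rv d)) ≤ H V + 5 := by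
  have h1 := LemA_sub (V ⊓ rv s ⊓ rv r) hs hr qs qr (by order) (by order) rfl
  have h2 := LemA_sub (V ⊓ rv s ⊓ rv r) hr hs qr qs (by order) (by order) (LemA_xi hs hr)
  have h3 := H_det (V := V ⊓ rv s ⊓ rv (pP s e - qP r e)) hs hr.flip (by order) inf_le_right
  rw [rv_fl] at h3
  have h4 := H_pt (V ⊓ rv s) (pP s e - qP r e)
  have h5 := H_lb V s
  have h6 : H (V ⊓ rv s ⊓ rv r ⊓ rv (pP s e - qP r e)) =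
      H (V ⊓ rv s ⊓ rv (pP s e - qP r e) ⊓ rv r) := H_congr (by order) (by order)
  have b1 := hr.le_pq
  have b2 : rv (pP s e) ⊓ rv (pP s e - qP r e) ≤ rv (qP r e) :=
    le_of_sub (sub_sub_cancel _ _).symm
  have h7 := H_sub (V ⊓ rv s ⊓ rv r ⊓ rv (pP s e - qP r e) ⊓ rv (pP s e))
    (V ⊓ rv s ⊓ rv r ⊓ rv (pP s e - qP r e) ⊓ rv (pP r e))
    (V ⊓ rv s ⊓ rv r ⊓ rv (pP s e - qP r e)) (V ⊓ rv s ⊓ rv r ⊓ rv e)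
    (by order) (by order) (by order)
  linarith

theorem LemA_four (V : RV S) (s r : Lb S) (d : Pt S) :
    H (V ⊓ rv s ⊓ rv r ⊓ rv d) ≤ H V + 4 := by
  have h1 := H_pt (V ⊓ rv s ⊓ rv r) d
  have h2 := H_lb (V ⊓ rv s) r
  have h3 := H_lb V s
  linarith

theorem twoPt (V : RV S) {s : Lb S} {d e : Pt S} (hd : In s d) (he : In s e)
    (q : qP s e = qP s d) :
    2 * H (V ⊓ rv d ⊓ rv e ⊓ rv s) - H (V ⊓ rv d ⊓ rv e) ≤ H V + 9 / 2 := by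
  obtain ⟨S', π₁, π₂, e1, e2, ind⟩ := copy S (V ⊓ rv d ⊓ rv e)
  have hi := ind (V ⊓ rv d ⊓ rv e ⊓ rv s) (V ⊓ rv d ⊓ rv e ⊓ rv s) (by order) (by order)
  have ed : π₂.fn d = π₁.fn d := e2 _ d (by order)
  have ee : π₂.fn e = π₁.fn e := e2 _ e (by order)
  have eV : π₂.rv V = π₁.rv V := e1 V (by order)
  simp only [Ext.rv_inf, Ext.rv_rv, ed, ee, eV] at hi
  have hV := π₁.H_rv V
  have hd1 := hd.pull π₁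
  have he1 := he.pull π₁
  have hd2 := hd.pull π₂
  have he2 := he.pull π₂
  have q1 : qP (π₁.fn s) (π₁.fn e) = qP (π₁.fn s) (π₁.fn d) := congrArg π₁.fn q
  have q2 : qP (π₂.fn s) (π₂.fn e) = qP (π₂.fn s) (π₂.fn d) := congrArg π₂.fn q
  rw [ed] at hd2 q2
  rw [ee] at he2 q2
  generalize π₁.fn s = s1 at *
  generalize π₂.fn s = r1 at *
  generalize π₁.fn d = d1 at *
  generalize π₁.fn e = e1' at *
  generalize π₁.rv V = V1 at *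
  have a1 := lemA V1 he1 he2 q1.symm q2.symm
  have a2 := lemA V1 hd1 hd2 q1 q2
  have a3 := LemA_four V1 s1 r1 d1
  have a4 := LemA_four V1 s1 r1 e1'
  have c1 : H (V1 ⊓ rv s1 ⊓ rv r1 ⊓ rv e1' ⊓ rv d1) = H (V1 ⊓ rv s1 ⊓ rv r1 ⊓ rv d1 ⊓ rv e1') :=
    H_congr (by order) (by order)
  have c2 : H (V1 ⊓ rv d1 ⊓ rv e1' ⊓ rv s1 ⊓ (V1 ⊓ rv d1 ⊓ rv e1' ⊓ rv r1)) =
      H (V1 ⊓ rv s1 ⊓ rv r1 ⊓ rv d1 ⊓ rv e1') := H_congr (by order) (by order)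
  linarith

theorem LemA_centre (V : RV S) {s r : Lb S} {d0 d1 d2 : Pt S} (s1 : In s d1) (s2 : In s d2)
    (r1 : In r d1) (r2 : In r d2) (a1 : qP s d0 = qP s d1) (a2 : qP s d0 = qP s d2)
    (b1 : qP r d0 = qP r d1) (b2 : qP r d0 = qP r d2) (X : RV S)
    (hX : V ⊓ rv s ⊓ rv r ⊓ rv d0 ⊓ rv d1 ⊓ rv d2 ≤ X) :
    2 * H X + H (V ⊓ rv s ⊓ rv r ⊓ rv d1) + H (V ⊓ rv s ⊓ rv r ⊓ rv d2) ≤
      2 * H (V ⊓ rv s ⊓ rv r ⊓ rv d0) + 2 * (H V + 5) := by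
  have h1 := lemA V s1 r1 a1 b1
  have h2 := lemA V s2 r2 a2 b2
  have h3 := H_sub (V ⊓ rv s ⊓ rv r ⊓ rv d0 ⊓ rv d1) (V ⊓ rv s ⊓ rv r ⊓ rv d0 ⊓ rv d2)
    (V ⊓ rv s ⊓ rv r ⊓ rv d0) X (by order) (by order) (by order)
  linarith

theorem threePt (V : RV S) {s : Lb S} {d0 d1 d2 : Pt S} (h0 : In s d0) (h1 : In s d1)
    (h2 : In s d2) (q1 : qP s d1 = qP s d0) (q2 : qP s d2 = qP s d0) :
    2 * H (V ⊓ rv d0 ⊓ rv d1 ⊓ rv d2 ⊓ rv s) - H (V ⊓ rv d0 ⊓ rv d1 ⊓ rv d2) ≤ H V + 5 := by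
  obtain ⟨S', π₁, π₂, e1, e2, ind⟩ := copy S (V ⊓ rv d0 ⊓ rv d1 ⊓ rv d2)
  have hi := ind (V ⊓ rv d0 ⊓ rv d1 ⊓ rv d2 ⊓ rv s) (V ⊓ rv d0 ⊓ rv d1 ⊓ rv d2 ⊓ rv s)
    (by order) (by order)
  have ed0 : π₂.fn d0 = π₁.fn d0 := e2 _ d0 (by order)
  have ed1 : π₂.fn d1 = π₁.fn d1 := e2 _ d1 (by order)
  have ed2 : π₂.fn d2 = π₁.fn d2 := e2 _ d2 (by order)
  have eV : π₂.rv V = π₁.rv V := e1 V (by order)
  simp only [Ext.rv_inf, Ext.rv_rv, ed0, ed1, ed2, eV] at hi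
  have hV := π₁.H_rv V
  have a0 := h0.pull π₁
  have a1 := h1.pull π₁
  have a2 := h2.pull π₁
  have b0 := h0.pull π₂
  have b1 := h1.pull π₂
  have b2 := h2.pull π₂
  have p1 : qP (π₁.fn s) (π₁.fn d1) = qP (π₁.fn s) (π₁.fn d0) := congrArg π₁.fn q1
  have p2 : qP (π₁.fn s) (π₁.fn d2) = qP (π₁.fn s) (π₁.fn d0) := congrArg π₁.fn q2
  have r1 : qP (π₂.fn s) (π₂.fn d1) = qP (π₂.fn s) (π₂.fn d0) := congrArg π₂.fn q1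
  have r2 : qP (π₂.fn s) (π₂.fn d2) = qP (π₂.fn s) (π₂.fn d0) := congrArg π₂.fn q2
  rw [ed0] at b0 r1 r2
  rw [ed1] at b1 r1
  rw [ed2] at b2 r2
  generalize π₁.fn s = s' at *
  generalize π₂.fn s = r' at *
  generalize π₁.fn d0 = x0 at *
  generalize π₁.fn d1 = x1 at *
  generalize π₁.fn d2 = x2 at *
  generalize π₁.rv V = V1 at *
  have c0 := LemA_centre V1 a1 a2 b1 b2 p1.symm p2.symm r1.symm r2.symm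
    (V1 ⊓ rv x0 ⊓ rv x1 ⊓ rv x2 ⊓ rv s' ⊓ (V1 ⊓ rv x0 ⊓ rv x1 ⊓ rv x2 ⊓ rv r')) (by order)
  have c1 := LemA_centre V1 a0 a2 b0 b2 p1 (p1.trans p2.symm) r1 (r1.trans r2.symm)
    (V1 ⊓ rv x0 ⊓ rv x1 ⊓ rv x2 ⊓ rv s' ⊓ (V1 ⊓ rv x0 ⊓ rv x1 ⊓ rv x2 ⊓ rv r')) (by order)
  have c2 := LemA_centre V1 a0 a1 b0 b1 p2 (p2.trans p1.symm) r2 (r2.trans r1.symm)
    (V1 ⊓ rv x0 ⊓ rv x1 ⊓ rv x2 ⊓ rv s' ⊓ (V1 ⊓ rv x0 ⊓ rv x1 ⊓ rv x2 ⊓ rv r')) (by order)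
  linarith

end Pool.Agent.P.MP_e72dc0_lc.TF
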