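import Pool.Agent.P.MP_e72dc0_lc.TF.Tri2
import Pool.Agent.P.MP_e72dc0_lc.TF.LemA

namespace Pool.Agent.P.MP_e72dc0_lc.TF

open Pool.Agent.P.MP_db4732_co.Ent Filter Topology

variable {F : Fam} {S S' : Sys F}

/-- a copy of `e` over the labels, `q_t`, `q_a` and `p_b` -/
theorem lemB_ext {t a b : Lb S} {e : Pt S} (h : Fr3 t a b e) :
    ∃ (S' : Sys F) (π : Ext S' S) (D : Pt S'), Fr3 (π.fn t) (π.fn a) (π.fn b) D ∧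
      qP (π.fn t) D = π.fn (qP t e) ∧ qP (π.fn a) D = π.fn (qP a e) ∧
      pP (π.fn b) D = π.fn (pP b e) ∧
      ∀ X : RV S, X ≤ rv t ⊓ rv a ⊓ rv b ⊓ rv e →
        H (π.rv X ⊓ rv D) = H X + co t a b e - 9 / 2 := by
  obtain ⟨S', π₁, π₂, e1, e2, ind⟩ :=
    copy S (rv t ⊓ rv a ⊓ rv b ⊓ rv (qP t e) ⊓ rv (qP a e) ⊓ rv (pP b e))
  have et : π₂.fn t = π₁.fn t := e2 _ t (by order)
  have ea : π₂.fn a = π₁.fn a := e2 _ a (by order)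
  have eb : π₂.fn b = π₁.fn b := e2 _ b (by order)
  refine ⟨S', π₁, π₂.fn e, ?_, ?_, ?_, ?_, fun X hX => ?_⟩
  · have := h.pull π₂
    rwa [et, ea, eb] at this
  · rw [← et, ← Ext.fn_qP]
    exact e2 _ _ (by order)
  · rw [← ea, ← Ext.fn_qP]
    exact e2 _ _ (by order)
  · rw [← eb, ← Ext.fn_pP]
    exact e2 _ _ (by order)
  · have q1 := le_qP t e
    have q2 := le_qP a e
    have q3 := le_pP b e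
    have h1 := ind X (rv t ⊓ rv a ⊓ rv b ⊓ rv e) (by order) (by order)
    have h2 := h.co_add
    have h3 : co t a (fl b) e =
        H (rv t ⊓ rv a ⊓ rv b ⊓ rv (qP t e) ⊓ rv (qP a e) ⊓ rv (pP b e)) := by
      simp only [co, rv_fl, qP_fl]
    have h4 := π₁.mono (X := X) (Y := rv t ⊓ rv a ⊓ rv b) (by order)
    rw [Ext.rv_inf, e1 (rv t ⊓ rv a ⊓ rv b) (by order), h.H3d, ← inf_assoc, inf_eq_left.2 h4,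
      Ext.rv_rv] at h1
    linarith

theorem lemB_half {t a b : Lb S} {d D : Pt S} (h0 : Fr3 t a b d) (h1 : Fr3 t a b D)
    (qt : qP t D = qP t d) (qa : qP a D = qP a d) :
    H (rv t ⊓ rv a ⊓ rv d ⊓ rv D) ≤ 9 / 2 := by
  have p := pair h1.swap23.swap12.free2
  have p0 := h0.swap23.swap12.H2d
  have q1 := le_qP t D
  have q2 := le_qP a D
  have q3 := le_qP t d
  have q4 := le_qP a d
  rw [← qt] at q3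
  rw [← qa] at q4
  have := H_sub (rv t ⊓ rv a ⊓ rv d) (rv t ⊓ rv a ⊓ rv D)
    (rv t ⊓ rv a ⊓ rv (qP t D) ⊓ rv (qP a D)) (rv t ⊓ rv a ⊓ rv d ⊓ rv D)
    (by order) (by order) (by order)
  linarith

theorem lemB_side {t a : Lb S} {d D : Pt S} (h0 : In a d) (h1 : In a D)
    (qa : qP a D = qP a d) (h : 9 / 2 ≤ H (rv t ⊓ rv a ⊓ rv d ⊓ rv D)) :
    H (rv d ⊓ rv D ⊓ rv a) ≤ H (rv d ⊓ rv D ⊓ rv t) := by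
  have h2 := twoPt ⊤ h0 h1 qa
  rw [H_top, top_inf_eq] at h2
  have := H_sub (rv d ⊓ rv D ⊓ rv t) (rv d ⊓ rv D ⊓ rv a) (rv d ⊓ rv D)
    (rv t ⊓ rv a ⊓ rv d ⊓ rv D) (by order) (by order) (by order)
  linarith

theorem lemB_core {t a b : Lb S} {d0 d1 d2 D1 D2 : Pt S} (f0 : Fr3 t a b d0) (f1 : Fr3 t a b D1)
    (f2 : Fr3 t a b D2) (t1 : qP t D1 = qP t d0) (a1 : qP a D1 = qP a d0)
    (t2 : qP t D2 = qP t d0) (b2 : qP b D2 = qP b d0) (l1 : rv b ⊓ rv D1 ⊓ rv d0 ≤ rv d1)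
    (l2 : rv a ⊓ rv D2 ⊓ rv d0 ≤ rv d2)
    (full : 6 ≤ H (rv t ⊓ rv a ⊓ rv b ⊓ rv d0 ⊓ rv D1 ⊓ rv D2)) :
    H (rv a ⊓ rv b ⊓ rv d0 ⊓ rv d1) + H (rv a ⊓ rv b ⊓ rv d0 ⊓ rv d2) ≤
      H (rv a ⊓ rv b ⊓ rv d0 ⊓ rv d1 ⊓ rv d2) + 4 := by
  have u1 := lemB_half f0 f1 t1 a1
  have u2 := lemB_half f0.swap23 f2.swap23 t2 b2
  have ht := f0.swap12.H1d
  have s0 := H_sub (rv t ⊓ rv a ⊓ rv d0 ⊓ rv D1) (rv t ⊓ rv b ⊓ rv d0 ⊓ rv D2) (rv t ⊓ rv d0)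
    (rv t ⊓ rv a ⊓ rv b ⊓ rv d0 ⊓ rv D1 ⊓ rv D2) (by order) (by order) (by order)
  have v1 := lemB_side (t := t) f0.ia f1.ia a1 (by linarith)
  have v2 := lemB_side (t := t) f0.ib f2.ib b2 (by linarith)
  have s1 := H_sub (rv t ⊓ rv a ⊓ rv d0 ⊓ rv D1) (rv t ⊓ rv b ⊓ rv d0 ⊓ rv D1 ⊓ rv D2)
    (rv d0 ⊓ rv D1 ⊓ rv t) (rv t ⊓ rv a ⊓ rv b ⊓ rv d0 ⊓ rv D1 ⊓ rv D2)
    (by order) (by order) (by order)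
  have s2 := H_sub (rv t ⊓ rv b ⊓ rv d0 ⊓ rv D2) (rv d0 ⊓ rv D1 ⊓ rv D2 ⊓ rv t)
    (rv d0 ⊓ rv D2 ⊓ rv t) (rv t ⊓ rv b ⊓ rv d0 ⊓ rv D1 ⊓ rv D2)
    (by order) (by order) (by order)
  have w := threePt ⊤ f0.it f1.it f2.it t1 t2
  rw [H_top, top_inf_eq] at w
  have s3 := H_sub (rv a ⊓ rv b ⊓ rv d0 ⊓ rv D1 ⊓ rv D2) (rv d0 ⊓ rv D1 ⊓ rv D2 ⊓ rv t)
    (rv d0 ⊓ rv D1 ⊓ rv D2) (rv t ⊓ rv a ⊓ rv b ⊓ rv d0 ⊓ rv D1 ⊓ rv D2)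
    (by order) (by order) (by order)
  have m1 := H_lb (rv d0 ⊓ rv D1 ⊓ rv a) b
  have m2 := H_lb (rv d0 ⊓ rv D2 ⊓ rv b) a
  have s4 := H_sub (rv d0 ⊓ rv D1 ⊓ rv a ⊓ rv b) (rv a ⊓ rv b ⊓ rv d0 ⊓ rv d1 ⊓ rv D2)
    (rv a ⊓ rv b ⊓ rv d0 ⊓ rv d1) (rv a ⊓ rv b ⊓ rv d0 ⊓ rv D1 ⊓ rv D2)
    (by order) (by order) (by order)
  have s5 := H_sub (rv d0 ⊓ rv D2 ⊓ rv b ⊓ rv a) (rv a ⊓ rv b ⊓ rv d0 ⊓ rv d1 ⊓ rv d2)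
    (rv a ⊓ rv b ⊓ rv d0 ⊓ rv d2) (rv a ⊓ rv b ⊓ rv d0 ⊓ rv d1 ⊓ rv D2)
    (by order) (by order) (by order)
  linarith

theorem lemB_rec {s : Lb S} {d0 d1 D : Pt S} (h : In s d1) (q : qP s d1 = qP s d0)
    (p : pP s D = pP s d1) : rv s ⊓ rv D ⊓ rv d0 ≤ rv d1 := by
  have h1 := h.le_pq
  have h2 := le_pP s D
  have h3 := le_qP s d0
  rw [q, ← p] at h1
  order

theorem lemB {t a b : Lb S} {d0 d1 d2 : Pt S} (h : Valid t a b d0 d1 d2) :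
    H (rv a ⊓ rv b ⊓ rv d0 ⊓ rv d1) + H (rv a ⊓ rv b ⊓ rv d0 ⊓ rv d2) ≤
      H (rv a ⊓ rv b ⊓ rv d0 ⊓ rv d1 ⊓ rv d2) + 4 := by
  obtain ⟨S1, π, D1, g1, x1, x2, x3, x4⟩ := lemB_ext h.f1
  have h' := h.pull π
  obtain ⟨S2, ρ, D2, g2, y1, y2, y3, y4⟩ := lemB_ext h'.f2.swap23
  have h'' := h'.pull ρ
  have z1 : qP (ρ.fn (π.fn t)) (ρ.fn D1) = qP (ρ.fn (π.fn t)) (ρ.fn (π.fn d0)) := by
    rw [← Ext.fn_qP, x1, h.t1]; rfl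
  have z2 : qP (ρ.fn (π.fn a)) (ρ.fn D1) = qP (ρ.fn (π.fn a)) (ρ.fn (π.fn d0)) := by
    rw [← Ext.fn_qP, x2, h.a1]; rfl
  have z3 : pP (ρ.fn (π.fn b)) (ρ.fn D1) = pP (ρ.fn (π.fn b)) (ρ.fn (π.fn d1)) := by
    rw [← Ext.fn_pP, x3]; rfl
  have z4 : qP (ρ.fn (π.fn t)) D2 = qP (ρ.fn (π.fn t)) (ρ.fn (π.fn d0)) := by
    rw [y1, h'.t2]; rfl
  have z5 : qP (ρ.fn (π.fn b)) D2 = qP (ρ.fn (π.fn b)) (ρ.fn (π.fn d0)) := by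
    rw [y2, h'.b2]; rfl
  have z6 : pP (ρ.fn (π.fn a)) D2 = pP (ρ.fn (π.fn a)) (ρ.fn (π.fn d2)) := by
    rw [y3]; rfl
  have l1 := lemB_rec h''.f1.ib h''.b1 z3
  have l2 := lemB_rec h''.f2.ia h''.a2 z6
  have k1 := x4 (rv t ⊓ rv a ⊓ rv b ⊓ rv d0 ⊓ rv d1 ⊓ rv d2) (by order)
  have k2 := y4 (π.rv (rv t ⊓ rv a ⊓ rv b ⊓ rv d0 ⊓ rv d1 ⊓ rv d2) ⊓ rv D1) (by
    simp only [Ext.rv_inf, Ext.rv_rv]; order)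
  rw [k1, h.H012, h.co1, co_pull, co_swap23 (t := t) (a := a) (b := b) (d := d2), h.co2] at k2
  simp only [Ext.rv_inf, Ext.rv_rv] at k2
  have full : 6 ≤ H (rv (ρ.fn (π.fn t)) ⊓ rv (ρ.fn (π.fn a)) ⊓ rv (ρ.fn (π.fn b)) ⊓
      rv (ρ.fn (π.fn d0)) ⊓ rv (ρ.fn D1) ⊓ rv D2) := by
    refine le_trans (by linarith) (k2.symm.le.trans (H_mono ?_))
    order
  have key := lemB_core h''.f0 (g1.pull ρ) g2.swap23 z1 z2 z4 z5 l1 l2 full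
  have r1 := (ρ.comp π).H_rv (rv a ⊓ rv b ⊓ rv d0 ⊓ rv d1)
  have r2 := (ρ.comp π).H_rv (rv a ⊓ rv b ⊓ rv d0 ⊓ rv d2)
  have r3 := (ρ.comp π).H_rv (rv a ⊓ rv b ⊓ rv d0 ⊓ rv d1 ⊓ rv d2)
  simp only [Ext.rv_inf, Ext.rv_rv, Ext.comp_fn] at r1 r2 r3
  linarith

end Pool.Agent.P.MP_e72dc0_lc.TF
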