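import Pool.Agent.P.MP_e72dc0_lc.TF.W3

namespace Pool.Agent.P.MP_e72dc0_lc.TF

open Pool.Agent.P.MP_db4732_co.Ent Filter Topology

variable {F : Fam} {S S' : Sys F}

theorem Ext.rv_cq (π : Ext S' S) (d : Pt S) (l : List (Lb S)) :
    π.rv (cq d l) = cq (π.fn d) (l.map fun s => π.fn s) := by
  induction l with
  | nil => rfl
  | cons s l ih => simp only [cq_cons, List.map_cons, Ext.rv_inf, Ext.rv_rv, Ext.fn_qP, ih]

theorem Free.pull {Λ : RV S} {d : Pt S} {l : List (Lb S)} (h : Free Λ d l) (π : Ext S' S) :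
    Free (π.rv Λ) (π.fn d) (l.map fun s => π.fn s) := by
  refine ⟨fun s hs => ?_, fun s hs => ?_, ?_, fun s hs => ?_, ?_⟩
  · obtain ⟨u, hu, rfl⟩ := List.mem_map.1 hs
    exact (h.inc u hu).pull π
  · obtain ⟨u, hu, rfl⟩ := List.mem_map.1 hs
    exact π.mono (h.le u hu)
  · have h1 := π.H_rv (Λ ⊓ rv d)
    simp only [Ext.rv_inf, Ext.rv_rv] at h1
    rw [h1, π.H_rv]
    exact h.pt
  · obtain ⟨u, hu, rfl⟩ := List.mem_map.1 hs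
    have h1 := π.H_rv (rv u)
    simp only [Ext.rv_rv] at h1
    rw [h1]
    exact h.one u hu
  · rw [List.pairwise_map]
    refine h.two.imp fun {s u} hsu => ?_
    have h1 := π.H_rv (rv s ⊓ rv u)
    simp only [Ext.rv_inf, Ext.rv_rv] at h1
    rw [h1]
    exact hsu

theorem wlem_le_cq {U : RV S} {d e : Pt S} {l : List (Lb S)} (h : ∀ s ∈ l, U ≤ rv s)
    (hU : ∀ s ∈ l, qP s e = qP s d) : U ⊓ rv e ≤ cq d l := by
  induction l with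
  | nil => exact le_top
  | cons s l ih =>
    rw [cq_cons]
    refine le_inf ?_ (ih (fun u hu => h u (List.mem_cons_of_mem _ hu))
      fun u hu => hU u (List.mem_cons_of_mem _ hu))
    rw [← hU s List.mem_cons_self]
    exact (inf_le_inf_right _ (h s List.mem_cons_self)).trans (le_qP s e)

theorem wlem {U W : RV S} {d e : Pt S} {t : Lb S} {lU : List (Lb S)} (hF : Free U d lU)
    (ht : In t d) (hq : qP t e = qP t d) (hU : ∀ s ∈ lU, qP s e = qP s d)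
    (hfree : H (U ⊓ rv d) + 1 ≤ H (U ⊓ rv d ⊓ rv t))
    (h1 : H (U ⊓ rv d ⊓ W) + H (U ⊓ rv d ⊓ rv e) ≤ H (U ⊓ rv d ⊓ rv e ⊓ W) + H (U ⊓ rv d))
    (h2 : H (U ⊓ rv e ⊓ W) + H (U ⊓ rv d ⊓ rv e) ≤ H (U ⊓ rv d ⊓ rv e ⊓ W) + H (U ⊓ rv e))
    (h3 : H (U ⊓ rv t ⊓ rv d) + H (U ⊓ rv t ⊓ rv e) ≤
      H (U ⊓ rv t ⊓ rv d ⊓ rv e) + H (U ⊓ cq d lU ⊓ rv t ⊓ rv (qP t d))) :
    H (U ⊓ cq d lU ⊓ W) + H (U ⊓ rv d) ≤ H (U ⊓ rv d ⊓ W) + H (U ⊓ cq d lU) := by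
  have cd : U ⊓ rv d ≤ cq d lU := wlem_le_cq hF.le fun _ _ => rfl
  have ce : U ⊓ rv e ≤ cq d lU := wlem_le_cq hF.le hU
  obtain ⟨S₁, π₁, t0, a1, a2, a3⟩ := w1 ht hq cd ce hfree h1 h2 h3
  have key : ∀ M : ℕ, (M : ℝ) *
      (H (U ⊓ cq d lU ⊓ W) + H (U ⊓ rv d) - H (U ⊓ rv d ⊓ W) - H (U ⊓ cq d lU)) ≤ 2 := by
    intro M
    have e1 := π₁.H_rv (U ⊓ rv d ⊓ W)
    obtain ⟨S₂, π₂, l, b1, b2, b3⟩ := w2 (U := π₁.rv U) (c := π₁.rv (cq d lU)) (W := π₁.rv W)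
      (d := π₁.fn d) (π₁.mono cd) a1 a2 (by rw [← e1] at a3; exact a3) M
    have hF' := hF.pull (π₂.comp π₁)
    have c1 := (π₂.comp π₁).rv_cq d lU
    have c2 := w3 (W := (π₂.comp π₁).rv W) (l := l) hF' (fun r hr => by
      rw [← c1]; exact b2 r hr) (by
      have e2 := π₂.H_rv (π₁.rv U ⊓ rv (π₁.fn d) ⊓ π₁.rv W)
      rw [← e2, ← b1] at b3
      exact b3)
    rw [← c1, b1] at c2
    have f1 := (π₂.comp π₁).H_rv (U ⊓ cq d lU ⊓ W)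
    have f2 := (π₂.comp π₁).H_rv (U ⊓ rv d)
    have f3 := (π₂.comp π₁).H_rv (U ⊓ rv d ⊓ W)
    have f4 := (π₂.comp π₁).H_rv (U ⊓ cq d lU)
    rw [← f1, ← f2, ← f3, ← f4]
    exact c2
  by_contra hn
  have hp : 0 < H (U ⊓ cq d lU ⊓ W) + H (U ⊓ rv d) - H (U ⊓ rv d ⊓ W) - H (U ⊓ cq d lU) := by
    linarith [not_le.1 hn]
  obtain ⟨M, hM⟩ := exists_nat_gt
    (2 / (H (U ⊓ cq d lU ⊓ W) + H (U ⊓ rv d) - H (U ⊓ rv d ⊓ W) - H (U ⊓ cq d lU)))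
  rw [div_lt_iff₀ hp] at hM
  linarith [key M]

end Pool.Agent.P.MP_e72dc0_lc.TF
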