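import Pool.Agent.P.MP_e72dc0_lc.TF.LemB
import Pool.Agent.P.MP_e72dc0_lc.TF.Wlem

namespace Pool.Agent.P.MP_e72dc0_lc.TF

open Pool.Agent.P.MP_db4732_co.Ent Filter Topology

variable {F : Fam} {S S' : Sys F}

section
variable {t a b : Lb S} {d0 d1 d2 e : Pt S}

theorem lemC (h : Valid t a b d0 d1 d2) : H (rv a ⊓ rv b ⊓ rv d0 ⊓ rv d1) = 9 / 2 := by
  have e0 := h.f0.H2d
  have e1 := h.f1.H2d
  have e2 := h.f2.H2d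
  have e3 := h.f0.H3d
  have e4 := h.f2.H3d
  have hp := pair h.f0.free2
  have b0 := lemB h
  have b2 := lemB h.pswap12.pswap01
  have h02 := h.pswap12.H01
  have hU : ∀ s ∈ [a, b], qP s d2 = qP s d0 := by
    intro s hs
    rcases List.mem_cons.1 hs with rfl | hs
    · exact h.a2
    · rcases List.mem_cons.1 hs with rfl | hs
      · exact h.b2
      · cases hs
  have c1 : H (rv a ⊓ rv b ⊓ rv d0 ⊓ rv t) = H (rv t ⊓ rv a ⊓ rv b ⊓ rv d0) :=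
    H_congr (by order) (by order)
  have c2 : H (rv a ⊓ rv b ⊓ rv d0 ⊓ rv d2 ⊓ rv d1) =
      H (rv a ⊓ rv b ⊓ rv d0 ⊓ rv d1 ⊓ rv d2) := H_congr (by order) (by order)
  have c3 : H (rv a ⊓ rv b ⊓ rv d2 ⊓ rv d0 ⊓ rv d1) =
      H (rv a ⊓ rv b ⊓ rv d0 ⊓ rv d1 ⊓ rv d2) := H_congr (by order) (by order)
  have c4 : H (rv a ⊓ rv b ⊓ rv d2 ⊓ rv d0) = H (rv a ⊓ rv b ⊓ rv d0 ⊓ rv d2) :=
    H_congr (by order) (by order)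
  have c5 : H (rv a ⊓ rv b ⊓ rv t ⊓ rv d0) = H (rv t ⊓ rv a ⊓ rv b ⊓ rv d0) :=
    H_congr (by order) (by order)
  have c6 : H (rv a ⊓ rv b ⊓ rv t ⊓ rv d2) = H (rv t ⊓ rv a ⊓ rv b ⊓ rv d2) :=
    H_congr (by order) (by order)
  have c7 : H (rv a ⊓ rv b ⊓ rv t ⊓ rv d0 ⊓ rv d2) =
      H (rv t ⊓ rv a ⊓ rv b ⊓ rv d0 ⊓ rv d2) := H_congr (by order) (by order)
  have c8 : H (rv a ⊓ rv b ⊓ cq d0 [a, b] ⊓ rv t ⊓ rv (qP t d0)) = co t a b d0 := by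
    simp only [cq_cons, cq_nil, co]
    exact H_congr (by order) (by order)
  have w := wlem (U := rv a ⊓ rv b) (W := rv d1) (e := d2) (t := t) h.f0.free2 h.f0.it h.t2 hU
    (by linarith) (by linarith) (by linarith) (by linarith)
  have qa0 := le_qP a d0
  have qb0 := le_qP b d0
  have qa1 : rv a ⊓ rv d1 ≤ rv (qP a d0) := h.a1 ▸ le_qP a d1
  have qb1 : rv b ⊓ rv d1 ≤ rv (qP b d0) := h.b1 ▸ le_qP b d1
  have c9 : H (rv a ⊓ rv b ⊓ cq d0 [a, b] ⊓ rv d1) = H (rv a ⊓ rv b ⊓ rv d1) := by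
    simp only [cq_cons, cq_nil]
    exact H_congr (by order) (by order)
  have c10 : H (rv a ⊓ rv b ⊓ cq d0 [a, b]) =
      H (rv a ⊓ rv b ⊓ rv (qP a d0) ⊓ rv (qP b d0)) := by
    simp only [cq_cons, cq_nil]
    exact H_congr (by order) (by order)
  have s1 := H_sub (rv a ⊓ rv b ⊓ rv d0) (rv a ⊓ rv b ⊓ rv d1)
    (rv a ⊓ rv b ⊓ rv (qP a d0) ⊓ rv (qP b d0)) (rv a ⊓ rv b ⊓ rv d0 ⊓ rv d1)
    (by order) (by order) (by order)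
  linarith

theorem lemC2 (h : Valid t a b d0 d1 d2) : H (rv a ⊓ rv b ⊓ rv d0 ⊓ rv d1 ⊓ rv d2) = 5 := by
  have e0 := h.f0.H2d
  have b0 := lemB h
  have c1 := lemC h
  have c2 := lemC h.pswap12
  have s1 := H_sub (rv a ⊓ rv b ⊓ rv d0 ⊓ rv d1) (rv a ⊓ rv b ⊓ rv d0 ⊓ rv d2)
    (rv a ⊓ rv b ⊓ rv d0) (rv a ⊓ rv b ⊓ rv d0 ⊓ rv d1 ⊓ rv d2)
    (by order) (by order) (by order)
  linarith

theorem lemC3 (h : Valid t a b d0 d1 d2) : H (rv a ⊓ rv d0 ⊓ rv d1) ≤ co t a b d0 - 1 := by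
  have c1 := lemC h
  have c2 := lemC h.swap23.swap12
  have c3 := h.H01
  have s1 := H_sub (rv a ⊓ rv b ⊓ rv d0 ⊓ rv d1) (rv t ⊓ rv a ⊓ rv d0 ⊓ rv d1)
    (rv a ⊓ rv d0 ⊓ rv d1) (rv t ⊓ rv a ⊓ rv b ⊓ rv d0 ⊓ rv d1)
    (by order) (by order) (by order)
  linarith

theorem pad (h : Fr3 t a b e) : ∃ (S' : Sys F) (π : Ext S' S) (f : Pt S'),
    In (π.fn t) f ∧ In (π.fn a) f ∧ qP (π.fn t) f = π.fn (qP t e) ∧
    pP (π.fn a) f = π.fn (pP a e) ∧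
    (∀ X : RV S, X ≤ rv a ⊓ rv t ⊓ rv e → H X + 1 / 2 ≤ H (π.rv X ⊓ rv f)) ∧
    H (π.rv (rv a ⊓ rv e) ⊓ rv f) ≤ co t (fl a) b e - 1 := by
  obtain ⟨S1, π1, g1, g2, hv⟩ := h.flip2.valid
  have c1 := lemC hv.swap23.swap12
  have c3 := lemC3 hv
  rw [co_pull] at c3
  simp only [Ext.fn_fl, rv_fl] at c1 c3
  have e4 := (h.swap23.swap12.pull π1).H2d
  obtain ⟨S2, ρ1, ρ2, e1, e2, ind⟩ := copy S1 (rv (π1.fn a) ⊓ rv (π1.fn t) ⊓ rv (π1.fn e))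
  have ea : ρ2.fn (π1.fn a) = ρ1.fn (π1.fn a) := e2 _ _ (by order)
  have et : ρ2.fn (π1.fn t) = ρ1.fn (π1.fn t) := e2 _ _ (by order)
  have ee : ρ2.fn (π1.fn e) = ρ1.fn (π1.fn e) := e2 _ _ (by order)
  refine ⟨S2, ρ1.comp π1, ρ2.fn g1, ?_, ?_, ?_, ?_, ?_, ?_⟩
  · have := hv.f1.it.pull ρ2
    rwa [et] at this
  · have := hv.f1.ia.flip.pull ρ2
    simp only [Ext.fn_fl, fl_fl] at this
    rwa [ea] at this
  · have := congrArg ρ2.fn hv.t1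
    simp only [Ext.fn_qP] at this
    simp only [Ext.comp_fn, Ext.fn_qP]
    rwa [et, ee] at this
  · have := congrArg ρ2.fn hv.a1
    simp only [Ext.fn_fl, qP_fl, Ext.fn_pP] at this
    simp only [Ext.comp_fn, Ext.fn_pP]
    rwa [ea, ee] at this
  · intro X hX
    have hX1 : π1.rv X ≤ rv (π1.fn a) ⊓ rv (π1.fn t) ⊓ rv (π1.fn e) := π1.mono hX
    have hX2 : ρ1.rv (π1.rv X) ≤
        rv (ρ1.fn (π1.fn a)) ⊓ rv (ρ1.fn (π1.fn t)) ⊓ rv (ρ1.fn (π1.fn e)) := ρ1.mono hX1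
    have i1 := ind (π1.rv X) (rv (π1.fn a) ⊓ rv (π1.fn t) ⊓ rv (π1.fn e) ⊓ rv g1) hX1 (by order)
    simp only [Ext.rv_inf, Ext.rv_rv, Ext.H_rv] at i1
    rw [ea, et, ee] at i1
    have k1 : H (rv (π1.fn a) ⊓ rv (π1.fn t) ⊓ rv (π1.fn e) ⊓ rv g1) =
        H (rv (π1.fn t) ⊓ rv (π1.fn a) ⊓ rv (π1.fn e) ⊓ rv g1) := H_congr (by order) (by order)
    have k2 : H (rv (π1.fn a) ⊓ rv (π1.fn t) ⊓ rv (π1.fn e)) =
        H (rv (π1.fn t) ⊓ rv (π1.fn a) ⊓ rv (π1.fn e)) := H_congr (by order) (by order)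
    have k3 : H (ρ1.rv (π1.rv X) ⊓ (rv (ρ1.fn (π1.fn a)) ⊓ rv (ρ1.fn (π1.fn t)) ⊓
        rv (ρ1.fn (π1.fn e)) ⊓ rv (ρ2.fn g1))) = H (ρ1.rv (π1.rv X) ⊓ rv (ρ2.fn g1)) :=
      H_congr (by order) (by order)
    simp only [Ext.comp_rv]
    linarith
  · have := ρ2.H_rv (rv (π1.fn a) ⊓ rv (π1.fn e) ⊓ rv g1)
    simp only [Ext.rv_inf, Ext.rv_rv] at this
    rw [ea, ee] at this
    simp only [Ext.rv_inf, Ext.rv_rv, Ext.comp_fn]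
    linarith

end

end Pool.Agent.P.MP_e72dc0_lc.TF
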