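import Pool.Agent.P.MP_e72dc0_lc.TF.LemC

namespace Pool.Agent.P.MP_e72dc0_lc.TF

open Pool.Agent.P.MP_db4732_co.Ent Filter Topology

variable {F : Fam} {S S' : Sys F}

theorem lemD_lat (T A D0 D1 D2 G1 G2 : RV S) (m1 : A ⊓ D0 ⊓ G1 ≤ D1) (m2 : A ⊓ D0 ⊓ G2 ≤ D2) :
    H (T ⊓ A ⊓ D0 ⊓ D1 ⊓ D2 ⊓ G1 ⊓ G2) ≤ H (A ⊓ D0 ⊓ G1 ⊓ G2 ⊓ T) ∧
    H (A ⊓ D0 ⊓ G1 ⊓ G2) + H (A ⊓ D1) + H (A ⊓ D2) ≤
      H (A ⊓ D0 ⊓ D1 ⊓ D2) + H (A ⊓ D1 ⊓ G1) + H (A ⊓ D2 ⊓ G2) := by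
  refine ⟨H_mono (by order), ?_⟩
  have s1 := H_sub (A ⊓ D0 ⊓ D1 ⊓ D2) (A ⊓ D1 ⊓ G1) (A ⊓ D1) (A ⊓ D0 ⊓ D1 ⊓ D2 ⊓ G1)
    (by order) (by order) (by order)
  have s2 := H_sub (A ⊓ D0 ⊓ D1 ⊓ D2 ⊓ G1) (A ⊓ D2 ⊓ G2) (A ⊓ D2) (A ⊓ D0 ⊓ G1 ⊓ G2)
    (by order) (by order) (by order)
  linarith

theorem lemD_le {a : Lb S} {d0 d f : Pt S} (hd : In a d) (p : pP a f = pP a d)
    (q : qP a d = qP a d0) : rv a ⊓ rv d0 ⊓ rv f ≤ rv d := by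
  have e := hd.le_pq
  rw [← p, q] at e
  refine le_trans (le_inf ?_ ?_) e
  · exact le_trans (le_inf (inf_le_left.trans inf_le_left) inf_le_right) (le_pP a f)
  · exact le_trans inf_le_left (le_qP a d0)

theorem lemD_core {t a b : Lb S} {d0 d1 d2 f1 f2 : Pt S} (h : Valid t a b d0 d1 d2) (c : ℝ)
    (i1 : In t f1) (i2 : In t f2) (q1 : qP t f1 = qP t d1) (q2 : qP t f2 = qP t d2)
    (p1 : pP a f1 = pP a d1) (p2 : pP a f2 = pP a d2)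
    (lo : 6 ≤ H (rv t ⊓ rv a ⊓ rv d0 ⊓ rv d1 ⊓ rv d2 ⊓ rv f1 ⊓ rv f2))
    (u1 : H (rv a ⊓ rv d1 ⊓ rv f1) ≤ c) (u2 : H (rv a ⊓ rv d2 ⊓ rv f2) ≤ c) :
    12 - 2 * c ≤ H (rv a ⊓ rv d0 ⊓ rv d1 ⊓ rv d2) := by
  have three := threePt (rv a) h.f0.it i1 i2 (q1.trans h.t1) (q2.trans h.t2)
  have ha := h.f0.H1
  have ha1 := h.f1.H1d
  have ha2 := h.f2.H1d
  obtain ⟨s0, s1⟩ := lemD_lat (rv t) (rv a) (rv d0) (rv d1) (rv d2) (rv f1) (rv f2)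
    (lemD_le h.f1.ia p1 h.a1) (lemD_le h.f2.ia p2 h.a2)
  linarith

theorem lemD_lat2 (T A D0 D1 D2 G : RV S) :
    T ⊓ A ⊓ D0 ⊓ D1 ⊓ D2 ≤ A ⊓ T ⊓ D1 ∧ T ⊓ A ⊓ D0 ⊓ D1 ⊓ D2 ⊓ G ≤ A ⊓ T ⊓ D2 :=
  ⟨by order, by order⟩

theorem lemD {t a b : Lb S} {d0 d1 d2 : Pt S} (h : Valid t a b d0 d1 d2) :
    2 * co t a b d0 - 5 ≤ H (rv a ⊓ rv d0 ⊓ rv d1 ⊓ rv d2) := by
  have c1 : co t (fl a) b d1 = 19 / 2 - co t a b d0 := by
    have e1 := h.f1.swap23.co_add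
    have e2 : co t b a d1 = co t a b d1 := co_swap23
    have e3 : co t b (fl a) d1 = co t (fl a) b d1 := co_swap23
    have e4 := h.co1
    linarith
  have c2 : co t (fl a) b d2 = 19 / 2 - co t a b d0 := by
    have e1 := h.f2.swap23.co_add
    have e2 : co t b a d2 = co t a b d2 := co_swap23
    have e3 : co t b (fl a) d2 = co t (fl a) b d2 := co_swap23
    have e4 := h.co2
    linarith
  have g5 : H (rv t ⊓ rv a ⊓ rv d0 ⊓ rv d1 ⊓ rv d2) = 5 := lemC2 h.swap23.swap12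
  obtain ⟨S1, π1, f1, it1, -, q1, p1, lo1, up1⟩ := pad h.f1
  have hv1 := h.pull π1
  obtain ⟨S2, π2, f2, it2, -, q2, p2, lo2, up2⟩ := pad hv1.f2
  have hv2 := hv1.pull π2
  have l1 := lo1 (rv t ⊓ rv a ⊓ rv d0 ⊓ rv d1 ⊓ rv d2) (lemD_lat2 _ _ _ _ _ ⊤).1
  have l2 := lo2 (π1.rv (rv t ⊓ rv a ⊓ rv d0 ⊓ rv d1 ⊓ rv d2) ⊓ rv f1)
    (lemD_lat2 (rv (π1.fn t)) (rv (π1.fn a)) (rv (π1.fn d0)) (rv (π1.fn d1)) (rv (π1.fn d2))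
      (rv f1)).2
  have c2' : co (π1.fn t) (fl (π1.fn a)) (π1.fn b) (π1.fn d2) = co t (fl a) b d2 :=
    co_pull (t := t) (a := fl a) (b := b) (d := d2) π1
  have u1 := π2.H_rv (π1.rv (rv a ⊓ rv d1) ⊓ rv f1)
  have o := (π2.comp π1).H_rv (rv a ⊓ rv d0 ⊓ rv d1 ⊓ rv d2)
  have tq1 : qP (π2.fn (π1.fn t)) (π2.fn f1) = qP (π2.fn (π1.fn t)) (π2.fn (π1.fn d1)) :=
    congrArg (fun g => π2.fn g) q1
  have pa1 : pP (π2.fn (π1.fn a)) (π2.fn f1) = pP (π2.fn (π1.fn a)) (π2.fn (π1.fn d1)) :=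
    congrArg (fun g => π2.fn g) p1
  simp only [Ext.rv_inf, Ext.rv_rv, Ext.comp_fn] at l1 l2 u1 o up1 up2
  have key := lemD_core hv2 (17 / 2 - co t a b d0) (it1.pull π2) it2 tq1 q2 pa1 p2
    (by linarith only [l1, l2, g5]) (by linarith only [u1, up1, c1])
    (by linarith only [up2, c2, c2'])
  linarith only [key, o]

theorem lemE {t a b : Lb S} {d0 d1 d2 : Pt S} (h : Valid t a b d0 d1 d2) : 5 ≤ co t a b d0 := by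
  have hD := lemD h
  have a0 := h.f0.H1d
  have a1 := h.f1.H1d
  have a2 := h.f2.H1d
  have b01 := lemC3 h
  have b02 := lemC3 h.pswap12
  have b12 := lemC3 h.pswap01.pswap12
  have c1 := h.co1
  have hv : Valid b a t d0 d1 d2 := h.swap23.swap12.swap23
  have t0 := hv.f0.H2d
  have t1 := hv.f1.H2d
  have t01 := lemC hv
  have pr := pair hv.f0.free2
  have sg := single h.f0.free1
  have w := wlem (U := rv a) (W := rv d2) (d := d0) (e := d1) (t := t) (lU := [a]) h.f0.free1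
    h.f0.it h.t1 (by intro s hs; rw [List.mem_singleton.mp hs]; exact h.a1)
    (by
      have : H (rv a ⊓ rv d0 ⊓ rv t) = H (rv a ⊓ rv t ⊓ rv d0) := H_congr (by order) (by order)
      linarith)
    (by linarith) (by linarith)
    (by
      have : H (rv a ⊓ cq d0 [a] ⊓ rv t ⊓ rv (qP t d0)) =
          H (rv a ⊓ rv t ⊓ rv (qP a d0) ⊓ rv (qP t d0)) := by
        simp only [cq_cons, cq_nil, inf_top_eq]
        exact H_congr (by order) (by order)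
      linarith)
  simp only [cq_cons, cq_nil, inf_top_eq] at w
  have m : H (rv a ⊓ rv d2) ≤ H (rv a ⊓ rv (qP a d0) ⊓ rv d2) := H_mono (by order)
  linarith

theorem no_fam (F : Fam) : False := by
  obtain ⟨S, t, a, b, d, h⟩ := exist3 F
  obtain ⟨S1, π1, e1, e2, h1⟩ := h.valid
  obtain ⟨S2, π2, f1, f2, h2⟩ := h.flip3.valid
  have e1 := lemE h1
  have e2 := lemE h2
  rw [co_pull] at e1 e2
  have := h.co_add
  linarith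

end Pool.Agent.P.MP_e72dc0_lc.TF
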