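import Pool.Agent.P.MP_e72dc0_lc.TF.Strong

namespace Pool.Agent.P.MP_e72dc0_lc.TF

theorem main_mono {x : ℕ} {e e' : ℝ} (h0 : 0 < e) (h : e ≤ e') : (x : ℝ) ^ e ≤ (x : ℝ) ^ e' := by
  rcases Nat.eq_zero_or_pos x with rfl | hx
  · rw [Nat.cast_zero, Real.zero_rpow h0.ne', Real.zero_rpow (h0.trans_le h).ne']
  · exact Real.rpow_le_rpow_of_exponent_le (by exact_mod_cast hx) h

theorem main : ∃ c : ℝ, 0 < c ∧ ∀ (G : Type) [AddCommGroup G] [Fintype G] (n : ℕ)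
    (A B : Fin n → Finset G), Sdpp A B →
      (∀ w : ℝ, 2 ≤ w → w ≤ 2 + c → ∑ i, (((A i).card * (B i).card : ℕ) : ℝ) ^ (w / 2) ≤
        (Fintype.card G : ℝ) ^ (3 / 2 : ℝ)) ∧
      (2 ≤ n → (∀ i, (n : ℝ) ^ (2 - c) ≤ (((A i).card * (B i).card : ℕ) : ℝ)) →
        (n : ℝ) ^ (2 + c) < Fintype.card G) := by
  obtain ⟨c0, hc0, h⟩ := strong
  set c1 := min c0 1 with hc1
  have c1pos : 0 < c1 := lt_min hc0 one_pos
  have c1le : c1 ≤ c0 := min_le_left _ _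
  have c1one : c1 ≤ 1 := min_le_right _ _
  refine ⟨c1 / 4, by positivity, fun G _ _ n A B hS => ?_⟩
  have key : ∀ w : ℝ, 2 ≤ w → w ≤ 2 + c1 →
      ∑ i, (((A i).card * (B i).card : ℕ) : ℝ) ^ (w / 2) ≤ (Fintype.card G : ℝ) ^ (3 / 2 : ℝ) := by
    intro w h1 h2
    have := h G (Fin n) A B hS
    unfold Beats at this
    refine le_trans (Finset.sum_le_sum fun i _ => main_mono (by linarith) (by linarith))
      (not_lt.mp this)
  refine ⟨fun w h1 h2 => key w h1 (by linarith), fun hn hA => ?_⟩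
  by_contra hG
  rw [not_lt] at hG
  have hn1 : (1 : ℝ) < n := by exact_mod_cast hn
  have hn0 : (0 : ℝ) < n := by linarith
  have k1 := key (2 + c1) (by linarith) le_rfl
  have k2 : ∑ _i : Fin n, ((n : ℝ) ^ (2 - c1 / 4)) ^ ((2 + c1) / 2) ≤
      ∑ i, (((A i).card * (B i).card : ℕ) : ℝ) ^ ((2 + c1) / 2) :=
    Finset.sum_le_sum fun i _ => Real.rpow_le_rpow (by positivity) (hA i) (by positivity)
  have k3 : (Fintype.card G : ℝ) ^ (3 / 2 : ℝ) ≤ ((n : ℝ) ^ (2 + c1 / 4)) ^ (3 / 2 : ℝ) :=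
    Real.rpow_le_rpow (by positivity) hG (by norm_num)
  rw [Finset.sum_const, Finset.card_univ, Fintype.card_fin, nsmul_eq_mul,
    ← Real.rpow_mul hn0.le, mul_comm, ← Real.rpow_add_one hn0.ne'] at k2
  rw [← Real.rpow_mul hn0.le] at k3
  have k4 := (Real.rpow_le_rpow_left_iff hn1).mp (k2.trans (k1.trans k3))
  nlinarith

end Pool.Agent.P.MP_e72dc0_lc.TF
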