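import Pool.Agent.P.MP_e72dc0_lc.TF.Copy
import Pool.Agent.P.MP_e72dc0_lc.TF.Grp

namespace Pool.Agent.P.MP_e72dc0_lc.TF

open Pool.Agent.P.MP_db4732_co.Ent Filter Topology

variable {F : Fam} {S S' : Sys F}

theorem Free.perm {Λ : RV S} {d : Pt S} {l l' : List (Lb S)} (h : Free Λ d l) (hp : l.Perm l') :
    Free Λ d l' where
  inc := fun s hs => h.inc s (hp.mem_iff.2 hs)
  le := fun s hs => h.le s (hp.mem_iff.2 hs)
  pt := h.pt
  one := fun s hs => h.one s (hp.mem_iff.2 hs)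
  two := (hp.pairwise_iff (fun {x y} hxy => by rwa [inf_comm])).1 h.two

theorem Free.sublist {Λ : RV S} {d : Pt S} {l l' : List (Lb S)} (h : Free Λ d l)
    (hp : l'.Sublist l) : Free Λ d l' where
  inc := fun s hs => h.inc s (hp.subset hs)
  le := fun s hs => h.le s (hp.subset hs)
  pt := h.pt
  one := fun s hs => h.one s (hp.subset hs)
  two := h.two.sublist hp

theorem Free.flip {Λ : RV S} {d : Pt S} {s : Lb S} {l : List (Lb S)} (h : Free Λ d (s :: l)) :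
    Free Λ d (fl s :: l) where
  inc := fun u hu => by
    rcases List.mem_cons.1 hu with rfl | hu
    · exact (h.inc s (by simp)).flip
    · exact h.inc u (List.mem_cons_of_mem _ hu)
  le := fun u hu => by
    rcases List.mem_cons.1 hu with rfl | hu
    · rw [rv_fl]; exact h.le s (by simp)
    · exact h.le u (List.mem_cons_of_mem _ hu)
  pt := h.pt
  one := fun u hu => by
    rcases List.mem_cons.1 hu with rfl | hu
    · rw [rv_fl]; exact h.one s (by simp)
    · exact h.one u (List.mem_cons_of_mem _ hu)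
  two := by
    have := h.two
    rw [List.pairwise_cons] at this ⊢
    refine ⟨fun u hu => ?_, this.2⟩
    rw [rv_fl]; exact this.1 u hu

theorem Free.map_fl {Λ : RV S} {d : Pt S} {l l' : List (Lb S)} (h : Free Λ d (l ++ l')) :
    Free Λ d (l.map fl ++ l') := by
  induction l generalizing l' with
  | nil => simpa using h
  | cons s l ih =>
    have h1 : Free Λ d (l ++ (fl s :: l')) :=
      (Free.flip (s := s) (l := l ++ l') h).perm List.perm_middle.symm
    have h2 := (ih h1).perm List.perm_middle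
    simpa using h2

theorem Free.pt_eq {Λ : RV S} {d : Pt S} {l : List (Lb S)} (h : Free Λ d l) :
    H (Λ ⊓ rv d) = H Λ + 2 := le_antisymm (H_pt Λ d) h.pt

theorem Free.le_cq {Λ : RV S} {d : Pt S} {l : List (Lb S)} (h : Free Λ d l) :
    Λ ⊓ rv d ≤ cq d l := by
  induction l with
  | nil => exact le_top
  | cons s l ih =>
    rw [cq_cons]
    refine le_inf ?_ (ih (h.sublist (List.sublist_cons_self s l)))
    exact (inf_le_inf_right _ (h.le s (by simp))).trans (le_qP s d)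

/-- superadditivity of sizes, always true -/
theorem superadd {Λ Θ : RV S} {d : Pt S} {u : Lb S} (hu : In u d) (hΘ : Θ ≤ Λ) :
    H (Λ ⊓ rv d) + H Θ ≤ H (Θ ⊓ rv (pP u d)) + H (Θ ⊓ rv (qP u d)) := by
  have h1 := hu.le_pq
  exact H_sub (Θ ⊓ rv (pP u d)) (Θ ⊓ rv (qP u d)) Θ (Λ ⊓ rv d) (by order) (by order) (by order)

theorem single {Λ : RV S} {d : Pt S} {s : Lb S} (h : Free Λ d [s]) :
    H (Λ ⊓ rv d) = H (Λ ⊓ rv (qP s d)) + 1 := by
  have hs : In s d := h.inc s (by simp)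
  have hl : Λ ≤ rv s := h.le s (by simp)
  have h1 := hs.le_pq
  have e1 := h.pt_eq
  have e2 : H (Λ ⊓ rv (qP s d)) ≤ H Λ + 1 := H_mem hs.memQ (by rw [rv_fl]; exact hl)
  have e3 : H (Λ ⊓ rv (qP s d) ⊓ rv (pP s d)) ≤ H (Λ ⊓ rv (qP s d)) + 1 :=
    H_mem hs.memP (by order)
  have e4 : H (Λ ⊓ rv d) ≤ H (Λ ⊓ rv (qP s d) ⊓ rv (pP s d)) := H_mono (by order)
  linarith

/-- the difference of the first components has entropy at most one -/
theorem Pair_diff {Λ : RV S} {d : Pt S} {s u : Lb S} (h : Free Λ d [s, u]) :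
    H (Λ ⊓ rv (pP s d - pP u d)) ≤ H Λ + 1 := by
  have hs : In s d := h.inc s (by simp)
  have hu : In u d := h.inc u (by simp)
  have ls : Λ ≤ rv s := h.le s (by simp)
  have lu : Λ ≤ rv u := h.le u (by simp)
  have e0 : 2 ≤ H (rv s ⊓ rv u) := by
    have := h.two
    simpa using this
  set x := pP s d - pP u d with hx
  have e1 := H_sub Λ (rv s ⊓ rv x ⊓ rv u) (rv s ⊓ rv u) (Λ ⊓ rv x) (by order) (by order)
    (by order)
  have e2 : H (rv s ⊓ rv x ⊓ rv u) ≤ H (rv s ⊓ rv x) := H_det hs hu (by order) (by order)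
  have e3 := H_pt (rv s) x
  have e4 := H_lb (⊤ : RV S) s
  rw [top_inf_eq, H_top] at e4
  linarith

/-- opposite corners have total size at least one -/
theorem Pair_key {Λ : RV S} {d : Pt S} {s u : Lb S} (h : Free Λ d [s, u]) :
    H (Λ ⊓ rv (pP s d) ⊓ rv (pP u d)) + H (Λ ⊓ rv (qP s d) ⊓ rv (qP u d)) ≤ 2 * H Λ + 3 := by
  have hs : In s d := h.inc s (by simp)
  have hu : In u d := h.inc u (by simp)
  have ls : Λ ≤ rv s := h.le s (by simp)
  have lu : Λ ≤ rv u := h.le u (by simp)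
  have e0 := Pair_diff h
  set x := pP s d - pP u d with hx
  have hx' : x = qP u d - qP s d := by
    have a1 := hs.add
    have a2 := hu.add
    rw [hx, sub_eq_sub_iff_add_eq_add, a1, add_comm, a2]
  have l1 : rv (pP s d) ⊓ rv x ≤ rv (pP u d) := le_of_sub (by rw [hx]; abel)
  have l2 : rv (qP s d) ⊓ rv x ≤ rv (qP u d) := le_of_add (by rw [hx']; abel)
  have e1 : H (Λ ⊓ rv (pP s d) ⊓ rv (pP u d)) ≤ H (Λ ⊓ rv x ⊓ rv (pP s d)) := H_mono (by order)
  have e2 : H (Λ ⊓ rv (qP s d) ⊓ rv (qP u d)) ≤ H (Λ ⊓ rv x ⊓ rv (qP s d)) := H_mono (by order)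
  obtain ⟨T, π₁, π₂, c1, c2, ind⟩ := copy S (Λ ⊓ rv x)
  have i1 := ind (Λ ⊓ rv x ⊓ rv (pP s d)) (Λ ⊓ rv x ⊓ rv (qP s d)) (by order) (by order)
  have cs : π₂.fn s = π₁.fn s := c2 _ s (by order)
  have cu : π₂.fn u = π₁.fn u := c2 _ u (by order)
  have cx : π₂.fn x = π₁.fn x := c2 _ x (by order)
  have cL : π₂.rv Λ = π₁.rv Λ := c1 Λ (by order)
  simp only [Ext.rv_inf, Ext.rv_rv, Ext.fn_qP, Ext.fn_pP, cs, cx, cL] at i1
  have hs1 := hs.pull π₁
  have hu1 := hu.pull π₁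
  have hs2 := hs.pull π₂
  have hu2 := hu.pull π₂
  rw [cs] at hs2
  rw [cu] at hu2
  have x1 : π₁.fn x = pP (π₁.fn s) (π₁.fn d) - pP (π₁.fn u) (π₁.fn d) := rfl
  have x2 : π₁.fn x = qP (π₁.fn u) (π₂.fn d) - qP (π₁.fn s) (π₂.fn d) := by
    rw [← cx, hx', Ext.fn_sub, Ext.fn_qP, Ext.fn_qP, cs, cu]
  have ls1 : π₁.rv Λ ≤ rv (π₁.fn s) := π₁.mono ls
  have lu1 : π₁.rv Λ ≤ rv (π₁.fn u) := π₁.mono lu
  have hL : H (π₁.rv Λ) = H Λ := π₁.H_rv Λ
  generalize π₁.fn x = y at *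
  generalize π₁.fn s = s1 at *
  generalize π₁.fn u = u1 at *
  generalize π₁.fn d = d1 at *
  generalize π₂.fn d = d2 at *
  generalize π₁.rv Λ = L at *
  obtain ⟨-, m1, m2⟩ := of_mem hs1.memP hs2.memQ
  obtain ⟨-, m3, -⟩ := of_mem hu1.memP hu2.memQ
  have he : pP u1 d1 + qP u1 d2 = pP s1 d1 + qP s1 d2 := by
    have := x1.symm.trans x2
    rw [sub_eq_sub_iff_add_eq_add] at this
    rw [this, add_comm]
  rw [he] at m3
  set e := pP s1 d1 + qP s1 d2 with hedef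
  have k1 := le_pP s1 e
  have k2 := le_qP s1 e
  have k3 := le_pP u1 e
  rw [m1] at k1
  rw [m2] at k2
  rw [m3] at k3
  have k4 : rv (pP s1 d1) ⊓ rv (pP u1 d1) ≤ rv y := le_of_sub x1
  have e3 : H (L ⊓ rv y ⊓ rv (pP s1 d1) ⊓ (L ⊓ rv y ⊓ rv (qP s1 d2))) ≤ H (L ⊓ rv e) :=
    H_mono (by order)
  have e4 := H_pt L e
  linarith

theorem pair {Λ : RV S} {d : Pt S} {s u : Lb S} (h : Free Λ d [s, u]) :
    H (Λ ⊓ rv d) = H (Λ ⊓ rv (qP s d) ⊓ rv (qP u d)) + 1 / 2 := by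
  have hs : In s d := h.inc s (by simp)
  have hu : In u d := h.inc u (by simp)
  have e0 := h.pt_eq
  have h' : Free Λ d [s, fl u] :=
    ((h.perm (List.Perm.swap u s [])).flip).perm (List.Perm.swap s (fl u) [])
  have k1 := Pair_key h
  have k2 := Pair_key h'
  rw [pP_fl, qP_fl] at k2
  have fs : Free Λ d [s] := h.sublist (by simp)
  have fu : Free Λ d [u] := h.sublist (by simp)
  have s1 := single fs
  have s2 := single fs.flip
  have s3 := single fu
  have s4 := single fu.flip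
  rw [qP_fl] at s2 s4
  have a1 := superadd (Λ := Λ) (Θ := Λ ⊓ rv (qP s d)) hu inf_le_left
  have a2 := superadd (Λ := Λ) (Θ := Λ ⊓ rv (pP s d)) hu inf_le_left
  have a3 := superadd (Λ := Λ) (Θ := Λ ⊓ rv (qP u d)) hs inf_le_left
  have a4 := superadd (Λ := Λ) (Θ := Λ ⊓ rv (pP u d)) hs inf_le_left
  rw [inf_right_comm Λ (rv (qP u d)) (rv (pP s d)), inf_right_comm Λ (rv (qP u d)) (rv (qP s d))]
    at a3
  rw [inf_right_comm Λ (rv (pP u d)) (rv (pP s d)), inf_right_comm Λ (rv (pP u d)) (rv (qP s d))]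
    at a4
  linarith

end Pool.Agent.P.MP_e72dc0_lc.TF
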