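import Pool.Agent.P.MP_e72dc0_lc.TF.Sdpp

namespace Pool.Agent.P.MP_e72dc0_lc.TF

theorem prune_mul_le {G ι : Type} [AddCommGroup G] [Fintype G] {A B : ι → Finset G}
    (h : Sdpp A B) (i : ι) : (A i).card * (B i).card ≤ Fintype.card G := by
  classical
  rw [← Finset.card_product, ← Finset.card_univ]
  refine Finset.card_le_card_of_injOn (fun p => p.1 + p.2) (fun _ _ => Finset.mem_univ _) ?_
  rintro ⟨a, b⟩ hp ⟨a', b'⟩ hq e
  simp only [Finset.coe_product, Set.mem_prod, Finset.mem_coe] at hp hq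
  have e' : a + b = a' + b' := e
  obtain ⟨h1, h2⟩ := h.1 i a hp.1 a' hq.1 b hp.2 b' hq.2 (by
    rw [show a - a' + (b - b') = a + b - (a' + b') by abel, e', sub_self])
  exact Prod.ext h1 h2

theorem prune_sum_le {G ι : Type} [Fintype G] {A : ι → Finset G} {I : Finset ι}
    (h : ∀ i ∈ I, ∀ k ∈ I, ∀ a ∈ A i, a ∈ A k → i = k) :
    ∑ i ∈ I, ((A i).card : ℝ) ≤ Fintype.card G := by
  classical
  have h1 : (I.biUnion A).card = ∑ i ∈ I, (A i).card :=
    Finset.card_biUnion fun i hi k hk hne =>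
      Finset.disjoint_left.2 fun a ha ha' => hne (h i hi k hk a ha ha')
  have h2 : (I.biUnion A).card ≤ Fintype.card G := Finset.card_le_univ _
  rw [h1] at h2
  exact_mod_cast h2

theorem prune {G ι : Type} [AddCommGroup G] [Fintype G] [Fintype ι] {A B : ι → Finset G}
    (h : Sdpp A B) {c : ℝ} (hc : 0 < c) (hc1 : c ≤ 1 / 4) (hb : Beats A B c)
    (hN : 8 ≤ (Fintype.card G : ℝ) ^ (c / 2)) :
    ∃ T : Finset ι, (T.card : ℝ) ≤ (Fintype.card G : ℝ) ^ (1 / 2 + c) ∧
      (∀ i ∈ T, ((A i).card : ℝ) ≤ (Fintype.card G : ℝ) ^ (1 / 2 + c) ∧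
        ((B i).card : ℝ) ≤ (Fintype.card G : ℝ) ^ (1 / 2 + c)) ∧
      (Fintype.card G : ℝ) ^ (3 / 2 - c) ≤ ∑ i ∈ T, (((A i).card * (B i).card : ℕ) : ℝ) := by
  classical
  have hm := prune_mul_le h
  set I : Finset ι := Finset.univ.filter fun i => 0 < (A i).card * (B i).card with hI
  have hne : ∀ i ∈ I, (A i).Nonempty ∧ (B i).Nonempty := fun i hi => by
    have := (Finset.mem_filter.1 hi).2
    exact ⟨Finset.card_pos.1 (Nat.pos_of_mul_pos_right this),
      Finset.card_pos.1 (Nat.pos_of_mul_pos_left this)⟩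
  have hA : ∑ i ∈ I, ((A i).card : ℝ) ≤ Fintype.card G := prune_sum_le fun i _ k hk a ha ha' => by
    obtain ⟨b, hb⟩ := (hne k hk).2
    exact h.2 i k k a ha a ha' b hb b hb (by simp)
  have hB : ∑ i ∈ I, ((B i).card : ℝ) ≤ Fintype.card G := prune_sum_le fun i hi k _ b hb hb' => by
    obtain ⟨a, ha⟩ := (hne i hi).1
    exact h.2 i i k a ha a ha b hb b hb' (by simp)
  unfold Beats at hb
  have hN0 : (0 : ℝ) < Fintype.card G := by exact_mod_cast Fintype.card_pos
  generalize hNe : (Fintype.card G : ℝ) = N at *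
  have hm' : ∀ i, (((A i).card * (B i).card : ℕ) : ℝ) ≤ N := fun i => by
    rw [← hNe]; exact_mod_cast hm i
  obtain ⟨u, hu⟩ : ∃ u, u = N ^ (1 / 2 - c) := ⟨_, rfl⟩
  obtain ⟨v, hv⟩ : ∃ v, v = N ^ (1 / 2 + c) := ⟨_, rfl⟩
  obtain ⟨w, hw⟩ : ∃ w, w = N ^ (c / 2) := ⟨_, rfl⟩
  have hu0 : 0 < u := hu ▸ Real.rpow_pos_of_pos hN0 _
  have hv0 : 0 < v := hv ▸ Real.rpow_pos_of_pos hN0 _
  have huv : u * v = N := by
    rw [hu, hv, ← Real.rpow_add hN0]; norm_num
  have e1 : N ^ (3 / 2 - c) = N * u := by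
    rw [hu, show 3 / 2 - c = 1 + (1 / 2 - c) by ring, Real.rpow_add hN0, Real.rpow_one]
  have e2 : N ^ (3 / 2 : ℝ) = N * u * w * w := by
    rw [← e1, hw, ← Real.rpow_add hN0, ← Real.rpow_add hN0]; congr 1; ring
  rw [← hw] at hN
  rw [← hv, e1]
  have hsum : 8 * (N * u) ≤ ∑ i, (((A i).card * (B i).card : ℕ) : ℝ) := by
    have h1 : ∑ i, (((A i).card * (B i).card : ℕ) : ℝ) ^ (1 + c / 2) ≤
        ∑ i, (((A i).card * (B i).card : ℕ) : ℝ) * w := by
      refine Finset.sum_le_sum fun i _ => ?_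
      rw [Real.rpow_add' (Nat.cast_nonneg _) (by linarith), Real.rpow_one, hw]
      exact mul_le_mul_of_nonneg_left
        (Real.rpow_le_rpow (Nat.cast_nonneg _) (hm' i) (by linarith)) (Nat.cast_nonneg _)
    rw [← Finset.sum_mul] at h1
    have h2 := lt_of_mul_lt_mul_right (e2 ▸ hb.trans_le h1) (by linarith : 0 ≤ w)
    have h3 := mul_le_mul_of_nonneg_left hN (mul_pos hN0 hu0).le
    linarith
  set T : Finset ι := I.filter fun i =>
    (((A i).card : ℝ) + (B i).card) / 2 * u < (((A i).card * (B i).card : ℕ) : ℝ) ∧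
      ((A i).card : ℝ) ≤ v ∧ ((B i).card : ℝ) ≤ v with hT
  have hTI : T ⊆ I := Finset.filter_subset _ _
  refine ⟨T, ?_, fun i hi => (Finset.mem_filter.1 hi).2.2, ?_⟩
  · have h1 : ∑ _i ∈ T, u ≤ ∑ i ∈ T, (((A i).card : ℝ) + (B i).card) / 2 := by
      refine Finset.sum_le_sum fun i hi => ?_
      have h2 := (Finset.mem_filter.1 hi).2.1
      push_cast at h2
      have ha : (0 : ℝ) ≤ (A i).card := Nat.cast_nonneg _
      have hb : (0 : ℝ) ≤ (B i).card := Nat.cast_nonneg _
      by_contra hlt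
      have h3 := mul_le_mul_of_nonneg_left (not_le.1 hlt).le
        (by linarith : 0 ≤ (((A i).card : ℝ) + (B i).card) / 2)
      nlinarith [sq_nonneg (((A i).card : ℝ) - (B i).card)]
    have h2 : ∑ i ∈ T, (((A i).card : ℝ) + (B i).card) / 2 ≤
        ∑ i ∈ I, (((A i).card : ℝ) + (B i).card) / 2 :=
      Finset.sum_le_sum_of_subset_of_nonneg hTI fun i _ _ => by positivity
    rw [← Finset.sum_div I, Finset.sum_add_distrib] at h2
    rw [Finset.sum_const, nsmul_eq_mul] at h1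
    have h3 : (T.card : ℝ) * u ≤ v * u := by linarith
    exact le_of_mul_le_mul_right h3 hu0
  · have h0 : ∑ i, (((A i).card * (B i).card : ℕ) : ℝ) =
        ∑ i ∈ I, (((A i).card * (B i).card : ℕ) : ℝ) := by
      refine (Finset.sum_subset (Finset.subset_univ _) fun i _ hi => ?_).symm
      have : ¬ 0 < (A i).card * (B i).card := fun h =>
        hi (Finset.mem_filter.2 ⟨Finset.mem_univ _, h⟩)
      rw [Nat.eq_zero_of_not_pos this]; simp
    have h1 : ∑ i ∈ I, (((A i).card * (B i).card : ℕ) : ℝ) ≤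
        ∑ i ∈ I, ((if i ∈ T then (((A i).card * (B i).card : ℕ) : ℝ) else 0) +
          3 / 2 * u * (((A i).card : ℝ) + (B i).card)) := by
      refine Finset.sum_le_sum fun i hi => ?_
      have ha : (0 : ℝ) ≤ u * (A i).card := by positivity
      have hb : (0 : ℝ) ≤ u * (B i).card := by positivity
      split_ifs with hiT
      · linarith
      · have h2 := hm' i
        by_cases c1 : ((A i).card : ℝ) ≤ v
        · by_cases c2 : ((B i).card : ℝ) ≤ v
          · have c3 : ¬ (((A i).card : ℝ) + (B i).card) / 2 * u <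
                (((A i).card * (B i).card : ℕ) : ℝ) := fun c3 =>
              hiT (Finset.mem_filter.2 ⟨hi, c3, c1, c2⟩)
            have := not_lt.1 c3
            linarith
          · have := mul_le_mul_of_nonneg_left (not_le.1 c2).le hu0.le
            linarith
        · have := mul_le_mul_of_nonneg_left (not_le.1 c1).le hu0.le
          linarith
    rw [Finset.sum_add_distrib, ← Finset.mul_sum, Finset.sum_add_distrib, Finset.sum_ite_mem,
      Finset.inter_eq_right.2 hTI] at h1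
    have h2 := mul_le_mul_of_nonneg_left (add_le_add hA hB) (by positivity : 0 ≤ 3 / 2 * u)
    have h3 := mul_pos hN0 hu0
    linarith

end Pool.Agent.P.MP_e72dc0_lc.TF
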