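import Mathlib

namespace Pool.Agent.P.MP_e72dc0_lc.TF

/-- simultaneous double product property -/
def Sdpp {G ι : Type} [AddCommGroup G] (A B : ι → Finset G) : Prop :=
  (∀ i, ∀ a ∈ A i, ∀ a' ∈ A i, ∀ b ∈ B i, ∀ b' ∈ B i, a - a' + (b - b') = 0 → a = a' ∧ b = b') ∧
  ∀ i j k, ∀ a ∈ A i, ∀ a' ∈ A j, ∀ b ∈ B j, ∀ b' ∈ B k, a - a' + (b - b') = 0 → i = k

/-- the family beats the bound with exponent `2 + c` -/
def Beats {G ι : Type} [Fintype G] [Fintype ι] (A B : ι → Finset G) (c : ℝ) : Prop :=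
  (Fintype.card G : ℝ) ^ (3 / 2 : ℝ) < ∑ i, (((A i).card * (B i).card : ℕ) : ℝ) ^ (1 + c / 2)

end Pool.Agent.P.MP_e72dc0_lc.TF
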