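import Pool.Agent.P.MP_e72dc0_lc.TF.Copy
import Pool.Agent.P.MP_e72dc0_lc.TF.Grp

namespace Pool.Agent.P.MP_e72dc0_lc.TF

open Pool.Agent.P.MP_db4732_co.Ent Filter Topology

variable {F : Fam} {S S' : Sys F}

theorem Step_one {T E a b X W : RV S} (hT : E ≤ T) (ha : E ≤ a) (hb : E ≤ b) (hX : E ≤ X) :
    H (T ⊓ X ⊓ W) + H (E ⊓ W) + H (T ⊓ a ⊓ b ⊓ X) + H (T ⊓ a) + H (T ⊓ b) ≤
      H (T ⊓ a ⊓ X) + H (T ⊓ b ⊓ X) + H (T ⊓ a ⊓ W) + H (T ⊓ b ⊓ W) + H E := by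
  have h1 := H_sub (T ⊓ a ⊓ W) (T ⊓ a ⊓ X) (T ⊓ a) (T ⊓ X ⊓ W ⊓ a)
    inf_le_left inf_le_left (by order)
  have h2 := H_sub (T ⊓ X ⊓ W ⊓ a) (T ⊓ X ⊓ W ⊓ b) (T ⊓ X ⊓ W) (T ⊓ a ⊓ b ⊓ X ⊓ W)
    inf_le_left inf_le_left (by order)
  have h3 := H_sub (T ⊓ b ⊓ W) (T ⊓ b ⊓ X) (T ⊓ b) (T ⊓ X ⊓ W ⊓ b)
    inf_le_left inf_le_left (by order)
  have h4 := H_sub (T ⊓ a ⊓ b ⊓ X ⊓ W) E (T ⊓ a ⊓ b ⊓ X) (E ⊓ W)
    inf_le_left (le_inf (le_inf (le_inf hT ha) hb) hX)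
    (le_inf inf_le_right (inf_le_left.trans inf_le_right))
  linarith

/-- the Ingleton inequality with the error terms of an auxiliary variable -/
theorem Step_ing {T E a b X Y W : RV S} (hT : E ≤ T) (ha : E ≤ a) (hb : E ≤ b) (hX : E ≤ X)
    (hY : E ≤ Y) (hXY : T ⊓ X ⊓ Y ≤ E) :
    H (T ⊓ W) + 3 * H (E ⊓ W) + H (T ⊓ a ⊓ b ⊓ X) + H (T ⊓ a ⊓ b ⊓ Y) + 2 * H (T ⊓ a) +
        2 * H (T ⊓ b) ≤
      H (T ⊓ a ⊓ X) + H (T ⊓ b ⊓ X) + H (T ⊓ a ⊓ Y) + H (T ⊓ b ⊓ Y) + 2 * H (T ⊓ a ⊓ W) +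
        2 * H (T ⊓ b ⊓ W) + 2 * H E := by
  have h1 := Step_one (W := W) hT ha hb hX
  have h2 := Step_one (W := W) hT ha hb hY
  have h3 := H_sub (T ⊓ X ⊓ W) (T ⊓ Y ⊓ W) (T ⊓ W) (E ⊓ W)
    (inf_le_inf_right _ inf_le_left) (inf_le_inf_right _ inf_le_left)
    (le_inf (le_trans (le_inf (inf_le_left.trans inf_le_left)
      (inf_le_right.trans (inf_le_left.trans inf_le_right))) hXY) (inf_le_left.trans inf_le_right))
  linarith

/-- the same inequality for a variable `x`, copied over `T ⊓ a ⊓ b` -/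
theorem Step_copy {T E a b X Y x : RV S} (hT : E ≤ T) (ha : E ≤ a) (hb : E ≤ b) (hX : E ≤ X)
    (hY : E ≤ Y) (hXY : T ⊓ X ⊓ Y ≤ E) (hx : T ⊓ a ⊓ b ⊓ x ≤ E) :
    H (T ⊓ x) + 4 * H E + H (T ⊓ a ⊓ b ⊓ X) + H (T ⊓ a ⊓ b ⊓ Y) + 2 * H (T ⊓ a) +
        2 * H (T ⊓ b) ≤
      H (T ⊓ a ⊓ X) + H (T ⊓ b ⊓ X) + H (T ⊓ a ⊓ Y) + H (T ⊓ b ⊓ Y) + 2 * H (T ⊓ a ⊓ x) +
        2 * H (T ⊓ b ⊓ x) + 3 * H (T ⊓ a ⊓ b) := by
  obtain ⟨S', π₁, π₂, e1, -, ind⟩ := copy S (T ⊓ a ⊓ b)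
  have eT := e1 T (inf_le_left.trans inf_le_left)
  have ea := e1 a (inf_le_left.trans inf_le_right)
  have eb := e1 b inf_le_right
  have hEZ : E ≤ T ⊓ a ⊓ b := le_inf (le_inf hT ha) hb
  have h := Step_ing (W := π₂.rv x) (π₁.mono hT) (π₁.mono ha) (π₁.mono hb) (π₁.mono hX)
    (π₁.mono hY) (π₁.mono hXY)
  have i1 := ind E (T ⊓ a ⊓ b ⊓ x) hEZ inf_le_left
  have i2 : π₁.rv E ⊓ π₂.rv (T ⊓ a ⊓ b ⊓ x) = π₁.rv E ⊓ π₂.rv x := by
    rw [Ext.rv_inf, e1 _ le_rfl, ← inf_assoc, inf_eq_left.2 (π₁.mono hEZ)]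
  have i3 := H_mono hx
  have j1 : H (π₁.rv T ⊓ π₂.rv x) = H (T ⊓ x) := by
    rw [← eT]; exact π₂.H_rv (T ⊓ x)
  have j2 : H (π₁.rv T ⊓ π₁.rv a ⊓ π₂.rv x) = H (T ⊓ a ⊓ x) := by
    rw [← eT, ← ea]; exact π₂.H_rv (T ⊓ a ⊓ x)
  have j3 : H (π₁.rv T ⊓ π₁.rv b ⊓ π₂.rv x) = H (T ⊓ b ⊓ x) := by
    rw [← eT, ← eb]; exact π₂.H_rv (T ⊓ b ⊓ x)
  rw [i2] at i1
  rw [j1, j2, j3, i1] at h
  simp only [← Ext.rv_inf, Ext.H_rv] at h
  linarith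

/-- the inductive step for additivity (Ingleton inequality from a double Markov variable) -/
theorem tstep {Λ Θ : RV S} {d : Pt S} {s t u : Lb S} (hs : In s d) (ht : In t d) (hu : In u d)
    (ls : Λ ≤ rv s) (lt : Λ ≤ rv t) (lu : Λ ≤ rv u) (h1 : Λ ⊓ rv d ≤ Θ) (h2 : Θ ≤ Λ)
    (A1 : Addi Λ d Θ s) (A2 : Addi Λ d (Θ ⊓ rv (pP s d)) t) (A3 : Addi Λ d (Θ ⊓ rv (qP s d)) t)
    (A4 : Addi Λ d (Θ ⊓ rv (qP t d)) s) (A5 : Addi Λ d (Θ ⊓ rv (qP s d)) u)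
    (A6 : Addi Λ d (Θ ⊓ rv (qP t d)) u) :
    Addi Λ d (Θ ⊓ rv (qP s d) ⊓ rv (qP t d)) u := by
  unfold Addi at *
  have es := hs.add
  have et := ht.add
  have k1 : Λ ⊓ rv d ≤ rv (qP s d) := (inf_le_inf_right _ ls).trans (le_qP s d)
  have k2 : Λ ⊓ rv d ≤ rv (qP t d) := (inf_le_inf_right _ lt).trans (le_qP t d)
  have k3 : Λ ⊓ rv d ≤ rv (pP u d) := (inf_le_inf_right _ lu).trans (le_pP u d)
  have k4 : Λ ⊓ rv d ≤ rv (qP u d) := (inf_le_inf_right _ lu).trans (le_qP u d)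
  have ds := hs.le_pq
  have dt := ht.le_pq
  have du := hu.le_pq
  have dd := hs.le_diff
  have x1 : rv (pP s d) ⊓ rv (qP t d) ≤ rv (pP s d - qP t d) := le_sub _ _
  have x2 : rv (pP t d) ⊓ rv (qP s d) ≤ rv (pP s d - qP t d) :=
    le_of_sub (by linear_combination (norm := abel) es - et)
  have x3 : rv (pP s d - qP t d) ⊓ rv (qP s d) ≤ rv (pP t d) :=
    le_of_add (by linear_combination (norm := abel) et - es)
  have y1 : rv (pP s d) ⊓ rv (pP t d) ≤ rv (pP s d - pP t d) := le_sub _ _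
  have y2 : rv (qP t d) ⊓ rv (qP s d) ≤ rv (pP s d - pP t d) :=
    le_of_sub (by linear_combination (norm := abel) es - et)
  have z : rv (pP s d - qP t d) ⊓ rv (pP s d - pP t d) ≤ rv (pP s d - qP s d) :=
    le_of_add (by linear_combination (norm := abel) et - es)
  generalize rv (pP s d - qP t d) = x at *
  generalize rv (pP s d - pP t d) = y at *
  generalize rv (pP s d - qP s d) = w at *
  generalize rv (pP s d) = ps at *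
  generalize rv (qP s d) = qs at *
  generalize rv (pP t d) = pt at *
  generalize rv (qP t d) = qt at *
  generalize rv (pP u d) = pu at *
  generalize rv (qP u d) = qu at *
  generalize rv d = D at *
  have m := Step_copy (x := x) h1 k1 k2 k3 k4
    (le_inf (inf_le_left.trans (inf_le_left.trans h2))
      (le_trans (le_inf (inf_le_left.trans inf_le_right) inf_le_right) du))
    (le_inf (inf_le_left.trans (inf_le_left.trans (inf_le_left.trans h2)))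
      (le_trans (le_inf (le_trans (le_inf inf_le_right
        (inf_le_left.trans (inf_le_left.trans inf_le_right))) x3)
        (inf_le_left.trans inf_le_right)) dt))
  have a1 := H_sub (Θ ⊓ qs ⊓ qt) (Θ ⊓ ps ⊓ pt) (Θ ⊓ y) (Λ ⊓ D)
    (le_inf (inf_le_left.trans inf_le_left)
      (le_trans (le_inf inf_le_right (inf_le_left.trans inf_le_right)) y2))
    (le_inf (inf_le_left.trans inf_le_left)
      (le_trans (le_inf (inf_le_left.trans inf_le_right) inf_le_right) y1))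
    (le_inf (inf_le_left.trans (inf_le_left.trans (inf_le_left.trans h2)))
      (le_trans (le_inf (inf_le_right.trans (inf_le_left.trans inf_le_right))
        (inf_le_left.trans (inf_le_left.trans inf_le_right))) ds))
  have a2 := H_sub (Θ ⊓ x) (Θ ⊓ y) Θ (Λ ⊓ D) inf_le_left inf_le_left
    (le_inf (inf_le_left.trans (inf_le_left.trans h2))
      (le_trans (le_inf (inf_le_left.trans (inf_le_left.trans (h2.trans ls)))
        (le_trans (inf_le_inf inf_le_right inf_le_right) z)) dd))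
  have a3 := H_sub (Θ ⊓ ps ⊓ qt) (Θ ⊓ qs ⊓ qt) (Θ ⊓ qt) (Λ ⊓ D)
    (inf_le_inf_right _ inf_le_left) (inf_le_inf_right _ inf_le_left)
    (le_inf (inf_le_left.trans (inf_le_left.trans (inf_le_left.trans h2)))
      (le_trans (inf_le_inf (inf_le_left.trans inf_le_right) (inf_le_left.trans inf_le_right)) ds))
  have b1 : H (Θ ⊓ qs ⊓ x) ≤ H (Θ ⊓ qs ⊓ pt) := H_mono (le_inf inf_le_left
    (le_trans (le_inf inf_le_right (inf_le_left.trans inf_le_right)) x2))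
  have b2 : H (Θ ⊓ qt ⊓ x) ≤ H (Θ ⊓ qt ⊓ ps) := H_mono (le_inf inf_le_left
    (le_trans (le_inf inf_le_right (inf_le_left.trans inf_le_right)) x1))
  have b3 : Θ ⊓ qt ⊓ qs = Θ ⊓ qs ⊓ qt := inf_right_comm _ _ _
  rw [b3] at A4
  linarith

end Pool.Agent.P.MP_e72dc0_lc.TF
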