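import Pool.Agent.P.MP_e72dc0_lc.TF.Sdpp

namespace Pool.Agent.P.MP_e72dc0_lc.TF

theorem tensor_two_le {G ι : Type} [AddCommGroup G] [Fintype G] [Fintype ι] {A B : ι → Finset G}
    (h : Sdpp A B) {c : ℝ} (hc : 0 < c) (hb : Beats A B c) : 2 ≤ Fintype.card G := by
  classical
  by_contra hlt
  have hpos : 0 < Fintype.card G := Fintype.card_pos
  have h1 : Fintype.card G = 1 := by omega
  have hsub : Subsingleton G := Fintype.card_le_one_iff_subsingleton.1 h1.le
  have hle : ∀ s : Finset G, s.card ≤ 1 := fun s => h1 ▸ Finset.card_le_univ s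
  have hc' : (1 + c / 2 : ℝ) ≠ 0 := by positivity
  unfold Beats at hb
  rw [h1] at hb
  simp only [Nat.cast_one, Real.one_rpow] at hb
  by_cases hex : ∃ i, (A i).Nonempty ∧ (B i).Nonempty
  · obtain ⟨i, ⟨a, ha⟩, ⟨b, hb'⟩⟩ := hex
    rw [Finset.sum_eq_single i] at hb
    · have h2 : ((A i).card * (B i).card : ℕ) ≤ 1 := by
        have := Nat.mul_le_mul (hle (A i)) (hle (B i))
        simpa using this
      have h3 : (((A i).card * (B i).card : ℕ) : ℝ) ≤ 1 := by exact_mod_cast h2
      have h4 := Real.rpow_le_one (Nat.cast_nonneg _) h3 (by positivity : (0 : ℝ) ≤ 1 + c / 2)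
      linarith
    · intro k _ hk
      by_cases hBk : (B k).Nonempty
      · obtain ⟨b', hb''⟩ := hBk
        exact absurd (h.2 i i k a ha a ha b hb' b' hb'' (Subsingleton.elim _ _)).symm hk
      · rw [Finset.not_nonempty_iff_eq_empty] at hBk
        rw [hBk, Finset.card_empty, Nat.mul_zero, Nat.cast_zero, Real.zero_rpow hc']
    · intro hi
      exact absurd (Finset.mem_univ i) hi
  · have hz : ∑ i, (((A i).card * (B i).card : ℕ) : ℝ) ^ (1 + c / 2) = 0 := by
      refine Finset.sum_eq_zero fun i _ => ?_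
      have h0 : (A i).card * (B i).card = 0 := by
        by_contra hne
        obtain ⟨hA, hB⟩ := mul_ne_zero_iff.1 hne
        exact hex ⟨i, Finset.card_ne_zero.1 hA, Finset.card_ne_zero.1 hB⟩
      rw [h0, Nat.cast_zero, Real.zero_rpow hc']
    linarith

theorem tensor_sdpp {G ι : Type} [AddCommGroup G] {A B : ι → Finset G} (h : Sdpp A B) (M : ℕ) :
    Sdpp (fun f : Fin M → ι => Fintype.piFinset fun j => A (f j))
      (fun f : Fin M → ι => Fintype.piFinset fun j => B (f j)) := by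
  constructor
  · intro i a ha a' ha' b hb b' hb' e
    rw [Fintype.mem_piFinset] at ha ha' hb hb'
    have key : ∀ j, a j = a' j ∧ b j = b' j := fun j =>
      h.1 (i j) _ (ha j) _ (ha' j) _ (hb j) _ (hb' j) (congrFun e j)
    exact ⟨funext fun j => (key j).1, funext fun j => (key j).2⟩
  · intro i j k a ha a' ha' b hb b' hb' e
    rw [Fintype.mem_piFinset] at ha ha' hb hb'
    exact funext fun t =>
      h.2 (i t) (j t) (k t) _ (ha t) _ (ha' t) _ (hb t) _ (hb' t) (congrFun e t)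

theorem tensor_beats {G ι : Type} [Fintype G] [Fintype ι] {A B : ι → Finset G} {c : ℝ}
    (hb : Beats A B c) {M : ℕ} (hM : M ≠ 0) :
    Beats (fun f : Fin M → ι => Fintype.piFinset fun j => A (f j))
      (fun f : Fin M → ι => Fintype.piFinset fun j => B (f j)) c := by
  classical
  unfold Beats at hb ⊢
  have e1 : ((Fintype.card (Fin M → G) : ℕ) : ℝ) ^ (3 / 2 : ℝ)
      = ((Fintype.card G : ℝ) ^ (3 / 2 : ℝ)) ^ M := by
    rw [Fintype.card_fun, Fintype.card_fin, Nat.cast_pow,
      ← Real.rpow_natCast, ← Real.rpow_natCast, ← Real.rpow_mul (Nat.cast_nonneg _),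
      ← Real.rpow_mul (Nat.cast_nonneg _), mul_comm]
  have e2 : ∑ f : Fin M → ι, ((((Fintype.piFinset fun j => A (f j)).card
        * (Fintype.piFinset fun j => B (f j)).card : ℕ) : ℝ)) ^ (1 + c / 2)
      = (∑ i, (((A i).card * (B i).card : ℕ) : ℝ) ^ (1 + c / 2)) ^ M := by
    have e3 : (∑ i, (((A i).card * (B i).card : ℕ) : ℝ) ^ (1 + c / 2)) ^ M
        = ∏ _j : Fin M, ∑ i, (((A i).card * (B i).card : ℕ) : ℝ) ^ (1 + c / 2) := by
      rw [Finset.prod_const, Finset.card_univ, Fintype.card_fin]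
    rw [e3, Finset.prod_univ_sum, Fintype.piFinset_univ]
    refine Finset.sum_congr rfl fun f _ => ?_
    rw [Fintype.card_piFinset, Fintype.card_piFinset, ← Finset.prod_mul_distrib, Nat.cast_prod,
      Real.finsetProd_rpow _ _ (fun j _ => Nat.cast_nonneg _)]
  rw [e1, e2]
  exact pow_lt_pow_left₀ hb (by positivity) hM

theorem tensor {G ι : Type} [AddCommGroup G] [Fintype G] [Fintype ι] {A B : ι → Finset G}
    (h : Sdpp A B) {c : ℝ} (hc : 0 < c) (hb : Beats A B c) (N0 : ℕ) :
    ∃ (G' ι' : Type) (_ : AddCommGroup G') (_ : Fintype G') (_ : Fintype ι')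
      (A' B' : ι' → Finset G'), Sdpp A' B' ∧ Beats A' B' c ∧ N0 ≤ Fintype.card G' := by
  classical
  refine ⟨Fin (N0 + 1) → G, Fin (N0 + 1) → ι, inferInstance, inferInstance, inferInstance, _, _,
    tensor_sdpp h (N0 + 1), tensor_beats hb (Nat.succ_ne_zero N0), ?_⟩
  rw [Fintype.card_fun, Fintype.card_fin]
  have h2 := tensor_two_le h hc hb
  calc N0 ≤ N0 + 1 := Nat.le_succ _
    _ ≤ 2 ^ (N0 + 1) := Nat.lt_two_pow_self.le
    _ ≤ _ := Nat.pow_le_pow_left h2 _

end Pool.Agent.P.MP_e72dc0_lc.TF
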