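import Pool.Agent.P.MP_e72dc0_lc.TF.LemD
import Pool.Agent.P.MP_e72dc0_lc.TF.Tensor
import Pool.Agent.P.MP_e72dc0_lc.TF.Prune

namespace Pool.Agent.P.MP_e72dc0_lc.TF

open Pool.Agent.P.MP_db4732_co.Ent Filter Topology

variable {F : Fam} {S S' : Sys F}

section
variable {G ι : Type} [AddCommGroup G]

/-- first set of a signed label -/
def strongP (A B : ι → Finset G) (T : Finset ι) (s : T × Bool) : Finset G :=
  if s.2 = true then A s.1 else (B s.1).map (Equiv.neg G).toEmbedding

theorem strong_mem_t {A B : ι → Finset G} {T : Finset ι} {t : T} {x : G} :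
    x ∈ strongP A B T (t, true) ↔ x ∈ A t := by simp [strongP]

theorem strong_mem_f {A B : ι → Finset G} {T : Finset ι} {t : T} {x : G} :
    x ∈ strongP A B T (t, false) ↔ -x ∈ B t := by
  simp [strongP, Finset.mem_map_equiv]

theorem strong_card_t {A B : ι → Finset G} {T : Finset ι} (t : T) :
    (strongP A B T (t, true)).card = (A t).card := by simp [strongP]

theorem strong_card_f {A B : ι → Finset G} {T : Finset ι} (t : T) :
    (strongP A B T (t, false)).card = (B t).card := by simp [strongP]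

theorem strong_direct {A B : ι → Finset G} (h : Sdpp A B) (T : Finset ι) (s : T × Bool) :
    ∀ p ∈ strongP A B T s, ∀ p' ∈ strongP A B T s, ∀ q ∈ strongP A B T (s.1, !s.2),
      ∀ q' ∈ strongP A B T (s.1, !s.2), p + q = p' + q' → p = p' := by
  obtain ⟨t, _ | _⟩ := s
  · intro p hp p' hp' q hq q' hq' e
    have h1 := h.1 t q (strong_mem_t.1 hq) q' (strong_mem_t.1 hq') (-p') (strong_mem_f.1 hp')
      (-p) (strong_mem_f.1 hp) (by linear_combination (norm := abel1) e)
    exact (neg_injective h1.2).symm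
  · intro p hp p' hp' q hq q' hq' e
    exact (h.1 t p (strong_mem_t.1 hp) p' (strong_mem_t.1 hp') (-q') (strong_mem_f.1 hq')
      (-q) (strong_mem_f.1 hq) (by linear_combination (norm := abel1) e)).1

theorem strong_det {A B : ι → Finset G} (h : Sdpp A B) (T : Finset ι) (s r r' : T × Bool)
    (hr : r.2 = r'.2) :
    ∀ p ∈ strongP A B T s, ∀ q ∈ strongP A B T (s.1, !s.2), ∀ p' ∈ strongP A B T s,
      ∀ q' ∈ strongP A B T (s.1, !s.2), ∀ x ∈ strongP A B T r, ∀ y ∈ strongP A B T (r.1, !r.2),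
      ∀ x' ∈ strongP A B T r', ∀ y' ∈ strongP A B T (r'.1, !r'.2),
      p + q = x + y → p' + q' = x' + y' → p - x = p' - x' → r = r' := by
  obtain ⟨t, σ⟩ := s
  obtain ⟨u, τ⟩ := r
  obtain ⟨u', τ'⟩ := r'
  obtain rfl : τ = τ' := hr
  intro p hp q hq p' hp' q' _ x hx y hy x' hx' y' _ e1 _ e3
  refine Prod.ext (Subtype.ext ?_) rfl
  cases σ <;> cases τ
  · exact h.2 u t u' y (strong_mem_t.1 hy) q (strong_mem_t.1 hq) (-p') (strong_mem_f.1 hp')
      (-x') (strong_mem_f.1 hx') (by linear_combination (norm := abel1) e3 - e1)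
  · exact (h.2 u' t u x' (strong_mem_t.1 hx') q (strong_mem_t.1 hq) (-p') (strong_mem_f.1 hp')
      (-y) (strong_mem_f.1 hy) (by linear_combination (norm := abel1) e3 - e1)).symm
  · exact h.2 u t u' y (strong_mem_t.1 hy) p' (strong_mem_t.1 hp') (-q) (strong_mem_f.1 hq)
      (-x') (strong_mem_f.1 hx') (by linear_combination (norm := abel1) e3 - e1)
  · exact (h.2 u' t u x' (strong_mem_t.1 hx') p' (strong_mem_t.1 hp') (-q) (strong_mem_f.1 hq)
      (-y) (strong_mem_f.1 hy) (by linear_combination (norm := abel1) e3 - e1)).symm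

theorem strong_sum (A B : ι → Finset G) (T : Finset ι) :
    ∑ i ∈ T, (A i).card * (B i).card ≤
      ∑ s : T × Bool, (strongP A B T s).card * (strongP A B T (s.1, !s.2)).card := by
  rw [Fintype.sum_prod_type, ← Finset.sum_coe_sort T]
  refine Finset.sum_le_sum fun t _ => ?_
  rw [Fintype.sum_bool, Bool.not_true, strong_card_t, strong_card_f]
  exact Nat.le_add_right _ _

end

theorem strong_log {n : ℕ} {y : ℝ} (hy : 1 ≤ y) (h : (n : ℝ) ≤ y) : Real.log n ≤ Real.log y := by
  rcases Nat.eq_zero_or_pos n with rfl | hn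
  · simpa using Real.log_nonneg hy
  · exact Real.log_le_log (Nat.cast_pos.2 hn) h

theorem strong : ∃ c : ℝ, 0 < c ∧ ∀ (G ι : Type) [AddCommGroup G] [Fintype G] [Fintype ι]
    (A B : ι → Finset G), Sdpp A B → ¬ Beats A B c := by
  by_contra hcon
  have key : ∀ k : ℕ, ∃ (G ι : Type) (_ : AddCommGroup G) (_ : Fintype G) (A B : ι → Finset G)
      (T : Finset ι), Sdpp A B ∧ k + 2 ≤ Fintype.card G ∧
      8 ≤ (Fintype.card G : ℝ) ^ (1 / ((k : ℝ) + 4) / 2) ∧
      (T.card : ℝ) ≤ (Fintype.card G : ℝ) ^ (1 / 2 + 1 / ((k : ℝ) + 4)) ∧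
      (∀ i ∈ T, ((A i).card : ℝ) ≤ (Fintype.card G : ℝ) ^ (1 / 2 + 1 / ((k : ℝ) + 4)) ∧
        ((B i).card : ℝ) ≤ (Fintype.card G : ℝ) ^ (1 / 2 + 1 / ((k : ℝ) + 4))) ∧
      (Fintype.card G : ℝ) ^ (3 / 2 - 1 / ((k : ℝ) + 4)) ≤
        ∑ i ∈ T, (((A i).card * (B i).card : ℕ) : ℝ) := by
    intro k
    have hk : (0 : ℝ) ≤ k := Nat.cast_nonneg k
    have hc : (0 : ℝ) < 1 / ((k : ℝ) + 4) := by positivity
    have hc1 : 1 / ((k : ℝ) + 4) ≤ 1 / 4 := one_div_le_one_div_of_le (by norm_num) (by linarith)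
    obtain ⟨G, ι, _, _, _, A, B, hs, hb⟩ : ∃ (G ι : Type) (_ : AddCommGroup G) (_ : Fintype G)
        (_ : Fintype ι) (A B : ι → Finset G), Sdpp A B ∧ Beats A B (1 / ((k : ℝ) + 4)) := by
      by_contra h
      exact hcon ⟨_, hc, fun G ι _ _ _ A B hs hb => h ⟨G, ι, _, _, _, A, B, hs, hb⟩⟩
    obtain ⟨G', ι', _, _, _, A', B', hs', hb', hN⟩ :=
      tensor hs hc hb (max (k + 2) (8 ^ (2 * (k + 4))))
    have h8 : 8 ≤ (Fintype.card G' : ℝ) ^ (1 / ((k : ℝ) + 4) / 2) := by
      have h1 : (8 : ℝ) ^ (2 * (k + 4)) ≤ Fintype.card G' := by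
        exact_mod_cast (le_max_right _ _).trans hN
      have h2 := Real.rpow_le_rpow (by positivity) h1 (z := 1 / ((k : ℝ) + 4) / 2) (by positivity)
      rw [← Real.rpow_natCast, ← Real.rpow_mul (by norm_num)] at h2
      have h3 : ((2 * (k + 4) : ℕ) : ℝ) * (1 / ((k : ℝ) + 4) / 2) = 1 := by
        push_cast
        field_simp
      rwa [h3, Real.rpow_one] at h2
    obtain ⟨T, h1, h2, h3⟩ := prune hs' hc hc1 hb' h8
    exact ⟨G', ι', _, _, A', B', T, hs', (le_max_left _ _).trans hN, h8, h1, h2, h3⟩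
  choose G ι grp fin A B T hs hN h8 hT hAB hsum using key
  have hN1 : ∀ k, (1 : ℝ) < Fintype.card (G k) := fun k => by
    have := hN k
    exact_mod_cast (show 1 < Fintype.card (G k) by omega)
  have hN0 : ∀ k, (0 : ℝ) < Fintype.card (G k) := fun k => by linarith [hN1 k]
  have hlog : ∀ k, 0 < Real.log (Fintype.card (G k)) := fun k => Real.log_pos (hN1 k)
  have hc : ∀ k : ℕ, (0 : ℝ) < 1 / ((k : ℝ) + 4) := fun k => by positivity
  have hone : ∀ k : ℕ, (1 : ℝ) ≤ (Fintype.card (G k) : ℝ) ^ (1 / 2 + 1 / ((k : ℝ) + 4)) := fun k =>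
    Real.one_le_rpow (hN1 k).le (by linarith [hc k])
  have hbig : ∀ k : ℕ, (Fintype.card (G k) : ℝ) ^ (3 / 2 - 1 / ((k : ℝ) + 4)) ≤
      ((∑ s : T k × Bool, (strongP (A k) (B k) (T k) s).card *
        (strongP (A k) (B k) (T k) (s.1, !s.2)).card : ℕ) : ℝ) := fun k => by
    refine (hsum k).trans ?_
    rw [← Nat.cast_sum]
    exact Nat.cast_le.2 (strong_sum _ _ _)
  refine no_fam
    { G := G, grp := grp, fin := fin, Lab := fun k => T k × Bool, finL := fun _ => inferInstance
      fl := fun _ s => (s.1, !s.2), sg := fun _ s => s.2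
      P := fun k => strongP (A k) (B k) (T k)
      L := fun k => Real.log (Fintype.card (G k)) / 2
      η := fun k => 4 * (1 / ((k : ℝ) + 4))
      L_pos := fun k => by linarith [hlog k]
      L_top := ?_, η_zero := ?_
      η_nonneg := fun k => by linarith [hc k]
      fl_fl := fun k s => by simp
      direct := fun k s => strong_direct (hs k) (T k) s
      det := fun k s r r' => strong_det (hs k) (T k) s r r'
      cardG := fun k => by nlinarith [hlog k, hc k]
      cardLab := fun k => ?_, cardP := fun k s => ?_, ne := fun k => ?_, many := fun k => ?_ }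
  · refine Tendsto.atTop_div_const (by norm_num) (Real.tendsto_log_atTop.comp ?_)
    refine tendsto_atTop_mono (fun k => ?_) tendsto_natCast_atTop_atTop
    exact Nat.cast_le.2 (by have := hN k; omega)
  · have h1 : Tendsto (fun k : ℕ => ((k : ℝ) + 4)⁻¹) atTop (𝓝 0) :=
      tendsto_inv_atTop_zero.comp (tendsto_atTop_add_const_right _ _ tendsto_natCast_atTop_atTop)
    simpa using h1.const_mul 4
  · have h1 : ((Fintype.card (T k × Bool) : ℕ) : ℝ) ≤
        8 * (Fintype.card (G k) : ℝ) ^ (1 / 2 + 1 / ((k : ℝ) + 4)) := by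
      rw [Fintype.card_prod, Fintype.card_coe, Fintype.card_bool]
      push_cast
      linarith [hT k, hone k]
    have h2 := strong_log (by linarith [hone k]) h1
    have h3 := Real.log_le_log (by norm_num) (h8 k)
    rw [Real.log_mul (by norm_num) (by linarith [hone k]), Real.log_rpow (hN0 k)] at h2
    rw [Real.log_rpow (hN0 k)] at h3
    nlinarith [hlog k, hc k]
  · have h1 : ((strongP (A k) (B k) (T k) s).card : ℝ) ≤
        (Fintype.card (G k) : ℝ) ^ (1 / 2 + 1 / ((k : ℝ) + 4)) := by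
      obtain ⟨t, _ | _⟩ := s
      · rw [strong_card_f]
        exact (hAB k t t.2).2
      · rw [strong_card_t]
        exact (hAB k t t.2).1
    have h2 := strong_log (hone k) h1
    rw [Real.log_rpow (hN0 k)] at h2
    nlinarith [hlog k, hc k]
  · exact Nat.cast_pos.1 ((Real.rpow_pos_of_pos (hN0 k) _).trans_le (hbig k))
  · have h2 := Real.log_le_log (Real.rpow_pos_of_pos (hN0 k) _) (hbig k)
    rw [Real.log_rpow (hN0 k)] at h2
    nlinarith [hlog k, hc k]

end Pool.Agent.P.MP_e72dc0_lc.TF
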