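import Pool.Agent.P.MP_e72dc0_lc.TF.Pair
import Pool.Agent.P.MP_e72dc0_lc.TF.Step

namespace Pool.Agent.P.MP_e72dc0_lc.TF

open Pool.Agent.P.MP_db4732_co.Ent Filter Topology

variable {F : Fam} {S S' : Sys F}

theorem Tadd_ctx (Λ c x : RV S) : Λ ⊓ (x ⊓ c) = Λ ⊓ c ⊓ x := by
  rw [inf_comm x c, inf_assoc]

theorem Tadd_nil {Λ : RV S} {d : Pt S} {u : Lb S} (h : Free Λ d [u]) :
    Addi Λ d (Λ ⊓ cq d []) u := by
  have hu : In u d := h.inc u (by simp)
  have lu : Λ ≤ rv u := h.le u (by simp)
  have h1 := H_mem hu.memP lu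
  have h2 := H_mem (V := Λ) hu.memQ (by rw [rv_fl]; exact lu)
  have h3 := h.pt
  unfold Addi
  rw [cq_nil, inf_top_eq]
  linarith

theorem Tadd_one {Λ : RV S} {d : Pt S} {u s : Lb S} (h : Free Λ d [u, s]) :
    Addi Λ d (Λ ⊓ cq d [s]) u := by
  have h1 := pair (h.perm (List.Perm.swap s u []))
  have h2 := pair (h.flip.perm (List.Perm.swap s (fl u) []))
  have h3 := single (h.sublist (List.Sublist.cons u (List.Sublist.refl [s])))
  rw [qP_fl] at h2
  unfold Addi
  rw [cq_cons, cq_nil, inf_top_eq]
  linarith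

theorem Tadd_aux {Λ : RV S} {d : Pt S} (n : ℕ) : ∀ (u : Lb S) (l : List (Lb S)), l.length ≤ n →
    Free Λ d (u :: l) → Addi Λ d (Λ ⊓ cq d l) u := by
  induction n with
  | zero =>
    intro u l hl h
    have : l = [] := List.length_eq_zero_iff.mp (Nat.le_zero.mp hl)
    subst this
    exact Tadd_nil h
  | succ n ih =>
    intro u l hl h
    match l, hl, h with
    | [], _, h => exact Tadd_nil h
    | [s], _, h => exact Tadd_one h
    | s :: t :: l', hl, h =>
      have hl1 : l'.length + 1 ≤ n := by simpa using hl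
      have hst : Free Λ d (s :: t :: l') := h.sublist (List.Sublist.cons u (List.Sublist.refl _))
      have hts : Free Λ d (t :: s :: l') := hst.perm (List.Perm.swap t s l')
      have hs1 : Free Λ d (s :: l') := hts.sublist (List.Sublist.cons t (List.Sublist.refl _))
      have hl' : Free Λ d l' := hs1.sublist (List.Sublist.cons s (List.Sublist.refl _))
      have hfs : Free Λ d (t :: fl s :: l') := hst.flip.perm (List.Perm.swap t (fl s) l')
      have hus : Free Λ d (u :: s :: l') :=
        h.sublist (List.Sublist.cons_cons u (List.Sublist.cons_cons s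
          (List.Sublist.cons t (List.Sublist.refl _))))
      have hut : Free Λ d (u :: t :: l') :=
        h.sublist (List.Sublist.cons_cons u (List.Sublist.cons s (List.Sublist.refl _)))
      have A1 := ih s l' (by omega) hs1
      have A2 := ih t (fl s :: l') (by simpa using hl1) hfs
      have A3 := ih t (s :: l') (by simpa using hl1) hts
      have A4 := ih s (t :: l') (by simpa using hl1) hst
      have A5 := ih u (s :: l') (by simpa using hl1) hus
      have A6 := ih u (t :: l') (by simpa using hl1) hut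
      rw [cq_cons, Tadd_ctx] at A2 A3 A4 A5 A6
      rw [qP_fl] at A2
      have key := tstep (Θ := Λ ⊓ cq d l') (h.inc s (by simp)) (h.inc t (by simp))
        (h.inc u (by simp)) (h.le s (by simp)) (h.le t (by simp)) (h.le u (by simp))
        (le_inf inf_le_left hl'.le_cq) inf_le_left A1 A2 A3 A4 A5 A6
      have e : Λ ⊓ cq d (s :: t :: l') = Λ ⊓ cq d l' ⊓ rv (qP s d) ⊓ rv (qP t d) := by
        rw [cq_cons, cq_cons, ← inf_assoc (rv (qP s d)), Tadd_ctx, ← inf_assoc]
      rw [e]
      exact key

theorem addT {Λ : RV S} {d : Pt S} {u : Lb S} {l : List (Lb S)} (h : Free Λ d (u :: l)) :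
    Addi Λ d (Λ ⊓ cq d l) u :=
  Tadd_aux l.length u l le_rfl h

end Pool.Agent.P.MP_e72dc0_lc.TF
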