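import Pool.Agent.P.MP_e72dc0_lc.TF.Tadd

namespace Pool.Agent.P.MP_e72dc0_lc.TF

open Pool.Agent.P.MP_db4732_co.Ent Filter Topology

variable {F : Fam} {S S' : Sys F}

section
variable {t a b : Lb S} {d d0 d1 d2 : Pt S}

theorem tri_one (s : Lb S) : H (rv s) ≤ 1 := by
  have := H_lb ⊤ s
  rwa [top_inf_eq, H_top, zero_add] at this

theorem tri_two (s u : Lb S) : H (rv s ⊓ rv u) ≤ 2 := by
  linarith [H_lb (rv s) u, tri_one s]

theorem Fr3.swap12 (h : Fr3 t a b d) : Fr3 a t b d := by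
  refine ⟨?_, h.ia, h.it, h.ib, ?_⟩
  · rw [inf_comm (rv a)]
    exact h.lab
  · rw [inf_comm (rv a)]
    exact h.pt

theorem Fr3.swap23 (h : Fr3 t a b d) : Fr3 t b a d := by
  refine ⟨?_, h.it, h.ib, h.ia, ?_⟩
  · rw [inf_right_comm (rv t)]
    exact h.lab
  · rw [inf_right_comm (rv t)]
    exact h.pt

theorem Fr3.flip1 (h : Fr3 t a b d) : Fr3 (fl t) a b d := by
  refine ⟨?_, h.it.flip, h.ia, h.ib, ?_⟩
  · rw [rv_fl]
    exact h.lab
  · rw [rv_fl]
    exact h.pt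

theorem Fr3.flip2 (h : Fr3 t a b d) : Fr3 t (fl a) b d := by
  exact h.swap12.flip1.swap12

theorem Fr3.flip3 (h : Fr3 t a b d) : Fr3 t a (fl b) d := by
  exact h.swap23.flip2.swap23

theorem Fr3.pull (h : Fr3 t a b d) (π : Ext S' S) : Fr3 (π.fn t) (π.fn a) (π.fn b) (π.fn d) := by
  exact ⟨h.lab.trans (π.H_rv _).ge, h.it.pull π, h.ia.pull π, h.ib.pull π,
    h.pt.trans (π.H_rv _).ge⟩

theorem Fr3.H3 (h : Fr3 t a b d) : H (rv t ⊓ rv a ⊓ rv b) = 3 := by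
  linarith [h.lab, H_lb (rv t ⊓ rv a) b, tri_two t a]

theorem Fr3.H3d (h : Fr3 t a b d) : H (rv t ⊓ rv a ⊓ rv b ⊓ rv d) = 5 := by
  linarith [h.pt, h.H3, H_pt (rv t ⊓ rv a ⊓ rv b) d]

theorem Fr3.H2 (h : Fr3 t a b d) : H (rv a ⊓ rv b) = 2 := by
  have h1 := H_lb (rv a ⊓ rv b) t
  rw [inf_comm _ (rv t), ← inf_assoc] at h1
  linarith [h.lab, tri_two a b]

theorem Fr3.H2d (h : Fr3 t a b d) : H (rv a ⊓ rv b ⊓ rv d) = 4 := by
  have h1 := H_lb (rv a ⊓ rv b ⊓ rv d) t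
  rw [inf_comm _ (rv t), ← inf_assoc, ← inf_assoc] at h1
  linarith [h.pt, h.H2, H_pt (rv a ⊓ rv b) d]

theorem Fr3.H1 (h : Fr3 t a b d) : H (rv a) = 1 := by
  linarith [h.H2, H_lb (rv a) b, tri_one a]

theorem Fr3.H1d (h : Fr3 t a b d) : H (rv a ⊓ rv d) = 3 := by
  have h1 := H_lb (rv a ⊓ rv d) b
  rw [inf_right_comm] at h1
  linarith [h.H2d, h.H1, H_pt (rv a) d]

theorem Fr3.H0d (h : Fr3 t a b d) : H (rv d) = 2 := by
  have h1 := H_lb (rv d) a
  have h2 := H_pt ⊤ d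
  rw [inf_comm] at h1
  rw [top_inf_eq, H_top] at h2
  linarith [h.H1d]

theorem Fr3.free3 (h : Fr3 t a b d) : Free (rv t ⊓ rv a ⊓ rv b) d [t, a, b] := by
  refine ⟨?_, ?_, by linarith [h.H3, h.H3d], ?_, ?_⟩
  · simp only [List.forall_mem_cons]
    exact ⟨h.it, h.ia, h.ib, by simp⟩
  · simp only [List.forall_mem_cons]
    exact ⟨inf_le_left.trans inf_le_left, inf_le_left.trans inf_le_right, inf_le_right, by simp⟩
  · simp only [List.forall_mem_cons]
    exact ⟨h.swap12.H1.ge, h.H1.ge, h.swap23.H1.ge, by simp⟩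
  · simp only [List.pairwise_cons, List.forall_mem_cons]
    exact ⟨⟨h.swap23.swap12.H2.ge, h.swap12.H2.ge, by simp⟩, ⟨h.H2.ge, by simp⟩, by simp, by simp⟩

theorem Fr3.free2 (h : Fr3 t a b d) : Free (rv a ⊓ rv b) d [a, b] := by
  refine ⟨?_, ?_, by linarith [h.H2, h.H2d], ?_, ?_⟩
  · simp only [List.forall_mem_cons]
    exact ⟨h.ia, h.ib, by simp⟩
  · simp only [List.forall_mem_cons]
    exact ⟨inf_le_left, inf_le_right, by simp⟩
  · simp only [List.forall_mem_cons]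
    exact ⟨h.H1.ge, h.swap23.H1.ge, by simp⟩
  · simp only [List.pairwise_cons, List.forall_mem_cons]
    exact ⟨⟨h.H2.ge, by simp⟩, by simp, by simp⟩

theorem Fr3.free1 (h : Fr3 t a b d) : Free (rv a) d [a] := by
  refine ⟨?_, ?_, by linarith [h.H1, h.H1d], ?_, by simp⟩
  · simp only [List.forall_mem_cons]
    exact ⟨h.ia, by simp⟩
  · simp only [List.forall_mem_cons]
    exact ⟨le_rfl, by simp⟩
  · simp only [List.forall_mem_cons]
    exact ⟨h.H1.ge, by simp⟩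

theorem co_swap12 : co a t b d = co t a b d := by
  unfold co
  rw [inf_comm (rv a), inf_right_comm _ (rv (qP a d))]

theorem co_swap23 : co t b a d = co t a b d := by
  unfold co
  rw [inf_right_comm (rv t), inf_right_comm _ (rv (qP b d))]

theorem co_pull (π : Ext S' S) : co (π.fn t) (π.fn a) (π.fn b) (π.fn d) = co t a b d := by
  exact π.H_rv (rv t ⊓ rv a ⊓ rv b ⊓ rv (qP t d) ⊓ rv (qP a d) ⊓ rv (qP b d))

/-- the two atoms add up to a quarter of size one half -/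
theorem Fr3.co_add (h : Fr3 t a b d) : co t a b d + co t a (fl b) d = 19 / 2 := by
  have f3 := h.free3
  have h1 := addT (u := b) (l := [t, a])
    (f3.perm (List.perm_append_comm (l₁ := [t, a]) (l₂ := [b])))
  have h2 := superadd (Λ := rv t ⊓ rv a ⊓ rv b)
    (Θ := rv t ⊓ rv a ⊓ rv b ⊓ rv (qP t d) ⊓ rv (qP a d)) h.ib (inf_le_left.trans inf_le_left)
  have h3 := pair (f3.sublist (List.sublist_append_left [t, a] [b]))
  unfold Addi at h1
  simp only [cq_cons, cq_nil, inf_top_eq, ← inf_assoc] at h1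
  unfold co
  rw [rv_fl, qP_fl]
  linarith [h.H3d]

end

end Pool.Agent.P.MP_e72dc0_lc.TF
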