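import Pool.Agent.P.MP_e72dc0_lc.TF.Tri

namespace Pool.Agent.P.MP_e72dc0_lc.TF

open Pool.Agent.P.MP_db4732_co.Ent Filter Topology

variable {F : Fam} {S S' : Sys F}

section
variable {t a b : Lb S} {d d0 d1 d2 : Pt S}

theorem Valid.co1 (h : Valid t a b d0 d1 d2) : co t a b d1 = co t a b d0 := by
  unfold co
  rw [h.t1, h.a1, h.b1]

theorem Valid.co2 (h : Valid t a b d0 d1 d2) : co t a b d2 = co t a b d0 := by
  unfold co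
  rw [h.t2, h.a2, h.b2]

theorem Valid.swap12 (h : Valid t a b d0 d1 d2) : Valid a t b d0 d1 d2 := by
  refine ⟨h.f0.swap12, h.f1.swap12, h.f2.swap12, h.a1, h.a2, h.t1, h.t2, h.b1, h.b2, ?_⟩
  have := h.full
  rw [co_swap12, inf_comm (rv a) (rv t)]
  exact this

theorem Valid.swap23 (h : Valid t a b d0 d1 d2) : Valid t b a d0 d1 d2 := by
  refine ⟨h.f0.swap23, h.f1.swap23, h.f2.swap23, h.t1, h.t2, h.b1, h.b2, h.a1, h.a2, ?_⟩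
  have := h.full
  rw [co_swap23, inf_right_comm (rv t) (rv b) (rv a)]
  exact this

theorem Valid.pswap01 (h : Valid t a b d0 d1 d2) : Valid t a b d1 d0 d2 := by
  refine ⟨h.f1, h.f0, h.f2, h.t1.symm, h.t2.trans h.t1.symm, h.a1.symm, h.a2.trans h.a1.symm,
    h.b1.symm, h.b2.trans h.b1.symm, ?_⟩
  have := h.full
  rw [h.co1, inf_right_comm (rv t ⊓ rv a ⊓ rv b) (rv d1) (rv d0)]
  exact this

theorem Valid.pswap12 (h : Valid t a b d0 d1 d2) : Valid t a b d0 d2 d1 := by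
  refine ⟨h.f0, h.f2, h.f1, h.t2, h.t1, h.a2, h.a1, h.b2, h.b1, ?_⟩
  have := h.full
  rw [inf_right_comm (rv t ⊓ rv a ⊓ rv b ⊓ rv d0) (rv d2) (rv d1)]
  exact this

theorem Valid.pull (h : Valid t a b d0 d1 d2) (π : Ext S' S) :
    Valid (π.fn t) (π.fn a) (π.fn b) (π.fn d0) (π.fn d1) (π.fn d2) := by
  refine ⟨h.f0.pull π, h.f1.pull π, h.f2.pull π, congrArg π.fn h.t1, congrArg π.fn h.t2,
    congrArg π.fn h.a1, congrArg π.fn h.a2, congrArg π.fn h.b1, congrArg π.fn h.b2, ?_⟩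
  have h1 := π.H_rv (rv t ⊓ rv a ⊓ rv b ⊓ rv d0 ⊓ rv d1 ⊓ rv d2)
  simp only [Ext.rv_inf, Ext.rv_rv] at h1
  rw [h1, co_pull]
  exact h.full

theorem tri2_le (t a b : Lb S) (d : Pt S) : rv t ⊓ rv a ⊓ rv b ⊓ rv d ≤
    rv t ⊓ rv a ⊓ rv b ⊓ rv (qP t d) ⊓ rv (qP a d) ⊓ rv (qP b d) := by
  have := le_qP t d
  have := le_qP a d
  have := le_qP b d
  order

theorem tri2_bounds (h : Valid t a b d0 d1 d2) :
    H (rv t ⊓ rv a ⊓ rv b ⊓ rv d0 ⊓ rv d1) + co t a b d0 ≤ 10 ∧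
    H (rv t ⊓ rv a ⊓ rv b ⊓ rv d0 ⊓ rv d1 ⊓ rv d2) + co t a b d0 ≤
      H (rv t ⊓ rv a ⊓ rv b ⊓ rv d0 ⊓ rv d1) + 5 := by
  have l0 := tri2_le t a b d0
  have l1 := tri2_le t a b d1
  have l2 := tri2_le t a b d2
  rw [h.t1, h.a1, h.b1] at l1
  rw [h.t2, h.a2, h.b2] at l2
  have e0 := h.f0.H3d
  have e1 := h.f1.H3d
  have e2 := h.f2.H3d
  have s1 := H_sub _ _ _ (rv t ⊓ rv a ⊓ rv b ⊓ rv d0 ⊓ rv d1) l0 l1 (by order)
  have s2 := H_sub (rv t ⊓ rv a ⊓ rv b ⊓ rv d0 ⊓ rv d1) _ _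
    (rv t ⊓ rv a ⊓ rv b ⊓ rv d0 ⊓ rv d1 ⊓ rv d2) (inf_le_left.trans l0) l2 (by order)
  unfold co
  constructor <;> linarith

/-- two of the three points -/
theorem Valid.H01 (h : Valid t a b d0 d1 d2) :
    H (rv t ⊓ rv a ⊓ rv b ⊓ rv d0 ⊓ rv d1) = 10 - co t a b d0 := by
  obtain ⟨h1, h2⟩ := tri2_bounds h
  have := h.full
  linarith

theorem Valid.H012 (h : Valid t a b d0 d1 d2) :
    H (rv t ⊓ rv a ⊓ rv b ⊓ rv d0 ⊓ rv d1 ⊓ rv d2) = 15 - 2 * co t a b d0 := by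
  obtain ⟨h1, h2⟩ := tri2_bounds h
  have := h.full
  linarith

/-- a new point in the atom of `d` -/
theorem tri2_new (h : Fr3 t a b d) : ∃ (S' : Sys F) (π : Ext S' S) (e : Pt S'),
    Fr3 (π.fn t) (π.fn a) (π.fn b) e ∧ qP (π.fn t) e = qP (π.fn t) (π.fn d) ∧
    qP (π.fn a) e = qP (π.fn a) (π.fn d) ∧ qP (π.fn b) e = qP (π.fn b) (π.fn d) ∧
    ∀ W : RV S, W ≤ rv t ⊓ rv a ⊓ rv b ⊓ rv d → H (π.rv W ⊓ rv e) = H W + 5 - co t a b d := by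
  obtain ⟨S', π₁, π₂, -, e2, ind⟩ :=
    copy S (rv t ⊓ rv a ⊓ rv b ⊓ rv (qP t d) ⊓ rv (qP a d) ⊓ rv (qP b d))
  have et := e2 _ t (by order)
  have ea := e2 _ a (by order)
  have eb := e2 _ b (by order)
  have qt := e2 _ (qP t d) (by order)
  have qa := e2 _ (qP a d) (by order)
  have qb := e2 _ (qP b d) (by order)
  simp only [Ext.fn_qP, et, ea, eb] at qt qa qb
  have hf := h.pull π₂
  rw [et, ea, eb] at hf
  refine ⟨S', π₁, π₂.fn d, hf, qt, qa, qb, fun W hW => ?_⟩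
  have l0 := tri2_le t a b d
  have h1 := ind W _ (hW.trans l0) l0
  have h2 := π₁.mono hW
  simp only [Ext.rv_inf, Ext.rv_rv, et, ea, eb] at h1 h2
  rw [h.H3d] at h1
  unfold co
  rw [← h1]
  exact H_congr (by order) (by order)

theorem Fr3.valid (h : Fr3 t a b d) : ∃ (S' : Sys F) (π : Ext S' S) (d1 d2 : Pt S'),
    Valid (π.fn t) (π.fn a) (π.fn b) (π.fn d) d1 d2 := by
  obtain ⟨S1, π, e, f1, qt, qa, qb, h1⟩ := tri2_new h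
  obtain ⟨S2, ρ, e', f2, qt', qa', qb', h2⟩ := tri2_new (h.pull π)
  refine ⟨S2, ρ.comp π, ρ.fn e, e', h.pull _, f1.pull ρ, f2, congrArg ρ.fn qt, qt',
    congrArg ρ.fn qa, qa', congrArg ρ.fn qb, qb', ?_⟩
  have k1 := h1 _ le_rfl
  have k2 := h2 (π.rv (rv t ⊓ rv a ⊓ rv b ⊓ rv d) ⊓ rv e) inf_le_left
  rw [k1, co_pull, h.H3d] at k2
  rw [co_pull]
  simp only [Ext.rv_inf, Ext.rv_rv] at k2
  simp only [Ext.comp_fn]
  linarith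

end

/-- a new label through the point `d` -/
theorem tri2_lab {s : Lb S} {d : Pt S} (hs : In s d) (h : 3 ≤ H (rv s ⊓ rv d)) :
    ∃ (S' : Sys F) (π : Ext S' S) (r : Lb S'), In r (π.fn d) ∧
      ∀ W : RV S, W ≤ rv d → H W + 1 ≤ H (π.rv W ⊓ rv r) := by
  obtain ⟨S', π₁, π₂, -, e2, ind⟩ := copy S (rv d)
  have ed := e2 _ d le_rfl
  have hi := hs.pull π₂
  rw [ed] at hi
  refine ⟨S', π₁, π₂.fn s, hi, fun W hW => ?_⟩
  have h1 := ind W (rv s ⊓ rv d) hW inf_le_right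
  have h2 := π₁.mono hW
  simp only [Ext.rv_inf, Ext.rv_rv, ed] at h1 h2
  have h3 := H_pt (⊤ : RV S) d
  rw [top_inf_eq, H_top] at h3
  have h4 : H (π₁.rv W ⊓ rv (π₂.fn s)) = H (π₁.rv W ⊓ (rv (π₂.fn s) ⊓ rv (π₁.fn d))) :=
    H_congr (by order) (by order)
  linarith

theorem exist3 (F : Fam) : ∃ (S : Sys F) (t a b : Lb S) (d : Pt S), Fr3 t a b d := by
  obtain ⟨S, d, s, hs, h⟩ := exist0 F
  obtain ⟨S1, π, r, hr, h1⟩ := tri2_lab hs h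
  have h' : 3 ≤ H (rv (π.fn s) ⊓ rv (π.fn d)) := by
    have := π.H_rv (rv s ⊓ rv d)
    simp only [Ext.rv_inf, Ext.rv_rv] at this
    linarith
  obtain ⟨S2, ρ, u, hu, h2⟩ := tri2_lab (hs.pull π) h'
  have k1 := h1 (rv s ⊓ rv d) inf_le_right
  have k2 := h2 (π.rv (rv s ⊓ rv d) ⊓ rv r) (inf_le_left.trans (π.mono inf_le_right))
  simp only [Ext.rv_inf, Ext.rv_rv] at k1 k2
  have k3 : H (rv (ρ.fn (π.fn s)) ⊓ rv (ρ.fn r) ⊓ rv u ⊓ rv (ρ.fn (π.fn d))) =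
      H (rv (ρ.fn (π.fn s)) ⊓ rv (ρ.fn (π.fn d)) ⊓ rv (ρ.fn r) ⊓ rv u) :=
    H_congr (by order) (by order)
  have k4 := H_pt (rv (ρ.fn (π.fn s)) ⊓ rv (ρ.fn r) ⊓ rv u) (ρ.fn (π.fn d))
  exact ⟨S2, ρ.fn (π.fn s), ρ.fn r, u, ρ.fn (π.fn d), by linarith, (hs.pull π).pull ρ,
    hr.pull ρ, hu, by linarith⟩

end Pool.Agent.P.MP_e72dc0_lc.TF
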