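import Pool.Agent.P.MP_e72dc0_lc.TF.Copy
import Pool.Agent.P.MP_e72dc0_lc.TF.Grp

namespace Pool.Agent.P.MP_e72dc0_lc.TF

open Pool.Agent.P.MP_db4732_co.Ent Filter Topology

variable {F : Fam} {S S' : Sys F}

/-- the entropy computation behind `w1`, inside one system -/
theorem W1_core {U c W : RV S} {d e : Pt S} {T : Lb S} (hq : qP T e = qP T d)
    (cd : U ⊓ rv d ≤ c) (ce : U ⊓ rv e ≤ c)
    (hfree : H (U ⊓ rv d) + 1 ≤ H (U ⊓ rv d ⊓ rv T))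
    (h1 : H (U ⊓ rv d ⊓ W) + H (U ⊓ rv d ⊓ rv e) ≤ H (U ⊓ rv d ⊓ rv e ⊓ W) + H (U ⊓ rv d))
    (h2 : H (U ⊓ rv e ⊓ W) + H (U ⊓ rv d ⊓ rv e) ≤ H (U ⊓ rv d ⊓ rv e ⊓ W) + H (U ⊓ rv e))
    (h3 : H (U ⊓ rv T ⊓ rv d) + H (U ⊓ rv T ⊓ rv e) ≤
      H (U ⊓ rv T ⊓ rv d ⊓ rv e) + H (U ⊓ c ⊓ rv T ⊓ rv (qP T d)))
    (ind : H (U ⊓ rv d ⊓ rv e ⊓ W ⊓ rv T) =
      H (U ⊓ rv d ⊓ rv e ⊓ W) + H (U ⊓ rv T ⊓ rv d ⊓ rv e) - H (U ⊓ rv d ⊓ rv e)) :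
    Meas U c W d T ∧ H (U ⊓ rv d ⊓ W) + 1 ≤ H (U ⊓ rv d ⊓ W ⊓ rv T) := by
  have qd := le_qP T d
  have qe := le_qP T e
  rw [hq] at qe
  constructor
  · unfold Meas
    have s1 := H_sub (U ⊓ rv e ⊓ W) (U ⊓ rv T ⊓ rv e) (U ⊓ rv e) (U ⊓ rv T ⊓ rv e ⊓ W)
      (by order) (by order) (by order)
    have s2 := H_sub (U ⊓ rv T ⊓ rv e ⊓ W) (U ⊓ rv T ⊓ rv d ⊓ W)
      (U ⊓ c ⊓ rv T ⊓ rv (qP T d) ⊓ W) (U ⊓ rv d ⊓ rv e ⊓ W ⊓ rv T)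
      (by order) (by order) (by order)
    linarith
  · have s1 := H_sub (U ⊓ rv d ⊓ W ⊓ rv T) (U ⊓ rv T ⊓ rv d ⊓ rv e) (U ⊓ rv d ⊓ rv T)
      (U ⊓ rv d ⊓ rv e ⊓ W ⊓ rv T) (by order) (by order) (by order)
    linarith

theorem W1_meas_pull {U c W : RV S} {d : Pt S} {t : Lb S} (h : Meas U c W d t) (π : Ext S' S) :
    Meas (π.rv U) (π.rv c) (π.rv W) (π.fn d) (π.fn t) := by
  unfold Meas at h ⊢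
  have a1 := π.H_rv (U ⊓ c ⊓ rv t ⊓ rv (qP t d) ⊓ W)
  have a2 := π.H_rv (U ⊓ rv t ⊓ rv d)
  have a3 := π.H_rv (U ⊓ rv t ⊓ rv d ⊓ W)
  have a4 := π.H_rv (U ⊓ c ⊓ rv t ⊓ rv (qP t d))
  simp only [Ext.rv_inf, Ext.rv_rv, Ext.fn_qP] at a1 a2 a3 a4
  linarith

theorem W1_lab_map (π : Ext S' S) (l : List (Lb S)) :
    lab (l.map fun s => π.fn s) = π.rv (lab l) := by
  induction l with
  | nil => rfl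
  | cons s l ih => rw [List.map_cons, lab_cons, lab_cons, ih]; rfl

/-- one label that is independent of `W` given `U, d` -/
theorem w1 {U c W : RV S} {d e : Pt S} {t : Lb S} (ht : In t d) (hq : qP t e = qP t d)
    (cd : U ⊓ rv d ≤ c) (ce : U ⊓ rv e ≤ c)
    (hfree : H (U ⊓ rv d) + 1 ≤ H (U ⊓ rv d ⊓ rv t))
    (h1 : H (U ⊓ rv d ⊓ W) + H (U ⊓ rv d ⊓ rv e) ≤ H (U ⊓ rv d ⊓ rv e ⊓ W) + H (U ⊓ rv d))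
    (h2 : H (U ⊓ rv e ⊓ W) + H (U ⊓ rv d ⊓ rv e) ≤ H (U ⊓ rv d ⊓ rv e ⊓ W) + H (U ⊓ rv e))
    (h3 : H (U ⊓ rv t ⊓ rv d) + H (U ⊓ rv t ⊓ rv e) ≤
      H (U ⊓ rv t ⊓ rv d ⊓ rv e) + H (U ⊓ c ⊓ rv t ⊓ rv (qP t d))) :
    ∃ (S' : Sys F) (π : Ext S' S) (t0 : Lb S'), In t0 (π.fn d) ∧
      Meas (π.rv U) (π.rv c) (π.rv W) (π.fn d) t0 ∧
      H (U ⊓ rv d ⊓ W) + 1 ≤ H (π.rv (U ⊓ rv d ⊓ W) ⊓ rv t0) := by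
  obtain ⟨S1, π₁, π₂, e1, e2, ind⟩ := copy S (U ⊓ rv d ⊓ rv e)
  have eU : π₂.rv U = π₁.rv U := e1 U (by order)
  have ec : π₂.rv c = π₁.rv c := e1 c (by order)
  have ed : π₂.fn d = π₁.fn d := e2 _ d (by order)
  have ee : π₂.fn e = π₁.fn e := e2 _ e (by order)
  have hin : In (π₂.fn t) (π₁.fn d) := ed ▸ ht.pull π₂
  have hq' : qP (π₂.fn t) (π₁.fn e) = qP (π₂.fn t) (π₁.fn d) := by
    rw [← ed, ← ee, ← Ext.fn_qP, ← Ext.fn_qP, hq]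
  have cd' : π₁.rv U ⊓ rv (π₁.fn d) ≤ π₁.rv c := π₁.mono cd
  have ce' : π₁.rv U ⊓ rv (π₁.fn e) ≤ π₁.rv c := π₁.mono ce
  have a1 := π₁.H_rv (U ⊓ rv d)
  have a2 := π₁.H_rv (U ⊓ rv e)
  have a3 := π₁.H_rv (U ⊓ rv d ⊓ W)
  have a4 := π₁.H_rv (U ⊓ rv e ⊓ W)
  have a5 := π₁.H_rv (U ⊓ rv d ⊓ rv e)
  have a6 := π₁.H_rv (U ⊓ rv d ⊓ rv e ⊓ W)
  have b1 := π₂.H_rv (U ⊓ rv d ⊓ rv t)
  have b2 := π₂.H_rv (U ⊓ rv t ⊓ rv d)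
  have b3 := π₂.H_rv (U ⊓ rv t ⊓ rv e)
  have b4 := π₂.H_rv (U ⊓ rv t ⊓ rv d ⊓ rv e)
  have b5 := π₂.H_rv (U ⊓ c ⊓ rv t ⊓ rv (qP t d))
  have i1 := ind (U ⊓ rv d ⊓ rv e ⊓ W) (U ⊓ rv t ⊓ rv d ⊓ rv e) (by order) (by order)
  simp only [Ext.rv_inf, Ext.rv_rv, Ext.fn_qP, eU, ec, ed, ee] at a1 a2 a3 a4 a5 a6 b1 b2 b3 b4 b5 i1
  have i2 : H (π₁.rv U ⊓ rv (π₁.fn d) ⊓ rv (π₁.fn e) ⊓ π₁.rv W ⊓ rv (π₂.fn t)) =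
      H (π₁.rv U ⊓ rv (π₁.fn d) ⊓ rv (π₁.fn e) ⊓ π₁.rv W ⊓
        (π₁.rv U ⊓ rv (π₂.fn t) ⊓ rv (π₁.fn d) ⊓ rv (π₁.fn e))) :=
    H_congr (by order) (by order)
  obtain ⟨m1, m2⟩ := W1_core (U := π₁.rv U) (c := π₁.rv c) (W := π₁.rv W) hq' cd' ce'
    (by linarith) (by linarith) (by linarith) (by linarith) (by linarith)
  refine ⟨S1, π₁, π₂.fn t, hin, m1, ?_⟩
  simp only [Ext.rv_inf, Ext.rv_rv]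
  linarith

/-- many independent such labels -/
theorem w2 {U c W : RV S} {d : Pt S} {t : Lb S} (cd : U ⊓ rv d ≤ c) (ht : In t d)
    (hM : Meas U c W d t) (hf : H (U ⊓ rv d ⊓ W) + 1 ≤ H (U ⊓ rv d ⊓ W ⊓ rv t)) (M : ℕ) :
    ∃ (S' : Sys F) (π : Ext S' S) (l : List (Lb S')), l.length = M ∧
      (∀ r ∈ l, In r (π.fn d) ∧ Meas (π.rv U) (π.rv c) (π.rv W) (π.fn d) r) ∧
      H (U ⊓ rv d ⊓ W) + M ≤ H (π.rv (U ⊓ rv d ⊓ W) ⊓ lab l) := by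
  induction M with
  | zero =>
    refine ⟨S, Ext.refl S, [], rfl, by simp, ?_⟩
    simp
  | succ M ih =>
    obtain ⟨S1, π, l, hl, hall, hH⟩ := ih
    obtain ⟨S2, π₁, π₂, e1, e2, ind⟩ := copy S1 (π.rv (U ⊓ rv d ⊓ W))
    have eU : π₂.rv (π.rv U) = π₁.rv (π.rv U) := e1 _ (π.mono (by order))
    have ec : π₂.rv (π.rv c) = π₁.rv (π.rv c) := e1 _ (π.mono (by order))
    have eW : π₂.rv (π.rv W) = π₁.rv (π.rv W) := e1 _ (π.mono (by order))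
    have eZ : π₂.rv (π.rv (U ⊓ rv d ⊓ W)) = π₁.rv (π.rv (U ⊓ rv d ⊓ W)) := e1 _ le_rfl
    have ed : π₂.fn (π.fn d) = π₁.fn (π.fn d) :=
      e2 _ (π.fn d) (π.mono (X := U ⊓ rv d ⊓ W) (Y := rv d) (by order))
    refine ⟨S2, π₁.comp π, π₂.fn (π.fn t) :: l.map (fun s => π₁.fn s), by simp [hl], ?_, ?_⟩
    · intro r hr
      simp only [Ext.comp_rv, Ext.comp_fn]
      rcases List.mem_cons.1 hr with rfl | hr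
      · refine ⟨ed ▸ (ht.pull π).pull π₂, ?_⟩
        have := W1_meas_pull (W1_meas_pull hM π) π₂
        rwa [eU, ec, eW, ed] at this
      · obtain ⟨s, hs, rfl⟩ := List.mem_map.1 hr
        exact ⟨(hall s hs).1.pull π₁, W1_meas_pull (hall s hs).2 π₁⟩
    · have i1 := ind (π.rv (U ⊓ rv d ⊓ W) ⊓ lab l) (π.rv (U ⊓ rv d ⊓ W) ⊓ rv (π.fn t))
        inf_le_left inf_le_left
      have a1 := π.H_rv (U ⊓ rv d ⊓ W)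
      have a2 := π.H_rv (U ⊓ rv d ⊓ W ⊓ rv t)
      rw [Ext.rv_inf, Ext.rv_rv] at a2
      rw [Ext.rv_inf π₁, Ext.rv_inf π₂, eZ, Ext.rv_rv] at i1
      rw [lab_cons, W1_lab_map, Ext.comp_rv]
      have i2 : H (π₁.rv (π.rv (U ⊓ rv d ⊓ W)) ⊓ (rv (π₂.fn (π.fn t)) ⊓ π₁.rv (lab l))) =
          H (π₁.rv (π.rv (U ⊓ rv d ⊓ W)) ⊓ π₁.rv (lab l) ⊓
            (π₁.rv (π.rv (U ⊓ rv d ⊓ W)) ⊓ rv (π₂.fn (π.fn t)))) :=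
        H_congr (by order) (by order)
      push_cast
      linarith

end Pool.Agent.P.MP_e72dc0_lc.TF
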