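import Pool.Agent.P.MP_e72dc0_lc.TF.Corner
import Pool.Agent.P.MP_e72dc0_lc.TF.W1

namespace Pool.Agent.P.MP_e72dc0_lc.TF

open Pool.Agent.P.MP_db4732_co.Ent Filter Topology

variable {F : Fam} {S S' : Sys F}

theorem w3_cq_append (d : Pt S) (a b : List (Lb S)) : cq d (a ++ b) = cq d a ⊓ cq d b := by
  induction a with
  | nil => simp
  | cons s a ih => simp [ih, inf_assoc]

theorem w3_lab_le {l : List (Lb S)} {s : Lb S} (h : s ∈ l) : lab l ≤ rv s := by
  induction l with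
  | nil => simp at h
  | cons r l ih =>
    rcases List.mem_cons.1 h with rfl | h
    · exact inf_le_left
    · exact inf_le_right.trans (ih h)

theorem w3_upper {l l' : List (Lb S)} (h : l'.Sublist l) :
    ∀ X : RV S, H (X ⊓ lab l) + l'.length ≤ H (X ⊓ lab l') + l.length := by
  induction h with
  | slnil => intro X; exact le_rfl
  | @cons a b s _ ih =>
    intro X
    have h1 := ih X
    have h2 := H_lb (X ⊓ lab b) s
    have h3 : H (X ⊓ lab (s :: b)) = H (X ⊓ lab b ⊓ rv s) := by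
      rw [lab_cons]; exact H_congr (by order) (by order)
    rw [h3, List.length_cons]; push_cast; linarith
  | @cons_cons a b s _ ih =>
    intro X
    have h1 := ih (X ⊓ rv s)
    simp only [lab_cons, List.length_cons, ← inf_assoc]; push_cast; linarith

theorem w3_lower {l l' : List (Lb S)} {Y X : RV S} (hf : H Y + l.length ≤ H (Y ⊓ lab l))
    (h : l'.Sublist l) (hX : Y ≤ X) : H X + l'.length ≤ H (X ⊓ lab l') := by
  have h1 := w3_upper h Y
  have h2 := H_sub Y (X ⊓ lab l') X (Y ⊓ lab l') hX (by order) (by order)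
  linarith

theorem w3_free {U W : RV S} {d : Pt S} {lU l : List (Lb S)} (hF : Free U d lU)
    (hl : ∀ r ∈ l, In r d) (hf : H (U ⊓ rv d ⊓ W) + l.length ≤ H (U ⊓ rv d ⊓ W ⊓ lab l)) :
    Free (U ⊓ lab l) d (l ++ lU) := by
  have one : ∀ X : RV S, U ⊓ rv d ⊓ W ≤ X → ∀ s ∈ l, H X + 1 ≤ H (X ⊓ rv s) := by
    intro X hX s hs
    simpa using w3_lower hf (List.singleton_sublist.2 hs) hX
  refine ⟨fun s hs => ?_, fun s hs => ?_, ?_, fun s hs => ?_, ?_⟩
  · rcases List.mem_append.1 hs with hs | hs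
    exacts [hl s hs, hF.inc s hs]
  · rcases List.mem_append.1 hs with hs | hs
    exacts [inf_le_right.trans (w3_lab_le hs), inf_le_left.trans (hF.le s hs)]
  · have h1 := w3_lower hf (List.Sublist.refl l) (inf_le_left : _ ≤ U ⊓ rv d)
    have h2 := w3_upper (List.nil_sublist l) U
    have h3 := hF.pt
    have h4 : H (U ⊓ lab l ⊓ rv d) = H (U ⊓ rv d ⊓ lab l) := H_congr (by order) (by order)
    simp only [lab_nil, inf_top_eq, List.length_nil, Nat.cast_zero] at h2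
    linarith
  · rcases List.mem_append.1 hs with hs | hs
    · simpa [H_top] using one ⊤ le_top s hs
    · exact hF.one s hs
  · refine List.pairwise_append.2 ⟨List.pairwise_iff_forall_sublist.2 fun {a b} hab => ?_, hF.two,
      fun a ha b hb => ?_⟩
    · have := w3_lower hf hab le_top
      simp only [H_top, lab_cons, lab_nil, inf_top_eq, top_inf_eq, List.length_cons,
        List.length_nil] at this
      push_cast at this
      linarith
    · have h0 := hF.le b hb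
      have h1 := one (rv b) (by order) a ha
      have h2 := hF.one b hb
      rw [inf_comm]; linarith

theorem w3_meas {U c W : RV S} {d : Pt S} {l : List (Lb S)} {r : Lb S} (hr : r ∈ l)
    (cd : U ⊓ rv d ≤ c) (hM : Meas U c W d r)
    (hf : H (U ⊓ rv d ⊓ W) + l.length ≤ H (U ⊓ rv d ⊓ W ⊓ lab l)) :
    H (U ⊓ lab l ⊓ c ⊓ rv (qP r d) ⊓ W) + H (U ⊓ lab l ⊓ rv d) ≤
      H (U ⊓ lab l ⊓ rv d ⊓ W) + H (U ⊓ lab l ⊓ c ⊓ rv (qP r d)) := by
  have hlr := w3_lab_le hr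
  have hq := le_qP r d
  have up : ∀ X : RV S, X ≤ rv r → H (X ⊓ lab l) + 1 ≤ H X + l.length := by
    intro X hX
    have := w3_upper (List.singleton_sublist.2 hr) X
    simpa [inf_eq_left.2 hX] using this
  have u1 := up (U ⊓ c ⊓ rv r ⊓ rv (qP r d) ⊓ W) (by order)
  have u2 := up (U ⊓ rv r ⊓ rv d) (by order)
  have l0 := H_lb (U ⊓ rv d ⊓ W) r
  have l1 := H_sub (U ⊓ rv d ⊓ W ⊓ rv r) (U ⊓ lab l ⊓ c ⊓ rv (qP r d))
    (U ⊓ c ⊓ rv r ⊓ rv (qP r d)) (U ⊓ rv d ⊓ W ⊓ lab l) (by order) (by order) (by order)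
  have e1 : H (U ⊓ lab l ⊓ c ⊓ rv (qP r d) ⊓ W) = H (U ⊓ c ⊓ rv r ⊓ rv (qP r d) ⊓ W ⊓ lab l) :=
    H_congr (by order) (by order)
  have e2 : H (U ⊓ lab l ⊓ rv d) = H (U ⊓ rv r ⊓ rv d ⊓ lab l) := H_congr (by order) (by order)
  have e3 : H (U ⊓ lab l ⊓ rv d ⊓ W) = H (U ⊓ rv d ⊓ W ⊓ lab l) := H_congr (by order) (by order)
  have e4 : H (U ⊓ rv r ⊓ rv d ⊓ W) = H (U ⊓ rv d ⊓ W ⊓ rv r) := H_congr (by order) (by order)
  unfold Meas at hM
  linarith

theorem w3_chain {L W : RV S} {d : Pt S} {lU l : List (Lb S)} (hF : Free L d (l ++ lU))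
    (hM : ∀ r ∈ l, H (L ⊓ cq d lU ⊓ rv (qP r d) ⊓ W) + H (L ⊓ rv d) ≤
      H (L ⊓ rv d ⊓ W) + H (L ⊓ cq d lU ⊓ rv (qP r d))) (l' : List (Lb S)) (h : l'.Sublist l) :
    H (L ⊓ cq d (l'.map fl ++ lU)) + H (L ⊓ cq d lU ⊓ W) ≤
      H (L ⊓ cq d (l'.map fl ++ lU) ⊓ W) + H (L ⊓ cq d lU) := by
  induction l' with
  | nil => simp only [List.map_nil, List.nil_append]; linarith
  | cons r l' ih =>
    have ih := ih ((List.sublist_cons_self r l').trans h)
    have hr : r ∈ l := h.subset (by simp)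
    have f1 : Free L d ((r :: l').map fl ++ lU) := (hF.sublist (h.append_right lU)).map_fl
    have f2 : Free L d (r :: (l'.map fl ++ lU)) := by simpa using Free.flip f1
    have a := addT f2
    have m := hM r hr
    have hpq := (f2.inc r (by simp)).le_pq
    have hc : cq d (l'.map fl ++ lU) ≤ cq d lU := by rw [w3_cq_append]; exact inf_le_right
    simp only [List.map_cons, List.cons_append, cq_cons, qP_fl]
    unfold Addi at a
    generalize cq d (l'.map fl ++ lU) = C at *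
    have s1 := H_sub (L ⊓ C ⊓ rv (pP r d) ⊓ W) (L ⊓ C ⊓ rv (qP r d) ⊓ W) (L ⊓ C ⊓ W)
      (L ⊓ rv d ⊓ W) (by order) (by order) (by order)
    have s2 := H_sub (L ⊓ C ⊓ rv (qP r d)) (L ⊓ cq d lU ⊓ rv (qP r d) ⊓ W)
      (L ⊓ cq d lU ⊓ rv (qP r d)) (L ⊓ C ⊓ rv (qP r d) ⊓ W) (by order) (by order) (by order)
    have e1 : H (L ⊓ (rv (pP r d) ⊓ C)) = H (L ⊓ C ⊓ rv (pP r d)) := H_congr (by order) (by order)
    have e2 : H (L ⊓ (rv (pP r d) ⊓ C) ⊓ W) = H (L ⊓ C ⊓ rv (pP r d) ⊓ W) :=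
      H_congr (by order) (by order)
    linarith

theorem w3 {U W : RV S} {d : Pt S} {lU l : List (Lb S)} (hF : Free U d lU)
    (hl : ∀ r ∈ l, In r d ∧ Meas U (cq d lU) W d r)
    (hf : H (U ⊓ rv d ⊓ W) + l.length ≤ H (U ⊓ rv d ⊓ W ⊓ lab l)) :
    (l.length : ℝ) * (H (U ⊓ cq d lU ⊓ W) + H (U ⊓ rv d) - H (U ⊓ rv d ⊓ W) - H (U ⊓ cq d lU))
      ≤ 2 := by
  have cd := hF.le_cq
  have f0 := w3_free hF (fun r hr => (hl r hr).1) hf
  have ch := w3_chain f0 (fun r hr => w3_meas hr cd (hl r hr).2 hf) l (List.Sublist.refl l)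
  have f1 := f0.map_fl
  have co := corner (f1.sublist (List.sublist_append_left _ _))
  have cd1 := f1.le_cq
  have hc : cq d (l.map fl ++ lU) ≤ cq d (l.map fl) := by rw [w3_cq_append]; exact inf_le_left
  rw [List.length_map] at co
  refine le_trans (mul_le_mul_of_nonneg_left ?_ (Nat.cast_nonneg _)) co
  generalize cq d (l.map fl ++ lU) = C at *
  generalize cq d (l.map fl) = C' at *
  generalize cq d lU = c at *
  have m1 : H (U ⊓ lab l ⊓ C') ≤ H (U ⊓ lab l ⊓ C) := H_mono (by order)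
  have m2 : H (U ⊓ lab l ⊓ C ⊓ W) ≤ H (U ⊓ rv d ⊓ W ⊓ lab l) := H_mono (by order)
  have l1 := w3_lower hf (List.Sublist.refl l) (show _ ≤ U ⊓ c ⊓ W by order)
  have l2 := w3_lower hf (List.Sublist.refl l) (show _ ≤ U ⊓ rv d by order)
  have u1 := w3_upper (List.nil_sublist l) (U ⊓ rv d ⊓ W)
  have u2 := w3_upper (List.nil_sublist l) (U ⊓ c)
  simp only [lab_nil, inf_top_eq, List.length_nil, Nat.cast_zero] at u1 u2
  have e1 : H (U ⊓ lab l ⊓ c ⊓ W) = H (U ⊓ c ⊓ W ⊓ lab l) := H_congr (by order) (by order)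
  have e2 : H (U ⊓ lab l ⊓ rv d) = H (U ⊓ rv d ⊓ lab l) := H_congr (by order) (by order)
  have e3 : H (U ⊓ lab l ⊓ c) = H (U ⊓ c ⊓ lab l) := H_congr (by order) (by order)
  linarith

end Pool.Agent.P.MP_e72dc0_lc.TF
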